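import Mathlib

/-!
# The bipartite kernel of the TOKS problem: definitions

`W : Finset ι` (whites), `N : ι → Finset α` (the neighbours of a white, blacks).
-/

set_option autoImplicit false
set_option linter.unusedSectionVars false

namespace Pool.Agent.TOKST

section Comb

variable {ι α : Type} [DecidableEq ι] [DecidableEq α]

/-- the neighbourhood of a set of whites -/
def NN (N : ι → Finset α) (Y : Finset ι) : Finset α := Y.biUnion N

/-- every nonempty set of whites has surplus at least `3` -/
def Sur (W : Finset ι) (N : ι → Finset α) : Prop :=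
  ∀ Y, Y ⊆ W → Y.Nonempty → Y.card + 3 ≤ (NN N Y).card

/-- rigid structures; the black vertices are those of `NN N W` -/
structure Rigid (W : Finset ι) (N : ι → Finset α) : Prop where
  four : ∀ w ∈ W, (N w).card = 4
  sur : Sur W N
  tot : (NN N W).card = W.card + 3

/-- tight sets of whites -/
def Tight (W : Finset ι) (N : ι → Finset α) (Y : Finset ι) : Prop :=
  Y ⊆ W ∧ Y.Nonempty ∧ (NN N Y).card = Y.card + 3

/-- the pair `e` is admissible via `w` -/
def Adm (W : Finset ι) (N : ι → Finset α) (w : ι) (e : Finset α) : Prop :=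
  w ∈ W ∧ e.card = 2 ∧ e ⊆ N w ∧ ∀ Y, Tight W N Y → e ⊆ NN N Y → w ∈ Y

open Classical in
/-- the set of admissible pairs -/
noncomputable def PA (W : Finset ι) (N : ι → Finset α) : Finset (Finset α) :=
  ((NN N W).powersetCard 2).filter fun e => ∃ w, Adm W N w e

/-- the identification of `q` with `p` -/
def rr (p q : α) (a : α) : α := if a = q then p else a

/-- the neighbourhoods after the identification of `q` with `p` -/
def fN (p q : α) (N : ι → Finset α) : ι → Finset α := fun w => (N w).image (rr p q)

end Comb

section Graph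

variable {V : Type}

/-- `G` contains a totally odd subdivision of `K₄` (the conclusion of the frozen statement) -/
def HasTOKS (G : SimpleGraph V) : Prop :=
  ∃ (a : Fin 4 → V) (P : ∀ i j : Fin 4, G.Walk (a i) (a j)),
    Function.Injective a ∧
    (∀ i j : Fin 4, i < j → (P i j).IsPath ∧ Odd (P i j).length) ∧
    (∀ i j m : Fin 4, i < j → a m ∈ (P i j).support → m = i ∨ m = j) ∧
    (∀ i j k l : Fin 4, i < j → k < l → (i, j) ≠ (k, l) →
      ∀ x, x ∈ (P i j).support → x ∈ (P k l).support → ∃ m, x = a m)

/-- The list form: `L i j` is the list of the inner vertices of the path from `a i` to `a j`. -/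
structure IsTK (G : SimpleGraph V) (a : Fin 4 → V) (L : Fin 4 → Fin 4 → List V) : Prop where
  inj : Function.Injective a
  symm : ∀ i j, L j i = (L i j).reverse
  chain : ∀ i j, i ≠ j → List.IsChain G.Adj (a i :: (L i j ++ [a j]))
  even : ∀ i j, i ≠ j → Even (L i j).length
  nodup : ∀ i j, i ≠ j → (L i j).Nodup
  out : ∀ i j m, i ≠ j → a m ∉ L i j
  disj : ∀ i j k l, i ≠ j → k ≠ l → s(i, j) ≠ s(k, l) → ∀ x ∈ L i j, x ∉ L k l

/-- the list form of `HasTOKS` -/
def TK (G : SimpleGraph V) : Prop := ∃ a L, IsTK G a L

variable [DecidableEq V]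

/-- The graph with the whites `Wh` (`w` is adjacent to the elements of `N w`) and the links
`a b` and `c d`. -/
def JG (Wh : Finset V) (N : V → Finset V) (a b c d : V) : SimpleGraph V :=
  SimpleGraph.fromRel fun u v => (u ∈ Wh ∧ v ∈ N u) ∨ (u = a ∧ v = b) ∨ (u = c ∧ v = d)

end Graph

end Pool.Agent.TOKST
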