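import Mathlib
import Pool.Agent.TOKST.Defs

/-!
# Neighbourhoods, surplus, uncrossing
-/

set_option autoImplicit false
set_option linter.unusedSectionVars false

namespace Pool.Agent.TOKST

variable {ι α : Type} [DecidableEq ι] [DecidableEq α] {W : Finset ι} {N : ι → Finset α}

theorem mem_NN {Y : Finset ι} {a : α} : a ∈ NN N Y ↔ ∃ w ∈ Y, a ∈ N w := Finset.mem_biUnion

theorem NN_mono {Y Z : Finset ι} (h : Y ⊆ Z) : NN N Y ⊆ NN N Z :=
  Finset.biUnion_subset_biUnion_of_subset_left _ h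

theorem NN_union (Y Z : Finset ι) : NN N (Y ∪ Z) = NN N Y ∪ NN N Z := by
  ext a
  simp only [mem_NN, Finset.mem_union]
  constructor
  · rintro ⟨w, h | h, ha⟩
    · exact Or.inl ⟨w, h, ha⟩
    · exact Or.inr ⟨w, h, ha⟩
  · rintro (⟨w, h, ha⟩ | ⟨w, h, ha⟩)
    · exact ⟨w, Or.inl h, ha⟩
    · exact ⟨w, Or.inr h, ha⟩

theorem NN_inter_subset (Y Z : Finset ι) : NN N (Y ∩ Z) ⊆ NN N Y ∩ NN N Z :=
  Finset.subset_inter (NN_mono Finset.inter_subset_left) (NN_mono Finset.inter_subset_right)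

@[simp] theorem NN_singleton (w : ι) : NN N {w} = N w := Finset.singleton_biUnion

@[simp] theorem NN_empty : NN N (∅ : Finset ι) = ∅ := Finset.biUnion_empty

theorem N_subset_NN {Y : Finset ι} {w : ι} (h : w ∈ Y) : N w ⊆ NN N Y :=
  Finset.subset_biUnion_of_mem _ h

theorem NN_insert (w : ι) (Y : Finset ι) : NN N (insert w Y) = N w ∪ NN N Y :=
  Finset.biUnion_insert

/-- the surplus is submodular -/
theorem card_NN_add (Y Z : Finset ι) :
    (NN N (Y ∪ Z)).card + (NN N Y ∩ NN N Z).card = (NN N Y).card + (NN N Z).card := by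
  rw [NN_union]
  exact Finset.card_union_add_card_inter _ _

theorem Sur.mono {W' : Finset ι} (h : Sur W N) (hW : W' ⊆ W) : Sur W' N :=
  fun Y hY hne => h Y (hY.trans hW) hne

theorem Tight.sub {Y : Finset ι} (h : Tight W N Y) : Y ⊆ W := h.1

theorem Tight.ne {Y : Finset ι} (h : Tight W N Y) : Y.Nonempty := h.2.1

theorem Tight.card {Y : Finset ι} (h : Tight W N Y) : (NN N Y).card = Y.card + 3 := h.2.2

theorem Tight.mono {W' Y : Finset ι} (h : Tight W N Y) (hY : Y ⊆ W') : Tight W' N Y :=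
  ⟨hY, h.2.1, h.2.2⟩

/-- uncrossing -/
theorem uncross (hS : Sur W N) {Y Z : Finset ι} (hY : Tight W N Y) (hZ : Tight W N Z)
    (hne : (Y ∩ Z).Nonempty) :
    Tight W N (Y ∪ Z) ∧ Tight W N (Y ∩ Z) ∧ NN N (Y ∩ Z) = NN N Y ∩ NN N Z := by
  have hU : Y ∪ Z ⊆ W := Finset.union_subset hY.sub hZ.sub
  have hI : Y ∩ Z ⊆ W := Finset.inter_subset_left.trans hY.sub
  have hUne : (Y ∪ Z).Nonempty := hY.ne.mono Finset.subset_union_left
  have h1 := card_NN_add (N := N) Y Z
  have h2 := Finset.card_union_add_card_inter Y Z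
  have h3 := hS _ hU hUne
  have h4 := hS _ hI hne
  have h5 : (NN N (Y ∩ Z)).card ≤ (NN N Y ∩ NN N Z).card :=
    Finset.card_le_card (NN_inter_subset Y Z)
  have h6 := hY.card
  have h7 := hZ.card
  refine ⟨⟨hU, hUne, by omega⟩, ⟨hI, hne, by omega⟩, ?_⟩
  exact Finset.eq_of_subset_of_card_le (NN_inter_subset Y Z) (by omega)

theorem disj_card (hS : Sur W N) {Y Z : Finset ι} (hY : Tight W N Y) (hZ : Tight W N Z)
    (hd : Disjoint Y Z) : (NN N Y ∩ NN N Z).card ≤ 3 := by
  have hU : Y ∪ Z ⊆ W := Finset.union_subset hY.sub hZ.sub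
  have h1 := card_NN_add (N := N) Y Z
  have h2 := Finset.card_union_of_disjoint hd
  have h3 := hS _ hU (hY.ne.mono Finset.subset_union_left)
  have h6 := hY.card
  have h7 := hZ.card
  omega

theorem disj_card_three {Y Z : Finset ι} (hY : Tight W N Y) (hZ : Tight W N Z)
    (hd : Disjoint Y Z) (hU : Tight W N (Y ∪ Z)) : (NN N Y ∩ NN N Z).card = 3 := by
  have h1 := card_NN_add (N := N) Y Z
  have h2 := Finset.card_union_of_disjoint hd
  have h3 := hU.card
  have h6 := hY.card
  have h7 := hZ.card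
  omega

theorem Rigid.single (h : Rigid W N) {w : ι} (hw : w ∈ W) : Tight W N {w} :=
  ⟨Finset.singleton_subset_iff.2 hw, Finset.singleton_nonempty _, by
    rw [NN_singleton, h.four w hw, Finset.card_singleton]⟩

theorem Rigid.all (h : Rigid W N) (hne : W.Nonempty) : Tight W N W :=
  ⟨subset_rfl, hne, h.tot⟩

/-- a tight set is a rigid structure -/
theorem Rigid.restrict (h : Rigid W N) {Y : Finset ι} (hY : Tight W N Y) : Rigid Y N :=
  ⟨fun w hw => h.four w (hY.sub hw), h.sur.mono hY.sub, hY.card⟩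

theorem Adm.mem_PA {w : ι} {e : Finset α} (h : Adm W N w e) : e ∈ PA W N := by
  classical
  unfold PA
  exact Finset.mem_filter.2 ⟨Finset.mem_powersetCard.2
    ⟨h.2.2.1.trans (N_subset_NN h.1), h.2.1⟩, w, h⟩

theorem mem_PA {e : Finset α} : e ∈ PA W N ↔ ∃ w, Adm W N w e := by
  classical
  constructor
  · intro h
    unfold PA at h
    exact (Finset.mem_filter.1 h).2
  · rintro ⟨w, h⟩
    exact h.mem_PA

theorem rr_ne {p q : α} (hpq : p ≠ q) (a : α) : rr p q a ≠ q := by
  unfold rr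
  split_ifs with h
  · exact hpq
  · exact h

@[simp] theorem rr_self (p q : α) : rr p q q = p := if_pos rfl

theorem rr_of_ne {p q a : α} (h : a ≠ q) : rr p q a = a := if_neg h

theorem NN_fN (p q : α) (Y : Finset ι) : NN (fN p q N) Y = (NN N Y).image (rr p q) := by
  unfold NN fN
  rw [Finset.biUnion_image]

/-- `Y` does not see both `p` and `q`: no loss; else exactly one vertex is lost -/
theorem card_image_rr {p q : α} (hpq : p ≠ q) (S : Finset α) :
    (S.image (rr p q)).card + (if p ∈ S ∧ q ∈ S then 1 else 0) = S.card := by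
  by_cases h : p ∈ S ∧ q ∈ S
  · rw [if_pos h]
    have h1 : S.image (rr p q) = S.erase q := by
      ext a
      simp only [Finset.mem_image, Finset.mem_erase]
      constructor
      · rintro ⟨b, hb, rfl⟩
        refine ⟨rr_ne hpq b, ?_⟩
        by_cases hbq : b = q
        · rw [hbq, rr_self]
          exact h.1
        · rw [rr_of_ne hbq]
          exact hb
      · rintro ⟨h1, h2⟩
        exact ⟨a, h2, rr_of_ne h1⟩
    rw [h1]
    exact Finset.card_erase_add_one h.2
  · rw [if_neg h, add_zero]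
    apply Finset.card_image_of_injOn
    intro a ha b hb hab
    by_cases haq : a = q
    · by_cases hbq : b = q
      · rw [haq, hbq]
      · rw [haq, rr_self, rr_of_ne hbq] at hab
        exact absurd ⟨hab ▸ hb, haq ▸ ha⟩ h
    · by_cases hbq : b = q
      · rw [hbq, rr_self, rr_of_ne haq] at hab
        exact absurd ⟨hab ▸ ha, hbq ▸ hb⟩ h
      · rwa [rr_of_ne haq, rr_of_ne hbq] at hab

end Pool.Agent.TOKST
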