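import Mathlib
import Pool.Agent.TOKST.Base

/-!
# Facts 1a, 1b, 1c on an admissible fold
-/

set_option autoImplicit false
set_option linter.unusedSectionVars false

namespace Pool.Agent.TOKST

variable {ι α : Type} [DecidableEq ι] [DecidableEq α] {W : Finset ι} {N : ι → Finset α}

theorem Adm.not_both {w : ι} {p q : α} (ha : Adm W N w {p, q}) {Y : Finset ι}
    (hY : Tight W N Y) (hw : w ∉ Y) : ¬ (p ∈ NN N Y ∧ q ∈ NN N Y) := by
  rintro ⟨h1, h2⟩
  exact hw (ha.2.2.2 Y hY (by
    intro a h
    rcases Finset.mem_insert.1 h with h | h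
    · rw [h]; exact h1
    · rw [Finset.mem_singleton.1 h]; exact h2))

theorem Adm.left {w : ι} {p q : α} (ha : Adm W N w {p, q}) : p ∈ N w :=
  ha.2.2.1 (Finset.mem_insert_self _ _)

theorem Adm.right {w : ι} {p q : α} (ha : Adm W N w {p, q}) : q ∈ N w :=
  ha.2.2.1 (Finset.mem_insert_of_mem (Finset.mem_singleton_self _))

theorem Adm.ne {w : ι} {p q : α} (ha : Adm W N w {p, q}) : p ≠ q := by
  rintro rfl
  have := ha.2.1
  simp at this

/-- 1a -/
theorem fold_tight_of_not_mem {w : ι} {p q : α} (ha : Adm W N w {p, q}) {Y : Finset ι}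
    (hY : Tight W N Y) (hw : w ∉ Y) : Tight (W.erase w) (fN p q N) Y := by
  refine ⟨Finset.subset_erase.2 ⟨hY.sub, hw⟩, hY.ne, ?_⟩
  have h1 := card_image_rr ha.ne (NN N Y)
  rw [if_neg (ha.not_both hY hw), add_zero] at h1
  rw [NN_fN, h1, hY.card]

/-- the surplus after the fold -/
theorem fold_sur (h : Sur W N) {w : ι} {p q : α} (ha : Adm W N w {p, q}) :
    Sur (W.erase w) (fN p q N) := by
  intro Y hY hne
  obtain ⟨hYW, hwY⟩ := Finset.subset_erase.1 hY
  have h1 := card_image_rr ha.ne (NN N Y)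
  have h2 := h Y hYW hne
  rw [NN_fN]
  by_cases h3 : p ∈ NN N Y ∧ q ∈ NN N Y
  · rw [if_pos h3] at h1
    by_contra hcon
    exact ha.not_both ⟨hYW, hne, by omega⟩ hwY h3
  · rw [if_neg h3] at h1
    omega

/-- 1b -/
theorem fold_tight_of_mem (h : Rigid W N) {w : ι} {p q : α} (ha : Adm W N w {p, q})
    {Y : Finset ι} (hY : Tight W N Y) (hw : w ∈ Y) (hne : Y ≠ {w}) :
    Tight (W.erase w) (fN p q N) (Y.erase w) ∧
      NN (fN p q N) (Y.erase w) = (NN N Y).image (rr p q) := by
  have hYe : (Y.erase w).Nonempty := by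
    rw [Finset.nonempty_iff_ne_empty]
    intro h0
    apply hne
    rw [← Finset.insert_erase hw, h0]
    rfl
  have hsub : Y.erase w ⊆ W := (Finset.erase_subset _ _).trans hY.sub
  have hsub' : Y.erase w ⊆ W.erase w := Finset.erase_subset_erase _ hY.sub
  have hYins : NN N Y = N w ∪ NN N (Y.erase w) := by
    rw [← NN_insert, Finset.insert_erase hw]
  have hc1 : (Y.erase w).card + 1 = Y.card := Finset.card_erase_add_one hw
  have hs := h.sur _ hsub hYe
  have hf := h.four w (hY.sub hw)
  have hY3 := hY.card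
  -- the number of private vertices
  have hpriv : (N w \ NN N (Y.erase w)).card + (NN N (Y.erase w)).card = (NN N Y).card := by
    rw [hYins, ← Finset.sdiff_union_self_eq_union,
      Finset.card_union_of_disjoint Finset.sdiff_disjoint]
  have hle1 : (N w \ NN N (Y.erase w)).card ≤ 1 := by omega
  -- the images agree
  have himg : (NN N (Y.erase w)).image (rr p q) = (NN N Y).image (rr p q) := by
    apply Finset.Subset.antisymm (Finset.image_subset_image (NN_mono (Finset.erase_subset _ _)))
    intro x hx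
    obtain ⟨a, ha1, rfl⟩ := Finset.mem_image.1 hx
    by_cases ha2 : a ∈ NN N (Y.erase w)
    · exact Finset.mem_image_of_mem _ ha2
    · have ha3 : a ∈ N w := by
        rw [hYins] at ha1
        rcases Finset.mem_union.1 ha1 with h1 | h1
        · exact h1
        · exact absurd h1 ha2
      have ha4 : a ∈ N w \ NN N (Y.erase w) := Finset.mem_sdiff.2 ⟨ha3, ha2⟩
      have hone : (N w \ NN N (Y.erase w)).card = 1 := by
        have := Finset.card_pos.2 ⟨a, ha4⟩
        omega
      have huniq : ∀ b ∈ N w, b ∉ NN N (Y.erase w) → b = a := by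
        intro b hb hb'
        exact (Finset.card_le_one.1 (le_of_eq hone)) b (Finset.mem_sdiff.2 ⟨hb, hb'⟩) a ha4
      have htY : Tight W N (Y.erase w) := ⟨hsub, hYe, by omega⟩
      have hnb := ha.not_both htY (Finset.notMem_erase _ _)
      by_cases hp : p ∈ NN N (Y.erase w)
      · have hq : q ∉ NN N (Y.erase w) := fun hq => hnb ⟨hp, hq⟩
        rw [← huniq q ha.right hq, rr_self]
        exact Finset.mem_image.2 ⟨p, hp, rr_of_ne ha.ne⟩
      · have hpa := huniq p ha.left hp
        have hq : q ∈ NN N (Y.erase w) := by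
          by_contra hq
          exact ha.ne (hpa.trans (huniq q ha.right hq).symm)
        rw [← hpa, rr_of_ne ha.ne]
        exact Finset.mem_image.2 ⟨q, hq, rr_self p q⟩
  have hN : NN (fN p q N) (Y.erase w) = (NN N Y).image (rr p q) := by
    rw [NN_fN, himg]
  refine ⟨⟨hsub', hYe, ?_⟩, hN⟩
  have h1 := card_image_rr ha.ne (NN N Y)
  rw [if_pos ⟨N_subset_NN hw ha.left, N_subset_NN hw ha.right⟩] at h1
  rw [hN]
  omega

/-- 1c -/
theorem fold_rigid (h : Rigid W N) {w : ι} {p q : α} (ha : Adm W N w {p, q})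
    (hW : 2 ≤ W.card) : Rigid (W.erase w) (fN p q N) := by
  have hw := ha.1
  have hWne : W ≠ {w} := by
    rintro h1
    rw [h1, Finset.card_singleton] at hW
    omega
  obtain ⟨h1, h2⟩ := fold_tight_of_mem h ha (h.all ⟨w, hw⟩) hw hWne
  refine ⟨fun w' hw' => ?_, fold_sur h.sur ha, h1.card⟩
  obtain ⟨h3, h4⟩ := Finset.mem_erase.1 hw'
  have h5 := (fold_tight_of_not_mem ha (h.single h4) (by
    rw [Finset.mem_singleton]; exact fun h => h3 h.symm)).card
  rwa [NN_singleton, Finset.card_singleton] at h5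

end Pool.Agent.TOKST
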