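import Mathlib
import Pool.Agent.TOKST.Defs

/-!
# Symmetry and simple construction lemmas for `IsTK`
-/

set_option autoImplicit false
set_option linter.unusedSectionVars false

namespace Pool.Agent.TOKST

variable {V : Type} {G : SimpleGraph V}

/-- relabelling the branch vertices -/
theorem IsTK.perm {a : Fin 4 → V} {L : Fin 4 → Fin 4 → List V} (h : IsTK G a L)
    (σ : Equiv.Perm (Fin 4)) : IsTK G (a ∘ σ) (fun i j => L (σ i) (σ j)) where
  inj := h.inj.comp σ.injective
  symm := fun i j => h.symm _ _
  chain := fun i j hij => h.chain _ _ (fun h' => hij (σ.injective h'))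
  even := fun i j hij => h.even _ _ (fun h' => hij (σ.injective h'))
  nodup := fun i j hij => h.nodup _ _ (fun h' => hij (σ.injective h'))
  out := fun i j m hij => h.out _ _ _ (fun h' => hij (σ.injective h'))
  disj := by
    intro i j k l hij hkl hne
    refine h.disj _ _ _ _ (fun h' => hij (σ.injective h')) (fun h' => hkl (σ.injective h')) ?_
    intro h'
    apply hne
    have h2 : Sym2.map σ s(i, j) = Sym2.map σ s(k, l) := by
      simpa only [Sym2.map_mk] using h'
    exact Sym2.map.injective σ.injective h2

theorem IsTK.mono {G' : SimpleGraph V} (hG : ∀ u v, G.Adj u v → G'.Adj u v) {a : Fin 4 → V}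
    {L : Fin 4 → Fin 4 → List V} (h : IsTK G a L) : IsTK G' a L where
  inj := h.inj
  symm := h.symm
  chain := fun i j hij => (h.chain i j hij).imp hG
  even := h.even
  nodup := h.nodup
  out := h.out
  disj := h.disj

theorem TK.mono {G' : SimpleGraph V} (hG : ∀ u v, G.Adj u v → G'.Adj u v) (h : TK G) :
    TK G' := by
  obtain ⟨a, L, h⟩ := h
  exact ⟨a, L, h.mono hG⟩

end Pool.Agent.TOKST
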