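import Mathlib
import Pool.Agent.TOKST.TKPerm

/-!
# Module TKFOLD: lifting a totally odd `K₄`-subdivision through a fold

`G'` arises from `G` by deleting `w` and identifying `q` with `p` (the new vertex is called `p`), possibly with fewer edges.
Paper proof.  Let `IsTK G' a L`.  Every `x` occurring (as some `a m` or in some `L i j`, `i ≠ j`) is a vertex of a `G'`-edge, so `x ≠ w` and `x ≠ q`.
(0) `p` does not occur: all edges used are edges of `G` by `h1`: the same `a`, `L`.
(1) `p ∈ L i j` for some `i ≠ j`: `L i j = l1 ++ p :: l2`, `p` occurs nowhere else (`disj`, `out`, `nodup`).  Let `x` be the last element of `a i :: l1` and `y` the first one of `l2 ++ [a j]`; `G'.Adj x p`, `G'.Adj p y`, so by `h2` each of `x, y` is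
   `G`-adjacent to `p` or `q`.  New list for `(i, j)`: `l1 ++ p :: l2` (both `p`), `l1 ++ q :: l2` (both `q`), `l1 ++ p :: w :: q :: l2` (`x ~ p`, `y ~ q`), `l1 ++ q :: w :: p :: l2` (`x ~ q`, `y ~ p`); the reverse for `(j, i)`; all the others unchanged.  Parity is kept.
   WLOG (by `IsTK.perm`) `i = 0`, `j = 1`.
(2) `p = a i`: WLOG `i = 0`.  For `j = 1, 2, 3` the first vertex `y_j` of `L 0 j ++ [a j]` is `G`-adjacent to `p` or to `q`.  If at least two of the `y_j` are adjacent to `p` (WLOG `y_1, y_2`): if `y_3 ~ p` nothing changes; otherwise `L 0 3` becomes `w :: q :: L 0 3` (`p w q y_3`).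
   Otherwise two of them (WLOG `y_1, y_2`) are adjacent to `q`: the branch vertex `a 0` becomes `q`, and `L 0 3` becomes `w :: p :: L 0 3` if `y_3 ~ p` (unchanged if `y_3 ~ q`).
A convenient way to avoid repetitions: first prove a lemma which replaces the data at one pair `(0,3)` and the vertex `a 0`:  from `IsTK`-like data for `G` except for the edges at `a 0`.
-/

set_option autoImplicit false
set_option linter.unusedSectionVars false

namespace Pool.Agent.TOKST

variable {V : Type} {G G' : SimpleGraph V}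

theorem TKFold_rev {l : List V} {x y : V} (h : List.IsChain G.Adj (x :: (l ++ [y]))) :
    List.IsChain G.Adj (y :: (l.reverse ++ [x])) := by
  have h1 : y :: (l.reverse ++ [x]) = (x :: (l ++ [y])).reverse := by simp
  rw [h1, List.isChain_reverse]
  exact h.imp fun a b hab => hab.symm

/-- edges of a chain avoiding `p` -/
theorem TKFold_chain {p : V} (h1 : ∀ u v, G'.Adj u v → u ≠ p → v ≠ p → G.Adj u v) {l : List V}
    (h : List.IsChain G'.Adj l) (hp : p ∉ l) : List.IsChain G.Adj l := by
  induction l with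
  | nil => exact List.IsChain.nil
  | cons x l ih =>
    rw [List.isChain_cons] at h ⊢
    rw [List.mem_cons, not_or] at hp
    refine ⟨fun y hy => h1 x y (h.1 y hy) (fun hh => hp.1 hh.symm) ?_, ih h.2 hp.2⟩
    rintro rfl
    exact hp.2 (List.mem_of_mem_head? hy)

/-- every vertex of a chain with at least two vertices has a neighbour -/
theorem TKFold_nbr {l : List V} {x y : V} (h : List.IsChain G'.Adj (x :: (l ++ [y]))) :
    ∀ z ∈ x :: (l ++ [y]), ∃ u, G'.Adj z u := by
  intro z hz
  obtain ⟨s, t, hst⟩ := List.append_of_mem hz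
  rw [hst] at h
  cases t with
  | cons u t =>
    rw [List.isChain_split, List.isChain_cons_cons] at h
    exact ⟨u, h.2.1⟩
  | nil =>
    rcases List.eq_nil_or_concat s with rfl | ⟨s', u, rfl⟩
    · exfalso
      have := congrArg List.length hst
      simp at this
    · rw [List.concat_eq_append, List.append_assoc, List.singleton_append, List.isChain_split,
        List.isChain_cons_cons] at h
      exact ⟨u, h.2.1.symm⟩

theorem TKFold_build {a : Fin 4 → V} {L : Fin 4 → Fin 4 → List V} (h : IsTK G' a L)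
    {i0 j0 : Fin 4} (h00 : i0 ≠ j0) (b : V) (M : List V)
    (c1 : ∀ i j, i ≠ j → i ≠ i0 → j ≠ i0 → List.IsChain G.Adj (a i :: (L i j ++ [a j])))
    (c2 : ∀ j, j ≠ i0 → j ≠ j0 → List.IsChain G.Adj (b :: (L i0 j ++ [a j])))
    (c3 : List.IsChain G.Adj (b :: (M ++ [a j0])))
    (c4 : Even M.length) (c5 : M.Nodup) (c6 : b ∉ M) (c7 : ∀ m, m ≠ i0 → a m ∉ M)
    (c8 : ∀ k l, k ≠ l → s(k, l) ≠ s(i0, j0) → ∀ x ∈ M, x ∉ L k l)
    (c9 : ∀ m, m ≠ i0 → b ≠ a m)
    (c10 : ∀ i j, i ≠ j → s(i, j) ≠ s(i0, j0) → b ∉ L i j) : TK G := by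
  classical
  let a' : Fin 4 → V := Function.update a i0 b
  let L' : Fin 4 → Fin 4 → List V := fun i j =>
    if i = i0 ∧ j = j0 then M else if i = j0 ∧ j = i0 then M.reverse else L i j
  have ha0 : a' i0 = b := Function.update_self ..
  have ha : ∀ m, m ≠ i0 → a' m = a m := fun m hm => Function.update_of_ne hm ..
  have e1 : L' i0 j0 = M := if_pos ⟨rfl, rfl⟩
  have e2 : L' j0 i0 = M.reverse :=
    (if_neg (fun hh => h00 hh.1.symm)).trans (if_pos ⟨rfl, rfl⟩)
  have e3 : ∀ i j, s(i, j) ≠ s(i0, j0) → L' i j = L i j := by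
    intro i j hne
    simp only [L']
    rw [if_neg, if_neg]
    · rintro ⟨rfl, rfl⟩
      exact hne Sym2.eq_swap
    · rintro ⟨rfl, rfl⟩
      exact hne rfl
  have hcase : ∀ i j, (i = i0 ∧ j = j0) ∨ (i = j0 ∧ j = i0) ∨ s(i, j) ≠ s(i0, j0) := by
    intro i j
    by_cases hh : s(i, j) = s(i0, j0)
    · rcases Sym2.eq_iff.1 hh with h1 | h1
      · exact Or.inl h1
      · exact Or.inr (Or.inl h1)
    · exact Or.inr (Or.inr hh)
  have hmem : ∀ i j x, x ∈ L' i j →
      (s(i, j) = s(i0, j0) ∧ x ∈ M) ∨ (s(i, j) ≠ s(i0, j0) ∧ x ∈ L i j) := by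
    intro i j x hx
    rcases hcase i j with ⟨rfl, rfl⟩ | ⟨rfl, rfl⟩ | hne
    · rw [e1] at hx
      exact Or.inl ⟨rfl, hx⟩
    · rw [e2, List.mem_reverse] at hx
      exact Or.inl ⟨Sym2.eq_swap, hx⟩
    · rw [e3 i j hne] at hx
      exact Or.inr ⟨hne, hx⟩
  refine ⟨a', L', ?_, ?_, ?_, ?_, ?_, ?_, ?_⟩
  · intro m n hmn
    by_cases hm : m = i0
    · by_cases hn : n = i0
      · rw [hm, hn]
      · rw [hm, ha0, ha n hn] at hmn
        exact absurd hmn (c9 n hn)
    · by_cases hn : n = i0
      · rw [hn, ha0, ha m hm] at hmn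
        exact absurd hmn.symm (c9 m hm)
      · rw [ha m hm, ha n hn] at hmn
        exact h.inj hmn
  · intro i j
    rcases hcase i j with ⟨rfl, rfl⟩ | ⟨rfl, rfl⟩ | hne
    · rw [e1, e2]
    · rw [e1, e2, List.reverse_reverse]
    · rw [e3 i j hne, e3 j i (fun hh => hne (Sym2.eq_swap.trans hh)), h.symm]
  · intro i j hij
    rcases hcase i j with ⟨rfl, rfl⟩ | ⟨rfl, rfl⟩ | hne
    · rw [e1, ha0, ha _ h00.symm]
      exact c3
    · rw [e2, ha0, ha _ h00.symm]
      exact TKFold_rev c3
    · rw [e3 i j hne]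
      by_cases hi : i = i0
      · subst hi
        have hj : j ≠ j0 := by
          rintro rfl
          exact hne rfl
        rw [ha0, ha j hij.symm]
        exact c2 j hij.symm hj
      · by_cases hj : j = i0
        · subst hj
          have hi' : i ≠ j0 := by
            rintro rfl
            exact hne Sym2.eq_swap
          rw [ha0, ha i hi, h.symm j i]
          exact TKFold_rev (c2 i hi hi')
        · rw [ha i hi, ha j hj]
          exact c1 i j hij hi hj
  · intro i j hij
    rcases hcase i j with ⟨rfl, rfl⟩ | ⟨rfl, rfl⟩ | hne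
    · rw [e1]
      exact c4
    · rw [e2, List.length_reverse]
      exact c4
    · rw [e3 i j hne]
      exact h.even i j hij
  · intro i j hij
    rcases hcase i j with ⟨rfl, rfl⟩ | ⟨rfl, rfl⟩ | hne
    · rw [e1]
      exact c5
    · rw [e2, List.nodup_reverse]
      exact c5
    · rw [e3 i j hne]
      exact h.nodup i j hij
  · intro i j m hij hx
    by_cases hm : m = i0
    · subst hm
      rw [ha0] at hx
      rcases hmem i j _ hx with ⟨-, h2⟩ | ⟨h1, h2⟩
      · exact c6 h2
      · exact c10 i j hij h1 h2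
    · rw [ha m hm] at hx
      rcases hmem i j _ hx with ⟨-, h2⟩ | ⟨h1, h2⟩
      · exact c7 m hm h2
      · exact h.out i j m hij h2
  · intro i j k l hij hkl hne x hx hy
    rcases hmem i j _ hx with ⟨h1, h2⟩ | ⟨h1, h2⟩
    · rcases hmem k l _ hy with ⟨h3, h4⟩ | ⟨h3, h4⟩
      · exact hne (h1.trans h3.symm)
      · exact c8 k l hkl h3 x h2 h4
    · rcases hmem k l _ hy with ⟨h3, h4⟩ | ⟨h3, h4⟩
      · exact c8 i j hij h1 x h4 h2
      · exact h.disj i j k l hij hkl hne x h2 h4

theorem TKFold_pigeon (R : Prop → Fin 4 → Prop) (i0 : Fin 4)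
    (h : ∀ j, j ≠ i0 → R True j ∨ R False j) :
    ∃ c j0, j0 ≠ i0 ∧ (c = True ∨ c = False) ∧ ∀ j, j ≠ i0 → j ≠ j0 → R c j := by
  have hd : ∀ i0 j1 j2 : Fin 4, j1 ≠ i0 → j2 ≠ i0 → j2 ≠ j1 →
      ∃ j3, j3 ≠ i0 ∧ ∀ j, j ≠ i0 → j ≠ j3 → j = j1 ∨ j = j2 := by decide
  have hd1 : ∀ i0 : Fin 4, ∃ j, j ≠ i0 := by decide
  by_cases h1 : ∀ j, j ≠ i0 → R True j
  · obtain ⟨j, hj⟩ := hd1 i0
    exact ⟨True, j, hj, Or.inl rfl, fun j hj _ => h1 j hj⟩
  · push Not at h1
    obtain ⟨j1, hj1, hj1'⟩ := h1
    by_cases h2 : ∀ j, j ≠ i0 → j ≠ j1 → R True j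
    · exact ⟨True, j1, hj1, Or.inl rfl, h2⟩
    · push Not at h2
      obtain ⟨j2, hj2, hj21, hj2'⟩ := h2
      obtain ⟨j3, hj3, h3⟩ := hd i0 j1 j2 hj1 hj2 hj21
      refine ⟨False, j3, hj3, Or.inr rfl, fun j hj hj' => ?_⟩
      rcases h3 j hj hj' with rfl | rfl
      · exact (h _ hj1).resolve_left hj1'
      · exact (h _ hj2).resolve_left hj2'

theorem TK_fold {w p q : V} (hwp : G.Adj w p) (hwq : G.Adj w q) (hpq : p ≠ q)
    (h0 : ∀ u v, G'.Adj u v → u ≠ w ∧ u ≠ q)
    (h1 : ∀ u v, G'.Adj u v → u ≠ p → v ≠ p → G.Adj u v)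
    (h2 : ∀ v, G'.Adj p v → G.Adj p v ∨ G.Adj q v) (h : TK G') : TK G := by
  classical
  obtain ⟨a, L, h⟩ := h
  have hwp' : w ≠ p := hwp.ne
  have hwq' : w ≠ q := hwq.ne
  have hd1 : ∀ i : Fin 4, ∃ j, j ≠ i := by decide
  -- the vertices `w` and `q` do not occur
  have o1 : ∀ m, a m ≠ w ∧ a m ≠ q := by
    intro m
    obtain ⟨j, hj⟩ := hd1 m
    obtain ⟨u, hu⟩ := TKFold_nbr (h.chain m j hj.symm) (a m) List.mem_cons_self
    exact h0 _ _ hu
  have o2 : ∀ i j, i ≠ j → ∀ x ∈ L i j, x ≠ w ∧ x ≠ q := by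
    intro i j hij x hx
    obtain ⟨u, hu⟩ := TKFold_nbr (h.chain i j hij) x
      (List.mem_cons_of_mem _ (List.mem_append_left _ hx))
    exact h0 _ _ hu
  -- chains avoiding `p`
  have o3 : ∀ i j, i ≠ j → p ∉ L i j → a i ≠ p → a j ≠ p →
      List.IsChain G.Adj (a i :: (L i j ++ [a j])) := by
    intro i j hij hp hi hj
    refine TKFold_chain h1 (h.chain i j hij) ?_
    simp only [List.mem_cons, List.mem_append, List.not_mem_nil, or_false, not_or]
    exact ⟨fun hh => hi hh.symm, hp, fun hh => hj hh.symm⟩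
  by_cases hA : ∃ i, a i = p
  · -- `p` is a branch vertex
    obtain ⟨i0, hi0⟩ := hA
    have hpL : ∀ i j, i ≠ j → p ∉ L i j := fun i j hij => hi0 ▸ h.out i j i0 hij
    have hpa : ∀ m, m ≠ i0 → a m ≠ p := fun m hm hh => hm (h.inj (hh.trans hi0.symm))
    have hR : ∀ j, j ≠ i0 → List.IsChain G.Adj (p :: (L i0 j ++ [a j])) ∨
        List.IsChain G.Adj (q :: (L i0 j ++ [a j])) := by
      intro j hj
      have hc := h.chain i0 j hj.symm
      rw [hi0, List.isChain_cons] at hc
      have hc2 : List.IsChain G.Adj (L i0 j ++ [a j]) := by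
        refine TKFold_chain h1 hc.2 ?_
        simp only [List.mem_append, List.mem_cons, List.not_mem_nil, or_false, not_or]
        exact ⟨hpL i0 j hj.symm, fun hh => hpa j hj hh.symm⟩
      have hne : ∃ y t, L i0 j ++ [a j] = y :: t := by
        cases L i0 j with
        | nil => exact ⟨a j, [], rfl⟩
        | cons y t => exact ⟨y, t ++ [a j], rfl⟩
      obtain ⟨y, t, hyt⟩ := hne
      rw [hyt] at hc hc2 ⊢
      rcases h2 y (hc.1 y rfl) with h3 | h3
      · exact Or.inl (List.isChain_cons_cons.2 ⟨h3, hc2⟩)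
      · exact Or.inr (List.isChain_cons_cons.2 ⟨h3, hc2⟩)
    -- pigeonhole: `b` is the new branch vertex, `r` the other one
    obtain ⟨c, j0, hj0, hc, hcR⟩ := TKFold_pigeon
      (fun c j => List.IsChain G.Adj ((if c then p else q) :: (L i0 j ++ [a j]))) i0 (by
        intro j hj
        simpa using hR j hj)
    obtain ⟨b, r, hb, hbr⟩ : ∃ b r, (b = p ∧ r = q ∨ b = q ∧ r = p) ∧
        ∀ j, j ≠ i0 → j ≠ j0 → List.IsChain G.Adj (b :: (L i0 j ++ [a j])) := by
      rcases hc with rfl | rfl
      · exact ⟨p, q, Or.inl ⟨rfl, rfl⟩, by simpa using hcR⟩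
      · exact ⟨q, p, Or.inr ⟨rfl, rfl⟩, by simpa using hcR⟩
    have hbr' : b ≠ r := by
      rcases hb with ⟨rfl, rfl⟩ | ⟨rfl, rfl⟩
      · exact hpq
      · exact hpq.symm
    have hwb : G.Adj w b := by
      rcases hb with ⟨rfl, rfl⟩ | ⟨rfl, rfl⟩
      · exact hwp
      · exact hwq
    have hwr : G.Adj w r := by
      rcases hb with ⟨rfl, rfl⟩ | ⟨rfl, rfl⟩
      · exact hwq
      · exact hwp
    have hbL : ∀ i j, i ≠ j → b ∉ L i j := by
      rcases hb with ⟨rfl, rfl⟩ | ⟨rfl, rfl⟩
      · exact hpL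
      · exact fun i j hij hh => (o2 i j hij _ hh).2 rfl
    have hrL : ∀ i j, i ≠ j → r ∉ L i j := by
      rcases hb with ⟨rfl, rfl⟩ | ⟨rfl, rfl⟩
      · exact fun i j hij hh => (o2 i j hij _ hh).2 rfl
      · exact hpL
    have hba : ∀ m, m ≠ i0 → b ≠ a m := by
      rcases hb with ⟨rfl, rfl⟩ | ⟨rfl, rfl⟩
      · exact fun m hm hh => hpa m hm hh.symm
      · exact fun m hm hh => (o1 m).2 hh.symm
    have hra : ∀ m, m ≠ i0 → r ≠ a m := by
      rcases hb with ⟨rfl, rfl⟩ | ⟨rfl, rfl⟩
      · exact fun m hm hh => (o1 m).2 hh.symm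
      · exact fun m hm hh => hpa m hm hh.symm
    have hc1 : ∀ i j, i ≠ j → i ≠ i0 → j ≠ i0 →
        List.IsChain G.Adj (a i :: (L i j ++ [a j])) :=
      fun i j hij hi hj => o3 i j hij (hpL i j hij) (hpa i hi) (hpa j hj)
    by_cases hlast : List.IsChain G.Adj (b :: (L i0 j0 ++ [a j0]))
    · exact TKFold_build h hj0.symm b (L i0 j0) hc1 hbr hlast (h.even _ _ hj0.symm)
        (h.nodup _ _ hj0.symm) (hbL _ _ hj0.symm) (fun m _ => h.out _ _ m hj0.symm)
        (fun k l hkl hne x hx => h.disj i0 j0 k l hj0.symm hkl hne.symm x hx) hba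
        (fun i j hij _ => hbL i j hij)
    · have hlast' : List.IsChain G.Adj (r :: (L i0 j0 ++ [a j0])) := by
        rcases hb with ⟨rfl, rfl⟩ | ⟨rfl, rfl⟩
        · exact (hR j0 hj0).resolve_left hlast
        · exact (hR j0 hj0).resolve_right hlast
      refine TKFold_build h hj0.symm b (w :: r :: L i0 j0) hc1 hbr ?_ ?_ ?_ ?_ ?_ ?_ hba
        (fun i j hij _ => hbL i j hij)
      · exact List.isChain_cons_cons.2 ⟨hwb.symm, List.isChain_cons_cons.2 ⟨hwr, hlast'⟩⟩
      · simp only [List.length_cons]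
        obtain ⟨n, hn⟩ := h.even _ _ hj0.symm
        exact ⟨n + 1, by omega⟩
      · refine List.nodup_cons.2 ⟨?_, List.nodup_cons.2 ⟨hrL _ _ hj0.symm, h.nodup _ _ hj0.symm⟩⟩
        rw [List.mem_cons, not_or]
        exact ⟨hwr.ne, fun hh => (o2 _ _ hj0.symm _ hh).1 rfl⟩
      · rw [List.mem_cons, List.mem_cons, not_or, not_or]
        exact ⟨hwb.ne.symm, hbr', hbL _ _ hj0.symm⟩
      · intro m hm
        rw [List.mem_cons, List.mem_cons, not_or, not_or]
        exact ⟨(o1 m).1, (hra m hm).symm, h.out _ _ m hj0.symm⟩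
      · intro k l hkl hne x hx
        rw [List.mem_cons, List.mem_cons] at hx
        rcases hx with rfl | rfl | hx
        · exact fun hh => (o2 _ _ hkl _ hh).1 rfl
        · exact hrL _ _ hkl
        · exact h.disj i0 j0 k l hj0.symm hkl hne.symm x hx
  · -- `p` is no branch vertex
    have hpa : ∀ m, a m ≠ p := fun m hh => hA ⟨m, hh⟩
    by_cases hB : ∃ i j, i ≠ j ∧ p ∈ L i j
    · obtain ⟨i0, j0, h00, hp⟩ := hB
      have hpL : ∀ k l, k ≠ l → s(k, l) ≠ s(i0, j0) → p ∉ L k l :=
        fun k l hkl hne => h.disj i0 j0 k l h00 hkl hne.symm p hp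
      obtain ⟨l1, l2, hl⟩ := List.append_of_mem hp
      have hnd := h.nodup i0 j0 h00
      rw [hl] at hnd
      have hnd' := List.nodup_append.1 hnd
      have hnd2 := List.nodup_cons.1 hnd'.2.1
      have hp1 : p ∉ l1 := fun hh => hnd'.2.2 p hh p List.mem_cons_self rfl
      have hp2 : p ∉ l2 := hnd2.1
      have hl1 : ∀ x ∈ l1, x ∈ L i0 j0 := fun x hx => by
        rw [hl]
        exact List.mem_append_left _ hx
      have hl2 : ∀ x ∈ l2, x ∈ L i0 j0 := fun x hx => by
        rw [hl]
        exact List.mem_append_right _ (List.mem_cons_of_mem _ hx)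
      have hch := h.chain i0 j0 h00
      have hform : a i0 :: (L i0 j0 ++ [a j0]) = (a i0 :: l1) ++ p :: (l2 ++ [a j0]) := by
        rw [hl]
        simp
      rw [hform, List.isChain_split] at hch
      -- left part
      have hleft : ∃ r, (r = p ∨ r = q) ∧ List.IsChain G.Adj ((a i0 :: l1) ++ [r]) := by
        have hcA : List.IsChain G.Adj (a i0 :: l1) := by
          refine TKFold_chain h1 (List.isChain_append.1 hch.1).1 ?_
          rw [List.mem_cons, not_or]
          exact ⟨fun hh => hpa i0 hh.symm, hp1⟩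
        obtain ⟨s, x, hs⟩ : ∃ s x, a i0 :: l1 = s ++ [x] := by
          rcases List.eq_nil_or_concat (a i0 :: l1) with h3 | ⟨s, x, h3⟩
          · exact absurd h3 (List.cons_ne_nil _ _)
          · exact ⟨s, x, by rw [h3, List.concat_eq_append]⟩
        rw [hs] at hcA hch ⊢
        have hxp : G'.Adj p x := by
          have h3 := hch.1
          rw [List.append_assoc, List.singleton_append, List.isChain_split,
            List.isChain_cons_cons] at h3
          exact h3.2.1.symm
        rcases h2 x hxp with h3 | h3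
        · refine ⟨p, Or.inl rfl, ?_⟩
          rw [List.append_assoc, List.singleton_append, List.isChain_split]
          exact ⟨hcA, List.isChain_cons_cons.2 ⟨h3.symm, List.isChain_singleton _⟩⟩
        · refine ⟨q, Or.inr rfl, ?_⟩
          rw [List.append_assoc, List.singleton_append, List.isChain_split]
          exact ⟨hcA, List.isChain_cons_cons.2 ⟨h3.symm, List.isChain_singleton _⟩⟩
      -- right part
      have hright : ∃ r, (r = p ∨ r = q) ∧ List.IsChain G.Adj (r :: (l2 ++ [a j0])) := by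
        have hcB : List.IsChain G.Adj (l2 ++ [a j0]) := by
          refine TKFold_chain h1 (List.isChain_cons.1 hch.2).2 ?_
          simp only [List.mem_append, List.mem_cons, List.not_mem_nil, or_false, not_or]
          exact ⟨hp2, fun hh => hpa j0 hh.symm⟩
        obtain ⟨y, t, hyt⟩ : ∃ y t, l2 ++ [a j0] = y :: t := by
          cases l2 with
          | nil => exact ⟨a j0, [], rfl⟩
          | cons y t => exact ⟨y, t ++ [a j0], rfl⟩
        rw [hyt] at hcB hch ⊢
        rcases h2 y (List.isChain_cons_cons.1 hch.2).1 with h3 | h3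
        · exact ⟨p, Or.inl rfl, List.isChain_cons_cons.2 ⟨h3, hcB⟩⟩
        · exact ⟨q, Or.inr rfl, List.isChain_cons_cons.2 ⟨h3, hcB⟩⟩
      obtain ⟨r, hr, hrc⟩ := hleft
      obtain ⟨s, hs, hsc⟩ := hright
      -- the middle part
      obtain ⟨mid, hm1, hm2, hm3, hm4⟩ : ∃ mid : List V, mid.Nodup ∧ Odd mid.length ∧
          (∀ x ∈ mid, x = p ∨ x = q ∨ x = w) ∧
          List.IsChain G.Adj ((a i0 :: l1) ++ (mid ++ (l2 ++ [a j0]))) := by
        by_cases hrs : r = s
        · subst hrs
          refine ⟨[r], List.nodup_singleton _, odd_one, ?_, ?_⟩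
          · intro x hx
            rw [List.mem_singleton] at hx
            rcases hr with h3 | h3
            · exact Or.inl (hx.trans h3)
            · exact Or.inr (Or.inl (hx.trans h3))
          · rw [List.singleton_append, List.isChain_split]
            exact ⟨hrc, hsc⟩
        · have hwr : G.Adj w r := by
            rcases hr with rfl | rfl
            · exact hwp
            · exact hwq
          have hws : G.Adj w s := by
            rcases hs with rfl | rfl
            · exact hwp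
            · exact hwq
          refine ⟨[r, w, s], ?_, ⟨1, rfl⟩, ?_, ?_⟩
          · have h3 : r ≠ w := hwr.ne.symm
            have h4 : w ≠ s := hws.ne
            simp [h3, h4, hrs]
          · intro x hx
            simp only [List.mem_cons, List.not_mem_nil, or_false] at hx
            rcases hx with rfl | rfl | rfl
            · rcases hr with h3 | h3
              · exact Or.inl h3
              · exact Or.inr (Or.inl h3)
            · exact Or.inr (Or.inr rfl)
            · rcases hs with h3 | h3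
              · exact Or.inl h3
              · exact Or.inr (Or.inl h3)
          · have h5 : ([r, w, s] : List V) ++ (l2 ++ [a j0]) = r :: w :: s :: (l2 ++ [a j0]) := rfl
            rw [h5, List.isChain_split]
            exact ⟨hrc, List.isChain_cons_cons.2 ⟨hwr.symm, List.isChain_cons_cons.2 ⟨hws, hsc⟩⟩⟩
      have hmid : ∀ x ∈ mid, (∀ m, a m ≠ x) ∧ x ∉ l1 ∧ x ∉ l2 ∧
          ∀ k l, k ≠ l → s(k, l) ≠ s(i0, j0) → x ∉ L k l := by
        intro x hx
        rcases hm3 x hx with rfl | rfl | rfl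
        · exact ⟨hpa, hp1, hp2, hpL⟩
        · exact ⟨fun m => (o1 m).2, fun hh => (o2 _ _ h00 _ (hl1 _ hh)).2 rfl,
            fun hh => (o2 _ _ h00 _ (hl2 _ hh)).2 rfl, fun k l hkl _ hh => (o2 _ _ hkl _ hh).2 rfl⟩
        · exact ⟨fun m => (o1 m).1, fun hh => (o2 _ _ h00 _ (hl1 _ hh)).1 rfl,
            fun hh => (o2 _ _ h00 _ (hl2 _ hh)).1 rfl, fun k l hkl _ hh => (o2 _ _ hkl _ hh).1 rfl⟩
      have haM : ∀ m, a m ∉ l1 ++ (mid ++ l2) := by
        intro m hh
        rcases List.mem_append.1 hh with h3 | h3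
        · exact h.out i0 j0 m h00 (hl1 _ h3)
        · rcases List.mem_append.1 h3 with h4 | h4
          · exact (hmid _ h4).1 m rfl
          · exact h.out i0 j0 m h00 (hl2 _ h4)
      refine TKFold_build h h00 (a i0) (l1 ++ (mid ++ l2)) ?_ ?_ ?_ ?_ ?_ (haM i0)
        (fun m _ => haM m) ?_ (fun m hm hh => hm (h.inj hh.symm)) (fun i j hij _ => h.out i j i0 hij)
      · intro i j hij hi hj
        refine o3 i j hij (hpL i j hij fun hh => ?_) (hpa i) (hpa j)
        rcases Sym2.eq_iff.1 hh with h3 | h3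
        · exact hi h3.1
        · exact hj h3.2
      · intro j hj hj'
        refine o3 i0 j hj.symm (hpL i0 j hj.symm fun hh => ?_) (hpa i0) (hpa j)
        rcases Sym2.eq_iff.1 hh with h3 | h3
        · exact hj' h3.2
        · exact hj h3.2
      · have h3 : a i0 :: ((l1 ++ (mid ++ l2)) ++ [a j0]) =
            (a i0 :: l1) ++ (mid ++ (l2 ++ [a j0])) := by simp
        rw [h3]
        exact hm4
      · have h3 := h.even i0 j0 h00
        rw [hl, List.length_append, List.length_cons] at h3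
        rw [List.length_append, List.length_append]
        obtain ⟨u, hu⟩ := h3
        obtain ⟨v, hv⟩ := hm2
        exact ⟨u + v, by omega⟩
      · refine List.nodup_append.2 ⟨hnd'.1, List.nodup_append.2 ⟨hm1, hnd2.2, ?_⟩, ?_⟩
        · intro x hx y hy hxy
          exact (hmid x hx).2.2.1 (hxy ▸ hy)
        · intro x hx y hy hxy
          subst hxy
          rcases List.mem_append.1 hy with h3 | h3
          · exact (hmid x h3).2.1 hx
          · exact hnd'.2.2 x hx x (List.mem_cons_of_mem _ h3) rfl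
      · intro k l hkl hne x hx
        rcases List.mem_append.1 hx with h3 | h3
        · exact h.disj i0 j0 k l h00 hkl hne.symm x (hl1 _ h3)
        · rcases List.mem_append.1 h3 with h4 | h4
          · exact (hmid x h4).2.2.2 k l hkl hne
          · exact h.disj i0 j0 k l h00 hkl hne.symm x (hl2 _ h4)
    · push Not at hB
      exact ⟨a, L, h.inj, h.symm, fun i j hij => o3 i j hij (hB i j hij) (hpa i) (hpa j), h.even,
        h.nodup, h.out, h.disj⟩

end Pool.Agent.TOKST
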