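import Mathlib
import Pool.Agent.TOKST.Fold
import Pool.Agent.TOKST.TKFold

/-!
# Module JFOLD: folds of `JG`

With `G = JG Wh N a b c d`, `G' = JG (Wh.erase w) (fN p q N) (rr p q a) (rr p q b) (rr p q c) (rr p q d)` check the hypotheses of `TK_fold`: `w ∉ NN N Wh` (`hWN`), `w ≠` the ends of the links, `p, q ∈ N w`.
`h0`: the elements of `fN p q N u` and the `rr p q x` are `≠ q` (`rr_ne`), `q ∉ Wh`; `h1`, `h2`: `rr p q x = y`, `y ≠ p` implies `x = y`; `rr p q x = p` implies `x = p ∨ x = q`.  (`SimpleGraph.fromRel_adj`)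
-/

set_option autoImplicit false
set_option linter.unusedSectionVars false

namespace Pool.Agent.TOKST

variable {V : Type} [DecidableEq V]

private theorem JFold_adj {Wh : Finset V} {N : V → Finset V} {a b c d u v : V} :
    (JG Wh N a b c d).Adj u v ↔ u ≠ v ∧
      (((u ∈ Wh ∧ v ∈ N u) ∨ (u = a ∧ v = b) ∨ (u = c ∧ v = d)) ∨
        ((v ∈ Wh ∧ u ∈ N v) ∨ (v = a ∧ u = b) ∨ (v = c ∧ u = d))) := by
  unfold JG
  rw [SimpleGraph.fromRel_adj]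

private theorem JFold_rr_eq {p q x : V} (h : rr p q x = p) : x = p ∨ x = q := by
  by_cases hx : x = q
  · exact Or.inr hx
  · rw [rr_of_ne hx] at h
    exact Or.inl h

private theorem JFold_rr_ne {p q x : V} (h : rr p q x ≠ p) : rr p q x = x := by
  by_cases hx : x = q
  · rw [hx, rr_self] at h
    exact absurd rfl h
  · exact rr_of_ne hx

theorem JG_fold {Wh : Finset V} {N : V → Finset V} {a b c d w p q : V} (hpq : p ≠ q)
    (hw : w ∈ Wh) (hp : p ∈ N w) (hq : q ∈ N w) (hWN : ∀ x ∈ Wh, x ∉ NN N Wh)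
    (ha : a ∈ NN N Wh) (hb : b ∈ NN N Wh) (hc : c ∈ NN N Wh) (hd : d ∈ NN N Wh)
    (h : TK (JG (Wh.erase w) (fN p q N) (rr p q a) (rr p q b) (rr p q c) (rr p q d))) :
    TK (JG Wh N a b c d) := by
  have hpN : p ∈ NN N Wh := N_subset_NN hw hp
  have hqN : q ∈ NN N Wh := N_subset_NN hw hq
  have hwN : w ∉ NN N Wh := hWN w hw
  have hrN : ∀ x, x ∈ NN N Wh → rr p q x ∈ NN N Wh := by
    intro x hx
    by_cases hxq : x = q
    · rw [hxq, rr_self]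
      exact hpN
    · rw [rr_of_ne hxq]
      exact hx
  have hrw : ∀ x, x ∈ NN N Wh → rr p q x ≠ w := fun x hx h => hwN (h ▸ hrN x hx)
  have hfN : ∀ u v, u ∈ Wh.erase w → v ∈ fN p q N u → ∃ x ∈ N u, rr p q x = v := by
    intro u v _ hv
    unfold fN at hv
    obtain ⟨x, hx, rfl⟩ := Finset.mem_image.1 hv
    exact ⟨x, hx, rfl⟩
  have hWsub : ∀ u, u ∈ Wh.erase w → u ∈ Wh := fun u hu => Finset.mem_of_mem_erase hu
  refine TK_fold (w := w) (p := p) (q := q) ?_ ?_ hpq ?_ ?_ ?_ h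
  · rw [JFold_adj]
    exact ⟨fun h => hwN (h ▸ hpN), Or.inl (Or.inl ⟨hw, hp⟩)⟩
  · rw [JFold_adj]
    exact ⟨fun h => hwN (h ▸ hqN), Or.inl (Or.inl ⟨hw, hq⟩)⟩
  · intro u v huv
    rw [JFold_adj] at huv
    obtain ⟨-, (⟨h1, -⟩ | ⟨h1, -⟩ | ⟨h1, -⟩) | (⟨h1, h2⟩ | ⟨-, h1⟩ | ⟨-, h1⟩)⟩ := huv
    · exact ⟨Finset.ne_of_mem_erase h1, fun h => hWN u (hWsub u h1) (h ▸ hqN)⟩
    · rw [h1]; exact ⟨hrw a ha, rr_ne hpq a⟩
    · rw [h1]; exact ⟨hrw c hc, rr_ne hpq c⟩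
    · obtain ⟨x, hx, rfl⟩ := hfN v u h1 h2
      exact ⟨hrw x (N_subset_NN (hWsub v h1) hx), rr_ne hpq x⟩
    · rw [h1]; exact ⟨hrw b hb, rr_ne hpq b⟩
    · rw [h1]; exact ⟨hrw d hd, rr_ne hpq d⟩
  · intro u v huv hup hvp
    rw [JFold_adj] at huv ⊢
    obtain ⟨hne, (⟨h1, h2⟩ | ⟨h1, h2⟩ | ⟨h1, h2⟩) | (⟨h1, h2⟩ | ⟨h1, h2⟩ | ⟨h1, h2⟩)⟩ := huv
    · obtain ⟨x, hx, rfl⟩ := hfN u v h1 h2
      refine ⟨hne, Or.inl (Or.inl ⟨hWsub u h1, ?_⟩)⟩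
      rw [JFold_rr_ne hvp]
      exact hx
    · refine ⟨hne, Or.inl (Or.inr (Or.inl ⟨?_, ?_⟩))⟩
      · rw [h1] at hup ⊢
        exact JFold_rr_ne hup
      · rw [h2] at hvp ⊢
        exact JFold_rr_ne hvp
    · refine ⟨hne, Or.inl (Or.inr (Or.inr ⟨?_, ?_⟩))⟩
      · rw [h1] at hup ⊢
        exact JFold_rr_ne hup
      · rw [h2] at hvp ⊢
        exact JFold_rr_ne hvp
    · obtain ⟨x, hx, rfl⟩ := hfN v u h1 h2
      refine ⟨hne, Or.inr (Or.inl ⟨hWsub v h1, ?_⟩)⟩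
      rw [JFold_rr_ne hup]
      exact hx
    · refine ⟨hne, Or.inr (Or.inr (Or.inl ⟨?_, ?_⟩))⟩
      · rw [h1] at hvp ⊢
        exact JFold_rr_ne hvp
      · rw [h2] at hup ⊢
        exact JFold_rr_ne hup
    · refine ⟨hne, Or.inr (Or.inr (Or.inr ⟨?_, ?_⟩))⟩
      · rw [h1] at hvp ⊢
        exact JFold_rr_ne hvp
      · rw [h2] at hup ⊢
        exact JFold_rr_ne hup
  · intro v hpv
    rw [JFold_adj] at hpv
    rw [JFold_adj, JFold_adj]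
    obtain ⟨hne, (⟨h1, h2⟩ | ⟨h1, h2⟩ | ⟨h1, h2⟩) | (⟨h1, h2⟩ | ⟨h1, h2⟩ | ⟨h1, h2⟩)⟩ := hpv
    · exact absurd hpN (hWN p (hWsub p h1))
    · have h3 : v = b := by
        rw [h2] at hne ⊢
        exact JFold_rr_ne (Ne.symm hne)
      have hvq : q ≠ v := by
        rw [h2]; exact Ne.symm (rr_ne hpq b)
      rcases JFold_rr_eq h1.symm with h4 | h4
      · exact Or.inl ⟨hne, Or.inl (Or.inr (Or.inl ⟨h4.symm, h3⟩))⟩
      · exact Or.inr ⟨hvq, Or.inl (Or.inr (Or.inl ⟨h4.symm, h3⟩))⟩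
    · have h3 : v = d := by
        rw [h2] at hne ⊢
        exact JFold_rr_ne (Ne.symm hne)
      have hvq : q ≠ v := by
        rw [h2]; exact Ne.symm (rr_ne hpq d)
      rcases JFold_rr_eq h1.symm with h4 | h4
      · exact Or.inl ⟨hne, Or.inl (Or.inr (Or.inr ⟨h4.symm, h3⟩))⟩
      · exact Or.inr ⟨hvq, Or.inl (Or.inr (Or.inr ⟨h4.symm, h3⟩))⟩
    · obtain ⟨x, hx, hxp⟩ := hfN v p h1 h2
      have hvW : v ∈ Wh := hWsub v h1
      rcases JFold_rr_eq hxp with h4 | h4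
      · exact Or.inl ⟨hne, Or.inr (Or.inl ⟨hvW, h4 ▸ hx⟩)⟩
      · refine Or.inr ⟨fun h => hWN v hvW (h ▸ hqN), Or.inr (Or.inl ⟨hvW, h4 ▸ hx⟩)⟩
    · have h3 : v = a := by
        rw [h1] at hne ⊢
        exact JFold_rr_ne (Ne.symm hne)
      have hvq : q ≠ v := by
        rw [h1]; exact Ne.symm (rr_ne hpq a)
      rcases JFold_rr_eq h2.symm with h4 | h4
      · exact Or.inl ⟨hne, Or.inr (Or.inr (Or.inl ⟨h3, h4.symm⟩))⟩
      · exact Or.inr ⟨hvq, Or.inr (Or.inr (Or.inl ⟨h3, h4.symm⟩))⟩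
    · have h3 : v = c := by
        rw [h1] at hne ⊢
        exact JFold_rr_ne (Ne.symm hne)
      have hvq : q ≠ v := by
        rw [h1]; exact Ne.symm (rr_ne hpq c)
      rcases JFold_rr_eq h2.symm with h4 | h4
      · exact Or.inl ⟨hne, Or.inr (Or.inr (Or.inr ⟨h3, h4.symm⟩))⟩
      · exact Or.inr ⟨hvq, Or.inr (Or.inr (Or.inr ⟨h3, h4.symm⟩))⟩

end Pool.Agent.TOKST
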