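import Mathlib
import Pool.Agent.TOKST.Base

/-!
# Module EXA: Lemma EX, case (2a): the complement of a maximal tight set is tight

Paper proof.  `R = W \ Y`.  `|N(R) ∩ N(Y)| = 3` (`disj_card_three`, `Y ∪ R = W` is tight).  The pairs of `PA R N` inside `N(Y)` are 2-subsets of
`N(R) ∩ N(Y)`: at most `3` of them.  So some `e ∈ PA R N` (`Adm R N w e`) is not inside `NN N Y`.  Then `Adm W N w e`: let `U` be tight in `W`, `e ⊆ NN N U`.
If `U ∩ Y` is nonempty: `U ⊆ Y` is impossible (`e ⊄ NN N Y`), `U ∪ Y` is tight (`uncross`) and `≠ Y`, so `U ∪ Y = W` by `hmax`, so `R ⊆ U`, `w ∈ U`.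
If `U ∩ Y = ∅`: `U ⊆ R` is tight in `R`, so `w ∈ U`.
-/

set_option autoImplicit false
set_option linter.unusedSectionVars false

namespace Pool.Agent.TOKST

variable {ι α : Type} [DecidableEq ι] [DecidableEq α] {W : Finset ι} {N : ι → Finset α}

theorem ex_of_tight_compl (h : Rigid W N) {Y : Finset ι} (hY : Tight W N Y) (hYW : Y ≠ W)
    (hmax : ∀ Z, Tight W N Z → Z ≠ W → Y ⊆ Z → Z = Y) (hR : Tight W N (W \ Y))
    (h6 : 6 ≤ (PA (W \ Y) N).card) : (PA W N).Nonempty := by
  have hRne : (W \ Y).Nonempty := hR.ne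
  have hWne : W.Nonempty := hRne.mono Finset.sdiff_subset
  have hU : (W \ Y) ∪ Y = W := Finset.sdiff_union_of_subset hY.sub
  have hd : Disjoint (W \ Y) Y := Finset.sdiff_disjoint
  have h3 : (NN N (W \ Y) ∩ NN N Y).card = 3 :=
    disj_card_three hR hY hd (by rw [hU]; exact h.all hWne)
  -- a pair of `PA R N` which is not inside `N(Y)`
  obtain ⟨e, he, heY⟩ : ∃ e ∈ PA (W \ Y) N, ¬ e ⊆ NN N Y := by
    by_contra hc
    push Not at hc
    have hsub : PA (W \ Y) N ⊆ (NN N (W \ Y) ∩ NN N Y).powersetCard 2 := by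
      intro e he
      obtain ⟨w, hw⟩ := mem_PA.1 he
      exact Finset.mem_powersetCard.2
        ⟨Finset.subset_inter (hw.2.2.1.trans (N_subset_NN hw.1)) (hc e he), hw.2.1⟩
    have hle := Finset.card_le_card hsub
    rw [Finset.card_powersetCard, h3] at hle
    have h33 : Nat.choose 3 2 = 3 := by decide
    omega
  obtain ⟨w, hw⟩ := mem_PA.1 he
  refine ⟨e, mem_PA.2 ⟨w, Finset.sdiff_subset hw.1, hw.2.1, hw.2.2.1, fun U hUt heU => ?_⟩⟩
  by_cases hne : (U ∩ Y).Nonempty
  · have hUY := (uncross h.sur hUt hY hne).1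
    have hneq : U ∪ Y = W := by
      by_contra hc
      have h1 := hmax _ hUY hc Finset.subset_union_right
      have h2 : U ⊆ Y := by
        rw [← h1]
        exact Finset.subset_union_left
      exact heY (heU.trans (NN_mono h2))
    have hwW : w ∈ U ∪ Y := by
      rw [hneq]
      exact Finset.sdiff_subset hw.1
    rcases Finset.mem_union.1 hwW with h1 | h1
    · exact h1
    · exact absurd h1 (Finset.mem_sdiff.1 hw.1).2
  · have hdisj : Disjoint U Y := by
      rw [Finset.disjoint_iff_inter_eq_empty]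
      exact Finset.not_nonempty_iff_eq_empty.1 hne
    have hUR : U ⊆ W \ Y := fun x hx => Finset.mem_sdiff.2
      ⟨hUt.sub hx, fun hxY => Finset.disjoint_left.1 hdisj hx hxY⟩
    exact hw.2.2.2 U (hUt.mono hUR) heU

end Pool.Agent.TOKST
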