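import Mathlib
import Pool.Agent.TOKST.Defs

/-!
# Module COUNT: the counting argument of Lemma EX (2b)

`count_identity`: sum over `i ∈ J` of `|B i|` = sum over `a` of `d_J(a) = #{i ∈ J | a ∈ B i}` (double counting,
`Finset.sum_comm` / `Finset.sum_card_bipartiteAbove_eq_sum_card_bipartiteBelow`), and `d_J(a) ≥ 1` on `J.biUnion B`.

`count_false`.  Paper proof (`d(a) = #{i ∈ I | a ∈ B i}`, `l + 1 = |I|`, `Pr i` = the filtered set in (P)):
 `12 |I| ≤ ∑_i 2 |Pr i| = ∑_i ∑_{e ∈ Pr i} |e| = ∑_a ∑_i #{e ∈ Pr i | a ∈ e}` (only `a` with `d(a) ≥ 2` contribute, since `e = B i ∩ B j`).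
 Fix `a` with `d(a) ≥ 2`, `J = J_a = {i ∈ I | a ∈ B i}`.  `#{e ∈ Pr i | a ∈ e} ≤ #{b ≠ a | ∃ j ∈ I, j ≠ i, B i ∩ B j = {a, b}}` (`e = {a, b}`), and with
 `D_ab = {i ∈ I | a ∈ B i ∧ b ∈ B i} = {i ∈ J | b ∈ B i}`: the sum over `i` is `≤ ∑_{b ≠ a, |D_ab| ≥ 2} |D_ab| ≤ 2 ∑_{b ≠ a} (|D_ab| - 1)`.
 The sum over all `b ∈ J.biUnion B` (the term `b = a` is `|J| - 1`) of `|D_ab| - 1` is `≤ 3|J| - 4` if `|J| < |I|` (S1), so without `a`: `≤ 2|J| - 3`, and it is
 `≤ 3|I| - 3` if `J = I` (S2), so without `a`: `≤ 2|I| - 2`.  In both cases `∑_i #{e ∈ Pr i | a ∈ e} ≤ 4 (d(a) - 1)`.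
 Summing over `a`: `12 |I| ≤ 4 ∑_a (d(a) - 1) ≤ 4 (3 |I| - 3)`, contradiction.
-/

set_option autoImplicit false
set_option linter.unusedSectionVars false

namespace Pool.Agent.TOKST

variable {κ α : Type} [DecidableEq κ] [DecidableEq α]

theorem count_identity (J : Finset κ) (B : κ → Finset α) :
    ∑ i ∈ J, (B i).card =
      (J.biUnion B).card + ∑ a ∈ J.biUnion B, ((J.filter fun i => a ∈ B i).card - 1) := by
  have h1 : ∀ i ∈ J, (B i).card = ∑ a ∈ J.biUnion B, (if a ∈ B i then 1 else 0) := by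
    intro i hi
    rw [← Finset.card_filter]
    congr 1
    ext a
    simp only [Finset.mem_filter, Finset.mem_biUnion]
    exact ⟨fun h => ⟨⟨i, hi, h⟩, h⟩, fun h => h.2⟩
  rw [Finset.sum_congr rfl h1, Finset.sum_comm, Finset.card_eq_sum_ones, ← Finset.sum_add_distrib]
  refine Finset.sum_congr rfl ?_
  intro a ha
  rw [← Finset.card_filter]
  have h2 : 0 < (J.filter fun i => a ∈ B i).card := by
    rw [Finset.mem_biUnion] at ha
    obtain ⟨i, hi, hai⟩ := ha
    exact Finset.card_pos.2 ⟨i, Finset.mem_filter.2 ⟨hi, hai⟩⟩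
  omega

/-- The bound for one element `a`. -/
theorem count_local (I : Finset κ) (B : κ → Finset α)
    (S1 : ∀ J, J ⊆ I → 2 ≤ J.card → J.card < I.card →
      ∑ a ∈ J.biUnion B, ((J.filter fun i => a ∈ B i).card - 1) + 4 ≤ 3 * J.card)
    (S2 : ∑ a ∈ I.biUnion B, ((I.filter fun i => a ∈ B i).card - 1) + 3 ≤ 3 * I.card)
    (a : α) (ha : a ∈ I.biUnion B) :
    ∑ b ∈ ((I.filter fun i => a ∈ B i).biUnion B).erase a,
      (((I.filter fun i => a ∈ B i).filter fun i => b ∈ B i).card - 1) ≤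
      2 * ((I.filter fun i => a ∈ B i).card - 1) := by
  set J := I.filter fun i => a ∈ B i with hJ
  have hJI : J ⊆ I := Finset.filter_subset _ _
  have hJ1 : 0 < J.card := by
    rw [Finset.mem_biUnion] at ha
    obtain ⟨i, hi, hai⟩ := ha
    exact Finset.card_pos.2 ⟨i, Finset.mem_filter.2 ⟨hi, hai⟩⟩
  have haJ : a ∈ J.biUnion B := by
    obtain ⟨i, hi⟩ := Finset.card_pos.1 hJ1
    exact Finset.mem_biUnion.2 ⟨i, hi, (Finset.mem_filter.1 hi).2⟩
  have hself : (J.filter fun i => a ∈ B i) = J := by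
    refine Finset.filter_true_of_mem ?_
    intro i hi
    exact (Finset.mem_filter.1 hi).2
  have hsum : ∑ b ∈ J.biUnion B, ((J.filter fun i => b ∈ B i).card - 1) =
      (J.card - 1) + ∑ b ∈ (J.biUnion B).erase a, ((J.filter fun i => b ∈ B i).card - 1) := by
    rw [← Finset.add_sum_erase _ _ haJ, hself]
  rcases Nat.lt_or_ge J.card 2 with h | h
  · have h0 : ∑ b ∈ (J.biUnion B).erase a, ((J.filter fun i => b ∈ B i).card - 1) = 0 := by
      refine Finset.sum_eq_zero ?_
      intro b _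
      have := Finset.card_le_card (Finset.filter_subset (fun i => b ∈ B i) J)
      omega
    omega
  · rcases Nat.lt_or_ge J.card I.card with h' | h'
    · have := S1 J hJI h h'
      omega
    · have hJe : J = I := Finset.eq_of_subset_of_card_le hJI h'
      have h3 : ∑ b ∈ J.biUnion B, ((J.filter fun i => b ∈ B i).card - 1) + 3 ≤ 3 * J.card := by
        rw [hJe]; exact S2
      omega

theorem count_pairs (I : Finset κ) (B : κ → Finset α) (i : κ) (hi : i ∈ I) (a : α)
    (hai : a ∈ B i) :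
    ((((B i).powersetCard 2).filter
      fun e => ∃ j ∈ I, j ≠ i ∧ B i ∩ B j = e).filter fun e => a ∈ e).card ≤
    (((((I.filter fun i => a ∈ B i).biUnion B).erase a).filter
      fun b => 2 ≤ ((I.filter fun i => a ∈ B i).filter fun i => b ∈ B i).card).filter
        fun b => b ∈ B i).card := by
  have hsub : ((((B i).powersetCard 2).filter
      fun e => ∃ j ∈ I, j ≠ i ∧ B i ∩ B j = e).filter fun e => a ∈ e) ⊆
      ((((((I.filter fun i => a ∈ B i).biUnion B).erase a).filter
      fun b => 2 ≤ ((I.filter fun i => a ∈ B i).filter fun i => b ∈ B i).card).filter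
        fun b => b ∈ B i).image fun b => {a, b}) := by
    intro e he
    simp only [Finset.mem_filter, Finset.mem_powersetCard] at he
    obtain ⟨⟨⟨heB, he2⟩, j, hj, hji, hije⟩, hae⟩ := he
    obtain ⟨b, hb⟩ : ∃ b, e.erase a = {b} := by
      rw [← Finset.card_eq_one, Finset.card_erase_of_mem hae, he2]
    have hbe : b ∈ e.erase a := by rw [hb]; exact Finset.mem_singleton_self b
    have hba : b ≠ a := (Finset.mem_erase.1 hbe).1
    have hbe' : b ∈ e := (Finset.mem_erase.1 hbe).2
    have hbi : b ∈ B i := heB hbe'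
    have hbj : b ∈ B j := by
      rw [← hije] at hbe'; exact (Finset.mem_inter.1 hbe').2
    have haj : a ∈ B j := by
      rw [← hije] at hae; exact (Finset.mem_inter.1 hae).2
    rw [Finset.mem_image]
    refine ⟨b, ?_, ?_⟩
    · simp only [Finset.mem_filter, Finset.mem_erase, Finset.mem_biUnion]
      refine ⟨⟨⟨hba, i, ⟨hi, hai⟩, hbi⟩, ?_⟩, hbi⟩
      have hlt : 1 < ((I.filter fun i => a ∈ B i).filter fun i => b ∈ B i).card := by
        rw [Finset.one_lt_card]
        refine ⟨i, ?_, j, ?_, fun h => hji h.symm⟩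
        · exact Finset.mem_filter.2 ⟨Finset.mem_filter.2 ⟨hi, hai⟩, hbi⟩
        · exact Finset.mem_filter.2 ⟨Finset.mem_filter.2 ⟨hj, haj⟩, hbj⟩
      exact hlt
    · rw [← Finset.insert_erase hae, hb]
  exact (Finset.card_le_card hsub).trans Finset.card_image_le

theorem count_false (I : Finset κ) (B : κ → Finset α) (hI : 3 ≤ I.card)
    (S1 : ∀ J, J ⊆ I → 2 ≤ J.card → J.card < I.card →
      ∑ a ∈ J.biUnion B, ((J.filter fun i => a ∈ B i).card - 1) + 4 ≤ 3 * J.card)
    (S2 : ∑ a ∈ I.biUnion B, ((I.filter fun i => a ∈ B i).card - 1) + 3 ≤ 3 * I.card)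
    (P : ∀ i ∈ I, 6 ≤ (((B i).powersetCard 2).filter
      fun e => ∃ j ∈ I, j ≠ i ∧ B i ∩ B j = e).card) : False := by
  -- the set of pairs at `i`
  let Pr : κ → Finset (Finset α) := fun i =>
    ((B i).powersetCard 2).filter fun e => ∃ j ∈ I, j ≠ i ∧ B i ∩ B j = e
  have hPr : ∀ i ∈ I, 12 ≤ ∑ a ∈ I.biUnion B,
      if a ∈ B i then ((Pr i).filter fun e => a ∈ e).card else 0 := by
    intro i hi
    have h1 : ∑ a ∈ I.biUnion B, (if a ∈ B i then ((Pr i).filter fun e => a ∈ e).card else 0) =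
        ∑ e ∈ Pr i, e.card := by
      have h2 : ∀ a ∈ I.biUnion B,
          (if a ∈ B i then ((Pr i).filter fun e => a ∈ e).card else 0) =
          ∑ e ∈ Pr i, if a ∈ e then 1 else 0 := by
        intro a _
        rw [← Finset.card_filter]
        split_ifs with h
        · rfl
        · symm
          rw [Finset.card_eq_zero, Finset.filter_eq_empty_iff]
          intro e he hae
          have he' := Finset.mem_filter.1 he
          exact h ((Finset.mem_powersetCard.1 he'.1).1 hae)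
      rw [Finset.sum_congr rfl h2, Finset.sum_comm]
      refine Finset.sum_congr rfl ?_
      intro e he
      rw [← Finset.card_filter]
      congr 1
      ext a
      simp only [Finset.mem_filter, Finset.mem_biUnion]
      refine ⟨fun h => h.2, fun h => ⟨⟨i, hi, ?_⟩, h⟩⟩
      exact (Finset.mem_powersetCard.1 (Finset.mem_filter.1 he).1).1 h
    have h3 : ∑ e ∈ Pr i, e.card = ∑ e ∈ Pr i, 2 := by
      refine Finset.sum_congr rfl ?_
      intro e he
      exact (Finset.mem_powersetCard.1 (Finset.mem_filter.1 he).1).2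
    rw [h1, h3, Finset.sum_const, smul_eq_mul]
    have := P i hi
    have h6 : 6 ≤ (Pr i).card := this
    omega
  have hA : 12 * I.card ≤ ∑ i ∈ I, ∑ a ∈ I.biUnion B,
      if a ∈ B i then ((Pr i).filter fun e => a ∈ e).card else 0 := by
    calc 12 * I.card = ∑ i ∈ I, 12 := by rw [Finset.sum_const, smul_eq_mul, mul_comm]
      _ ≤ _ := Finset.sum_le_sum hPr
  rw [Finset.sum_comm] at hA
  have hB : ∀ a ∈ I.biUnion B, (∑ i ∈ I,
      if a ∈ B i then ((Pr i).filter fun e => a ∈ e).card else 0) ≤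
      4 * ((I.filter fun i => a ∈ B i).card - 1) := by
    intro a ha
    set J := I.filter fun i => a ∈ B i with hJ
    set T := ((J.biUnion B).erase a).filter
      fun b => 2 ≤ (J.filter fun i => b ∈ B i).card with hT
    rw [← Finset.sum_filter]
    have h1 : ∑ i ∈ J, ((Pr i).filter fun e => a ∈ e).card ≤
        ∑ i ∈ J, (T.filter fun b => b ∈ B i).card := by
      refine Finset.sum_le_sum ?_
      intro i hi
      have hi' := Finset.mem_filter.1 hi
      exact count_pairs I B i hi'.1 a hi'.2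
    have h2 : ∑ i ∈ J, (T.filter fun b => b ∈ B i).card =
        ∑ b ∈ T, (J.filter fun i => b ∈ B i).card := by
      have e1 : ∀ i ∈ J, (T.filter fun b => b ∈ B i).card =
          ∑ b ∈ T, if b ∈ B i then 1 else 0 := fun i _ => Finset.card_filter _ _
      have e2 : ∀ b ∈ T, (J.filter fun i => b ∈ B i).card =
          ∑ i ∈ J, if b ∈ B i then 1 else 0 := fun b _ => Finset.card_filter _ _
      rw [Finset.sum_congr rfl e1, Finset.sum_congr rfl e2, Finset.sum_comm]
    have h3 : ∑ b ∈ T, (J.filter fun i => b ∈ B i).card ≤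
        ∑ b ∈ T, 2 * ((J.filter fun i => b ∈ B i).card - 1) := by
      refine Finset.sum_le_sum ?_
      intro b hb
      have := (Finset.mem_filter.1 hb).2
      omega
    have h4 : ∑ b ∈ T, 2 * ((J.filter fun i => b ∈ B i).card - 1) ≤
        ∑ b ∈ (J.biUnion B).erase a, 2 * ((J.filter fun i => b ∈ B i).card - 1) := by
      refine Finset.sum_le_sum_of_subset ?_
      exact Finset.filter_subset _ _
    have h4' : ∑ b ∈ (J.biUnion B).erase a, 2 * ((J.filter fun i => b ∈ B i).card - 1) =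
        2 * ∑ b ∈ (J.biUnion B).erase a, ((J.filter fun i => b ∈ B i).card - 1) :=
      (Finset.mul_sum _ _ _).symm
    have h5 : ∑ b ∈ (J.biUnion B).erase a, ((J.filter fun i => b ∈ B i).card - 1) ≤
        2 * (J.card - 1) := count_local I B S1 S2 a ha
    calc (∑ i ∈ J, ((Pr i).filter fun e => a ∈ e).card)
        ≤ ∑ b ∈ T, (J.filter fun i => b ∈ B i).card := h1.trans (le_of_eq h2)
      _ ≤ 2 * ∑ b ∈ (J.biUnion B).erase a, ((J.filter fun i => b ∈ B i).card - 1) :=
          (h3.trans h4).trans (le_of_eq h4')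
      _ ≤ 4 * (J.card - 1) := by omega
  have hC := hA.trans (Finset.sum_le_sum hB)
  rw [← Finset.mul_sum] at hC
  omega

end Pool.Agent.TOKST
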