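import Mathlib
import Pool.Agent.TOKST.Base
import Pool.Agent.TOKST.Count

/-!
# Module EXB: Lemma EX, case (2b): the complement of a maximal tight set is not tight
-/

set_option autoImplicit false
set_option linter.unusedSectionVars false

namespace Pool.Agent.TOKST

variable {ι α : Type} [DecidableEq ι] [DecidableEq α] {W : Finset ι} {N : ι → Finset α}

/-- a union of tight sets with a common element is tight -/
theorem tight_biUnion (hS : Sur W N) (w : ι) (F : Finset (Finset ι)) (hF : F.Nonempty)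
    (h : ∀ Z ∈ F, Tight W N Z ∧ w ∈ Z) : Tight W N (F.biUnion id) := by
  induction hF using Finset.Nonempty.cons_induction with
  | singleton Z =>
    rw [Finset.singleton_biUnion]
    exact (h Z (Finset.mem_singleton_self Z)).1
  | cons Z F hZ hF ih =>
    have h1 := ih fun Z' hZ' => h Z' (Finset.mem_cons_of_mem hZ')
    have h2 := h Z (Finset.mem_cons_self _ _)
    rw [Finset.cons_eq_insert, Finset.biUnion_insert]
    refine (uncross hS h2.1 h1 ⟨w, Finset.mem_inter.2 ⟨h2.2, ?_⟩⟩).1
    obtain ⟨Z', hZ'⟩ := hF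
    exact Finset.mem_biUnion.2 ⟨Z', hZ', (h Z' (Finset.mem_cons_of_mem hZ')).2⟩

open Classical in
/-- the largest tight subset of `R` containing `w` -/
noncomputable def mxT (W : Finset ι) (N : ι → Finset α) (R : Finset ι) (w : ι) : Finset ι :=
  (R.powerset.filter fun Z => Tight W N Z ∧ w ∈ Z).biUnion id

section Mx

variable {R : Finset ι} (h : Rigid W N) (hRW : R ⊆ W)

include h hRW

theorem mxT_tight {w : ι} (hw : w ∈ R) : Tight W N (mxT W N R w) := by
  classical
  unfold mxT
  refine tight_biUnion h.sur w _ ⟨{w}, ?_⟩ fun Z hZ => (Finset.mem_filter.1 hZ).2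
  exact Finset.mem_filter.2 ⟨Finset.mem_powerset.2 (Finset.singleton_subset_iff.2 hw),
    h.single (hRW hw), Finset.mem_singleton_self w⟩

theorem mxT_mem {w : ι} (hw : w ∈ R) : w ∈ mxT W N R w := by
  classical
  unfold mxT
  refine Finset.mem_biUnion.2 ⟨{w}, ?_, Finset.mem_singleton_self w⟩
  exact Finset.mem_filter.2 ⟨Finset.mem_powerset.2 (Finset.singleton_subset_iff.2 hw),
    h.single (hRW hw), Finset.mem_singleton_self w⟩

omit h hRW in
theorem mxT_sub (w : ι) : mxT W N R w ⊆ R := by
  classical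
  unfold mxT
  intro x hx
  obtain ⟨Z, hZ, hxZ⟩ := Finset.mem_biUnion.1 hx
  exact Finset.mem_powerset.1 (Finset.mem_filter.1 hZ).1 hxZ

omit h hRW in
theorem mxT_max {w : ι} {Z : Finset ι} (hZ : Tight W N Z) (hZR : Z ⊆ R) (hw : w ∈ Z) :
    Z ⊆ mxT W N R w := by
  classical
  unfold mxT
  intro x hx
  exact Finset.mem_biUnion.2 ⟨Z, Finset.mem_filter.2 ⟨Finset.mem_powerset.2 hZR, hZ, hw⟩, hx⟩

theorem mxT_eq {w w' : ι} (hw : w ∈ R) (hw' : w' ∈ R)
    (hne : (mxT W N R w ∩ mxT W N R w').Nonempty) : mxT W N R w = mxT W N R w' := by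
  have h1 := (uncross h.sur (mxT_tight h hRW hw) (mxT_tight h hRW hw') hne).1
  have h2 : mxT W N R w ∪ mxT W N R w' ⊆ R := Finset.union_subset (mxT_sub w) (mxT_sub w')
  have h3 := mxT_max h1 h2 (w := w) (Finset.mem_union_left _ (mxT_mem h hRW hw))
  have h4 := mxT_max h1 h2 (w := w') (Finset.mem_union_right _ (mxT_mem h hRW hw'))
  apply Finset.Subset.antisymm
  · exact Finset.subset_union_left.trans h4
  · exact Finset.subset_union_right.trans h3

end Mx

theorem ex_of_not_tight (h : Rigid W N) {Y : Finset ι} (hY : Tight W N Y) (hYW : Y ≠ W)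
    (hmax : ∀ Z, Tight W N Z → Z ≠ W → Y ⊆ Z → Z = Y) (hR : ¬ Tight W N (W \ Y))
    (hrec : ∀ Z, Tight W N Z → Z ≠ W → 6 ≤ (PA Z N).card) : (PA W N).Nonempty := by
  classical
  by_contra hemp
  rw [Finset.not_nonempty_iff_eq_empty] at hemp
  set R := W \ Y with hRdef
  have hRW : R ⊆ W := Finset.sdiff_subset
  have hRne : R.Nonempty := by
    rw [Finset.nonempty_iff_ne_empty]
    intro h0
    exact hYW (Finset.Subset.antisymm hY.sub (Finset.sdiff_eq_empty_iff_subset.1 h0))
  have hYR : Disjoint Y R := Finset.disjoint_sdiff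
  set V : ι → Finset ι := mxT W N R with hV
  set I : Finset (Finset ι) := insert Y (R.image V) with hI
  have hmemI : ∀ {Z}, Z ∈ I ↔ Z = Y ∨ ∃ r ∈ R, V r = Z := by
    intro Z
    rw [hI, Finset.mem_insert, Finset.mem_image]
  have hYI : Y ∈ I := hmemI.2 (Or.inl rfl)
  have hVI : ∀ r ∈ R, V r ∈ I := fun r hr => hmemI.2 (Or.inr ⟨r, hr, rfl⟩)
  have htight : ∀ Z ∈ I, Tight W N Z := by
    intro Z hZ
    rcases hmemI.1 hZ with rfl | ⟨r, hr, rfl⟩
    · exact hY
    · exact mxT_tight h hRW hr
  have hVY : ∀ r ∈ R, V r ≠ Y := by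
    intro r hr h1
    have h2 : r ∈ V r := mxT_mem h hRW hr
    rw [h1] at h2
    exact Finset.disjoint_left.1 hYR h2 hr
  have hneW : ∀ Z ∈ I, Z ≠ W := by
    intro Z hZ
    rcases hmemI.1 hZ with rfl | ⟨r, hr, rfl⟩
    · exact hYW
    · intro h1
      obtain ⟨y, hy⟩ := hY.ne
      have h2 : y ∈ V r := h1 ▸ hY.sub hy
      exact Finset.disjoint_left.1 hYR hy (mxT_sub r h2)
  have hdisj : ∀ Z ∈ I, ∀ Z' ∈ I, Z ≠ Z' → Disjoint Z Z' := by
    intro Z hZ Z' hZ' hne
    rcases hmemI.1 hZ with rfl | ⟨r, hr, rfl⟩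
    · rcases hmemI.1 hZ' with rfl | ⟨r', hr', rfl⟩
      · exact absurd rfl hne
      · exact Finset.disjoint_of_subset_right (mxT_sub r') hYR
    · rcases hmemI.1 hZ' with rfl | ⟨r', hr', rfl⟩
      · exact (Finset.disjoint_of_subset_right (mxT_sub r) hYR).symm
      · rw [Finset.disjoint_iff_inter_eq_empty]
        by_contra h1
        exact hne (mxT_eq h hRW hr hr' (Finset.nonempty_iff_ne_empty.2 h1))
  have hcover : I.biUnion id = W := by
    apply Finset.Subset.antisymm
    · intro x hx
      obtain ⟨Z, hZ, hxZ⟩ := Finset.mem_biUnion.1 hx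
      exact (htight Z hZ).sub hxZ
    · intro x hx
      by_cases hxY : x ∈ Y
      · exact Finset.mem_biUnion.2 ⟨Y, hYI, hxY⟩
      · have hxR : x ∈ R := Finset.mem_sdiff.2 ⟨hx, hxY⟩
        exact Finset.mem_biUnion.2 ⟨V x, hVI x hxR, mxT_mem h hRW hxR⟩
  have hI3 : 3 ≤ I.card := by
    by_contra hlt
    obtain ⟨r, hr⟩ := hRne
    apply hR
    have h1 : R = V r := by
      apply Finset.Subset.antisymm
      · intro x hx
        by_cases h2 : V x = V r
        · rw [← h2]
          exact mxT_mem h hRW hx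
        · exfalso
          apply hlt
          have h3 : ({Y, V r, V x} : Finset (Finset ι)) ⊆ I := by
            intro Z hZ
            rcases Finset.mem_insert.1 hZ with h4 | h4
            · rw [h4]; exact hYI
            · rcases Finset.mem_insert.1 h4 with h5 | h5
              · rw [h5]; exact hVI r hr
              · rw [Finset.mem_singleton.1 h5]; exact hVI x hx
          have h4 : ({Y, V r, V x} : Finset (Finset ι)).card = 3 := by
            rw [Finset.card_insert_of_notMem, Finset.card_pair (fun h5 => h2 h5.symm)]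
            rw [Finset.mem_insert, Finset.mem_singleton]
            rintro (h5 | h5)
            · exact hVY r hr h5.symm
            · exact hVY x hx h5.symm
          rw [← h4]
          exact Finset.card_le_card h3
      · exact mxT_sub r
    rw [h1]
    exact mxT_tight h hRW hr
  -- the unions
  have hcardJ : ∀ J, J ⊆ I → (J.biUnion id).card = ∑ Z ∈ J, Z.card := by
    intro J hJ
    exact Finset.card_biUnion fun Z hZ Z' hZ' hne => hdisj Z (hJ hZ) Z' (hJ hZ') hne
  have hNJ : ∀ J : Finset (Finset ι), J.biUnion (NN N) = NN N (J.biUnion id) := by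
    intro J
    unfold NN
    rw [Finset.biUnion_biUnion]
    rfl
  have hident : ∀ J, J ⊆ I → (J.biUnion id).card + 3 * J.card = (NN N (J.biUnion id)).card +
      ∑ a ∈ J.biUnion (NN N), ((J.filter fun i => a ∈ NN N i).card - 1) := by
    intro J hJ
    rw [← hNJ, ← count_identity J (NN N), hcardJ J hJ,
      Finset.sum_congr rfl fun Z hZ => (htight Z (hJ hZ)).card, Finset.sum_add_distrib,
      Finset.sum_const, smul_eq_mul, mul_comm J.card 3]
  have hsubW : ∀ J, J ⊆ I → J.biUnion id ⊆ W := by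
    intro J hJ
    rw [← hcover]
    exact Finset.biUnion_subset_biUnion_of_subset_left _ hJ
  have hnt : ∀ J, J ⊆ I → 2 ≤ J.card → J.card < I.card → ¬ Tight W N (J.biUnion id) := by
    intro J hJ h2 hlt hT
    -- two different elements
    have htwo : ∀ Z ∈ J, J.biUnion id ≠ Z := by
      intro Z hZ h3
      obtain ⟨Z', hZ', hne⟩ := Finset.exists_mem_ne (s := J) (by omega) Z
      obtain ⟨z, hz⟩ := (htight Z' (hJ hZ')).ne
      have h4 : z ∈ J.biUnion id := Finset.mem_biUnion.2 ⟨Z', hZ', hz⟩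
      rw [h3] at h4
      exact Finset.disjoint_left.1 (hdisj Z' (hJ hZ') Z (hJ hZ) hne) hz h4
    by_cases hYJ : Y ∈ J
    · apply htwo Y hYJ
      apply hmax _ hT
      · intro h3
        obtain ⟨Z, hZI, hZJ⟩ := Finset.exists_mem_notMem_of_card_lt_card hlt
        obtain ⟨z, hz⟩ := (htight Z hZI).ne
        have h4 : z ∈ J.biUnion id := h3 ▸ (htight Z hZI).sub hz
        obtain ⟨Z', hZ', hz'⟩ := Finset.mem_biUnion.1 h4
        have hne : Z ≠ Z' := fun h5 => hZJ (h5 ▸ hZ')
        exact Finset.disjoint_left.1 (hdisj Z hZI Z' (hJ hZ') hne) hz hz'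
      · exact Finset.subset_biUnion_of_mem id hYJ
    · have hJR : J.biUnion id ⊆ R := by
        intro x hx
        obtain ⟨Z, hZ, hxZ⟩ := Finset.mem_biUnion.1 hx
        rcases hmemI.1 (hJ hZ) with rfl | ⟨r, hr, rfl⟩
        · exact absurd hZ hYJ
        · exact mxT_sub r hxZ
      obtain ⟨Z, hZ⟩ : J.Nonempty := by
        rw [← Finset.card_pos]
        omega
      apply htwo Z hZ
      rcases hmemI.1 (hJ hZ) with rfl | ⟨r, hr, rfl⟩
      · exact absurd hZ hYJ
      · apply Finset.Subset.antisymm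
        · exact mxT_max hT hJR (Finset.mem_biUnion.2 ⟨V r, hZ, mxT_mem h hRW hr⟩)
        · exact Finset.subset_biUnion_of_mem id hZ
  have hge4 : ∀ J, J ⊆ I → 2 ≤ J.card → J.card < I.card →
      (J.biUnion id).card + 4 ≤ (NN N (J.biUnion id)).card := by
    intro J hJ h2 hlt
    have hne : (J.biUnion id).Nonempty := by
      obtain ⟨Z, hZ⟩ : J.Nonempty := by
        rw [← Finset.card_pos]
        omega
      obtain ⟨z, hz⟩ := (htight Z (hJ hZ)).ne
      exact ⟨z, Finset.mem_biUnion.2 ⟨Z, hZ, hz⟩⟩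
    have h3 := h.sur _ (hsubW J hJ) hne
    by_contra h4
    exact hnt J hJ h2 hlt ⟨hsubW J hJ, hne, by omega⟩
  -- the hypothesis (P)
  have hP : ∀ i ∈ I, 6 ≤ (((NN N i).powersetCard 2).filter
      fun e => ∃ j ∈ I, j ≠ i ∧ NN N i ∩ NN N j = e).card := by
    intro i hi
    refine (hrec i (htight i hi) (hneW i hi)).trans (Finset.card_le_card ?_)
    intro e he
    obtain ⟨w, ha⟩ := mem_PA.1 he
    have hit := htight i hi
    have heN : e ⊆ NN N i := ha.2.2.1.trans (N_subset_NN ha.1)
    refine Finset.mem_filter.2 ⟨Finset.mem_powersetCard.2 ⟨heN, ha.2.1⟩, ?_⟩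
    have hnA : ¬ Adm W N w e := by
      intro h1
      have h2 := h1.mem_PA
      rw [hemp] at h2
      exact absurd h2 (Finset.notMem_empty _)
    have hU : ∃ U, Tight W N U ∧ e ⊆ NN N U ∧ w ∉ U := by
      by_contra hcon
      push Not at hcon
      exact hnA ⟨hit.sub ha.1, ha.2.1, ha.2.2.1, hcon⟩
    obtain ⟨U, hUt, heU, hwU⟩ := hU
    have hUi : Disjoint U i := by
      rw [Finset.disjoint_iff_inter_eq_empty]
      by_contra h1
      obtain ⟨_, h2, h3⟩ := uncross h.sur hUt hit (Finset.nonempty_iff_ne_empty.2 h1)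
      have h4 : w ∈ U ∩ i := ha.2.2.2 _ (h2.mono Finset.inter_subset_right) (by
        rw [h3]
        exact Finset.subset_inter heU heN)
      exact hwU (Finset.mem_inter.1 h4).1
    have hj : ∃ j ∈ I, j ≠ i ∧ U ⊆ j := by
      obtain ⟨u, hu⟩ := hUt.ne
      by_cases hUY : (U ∩ Y).Nonempty
      · have h1 := (uncross h.sur hUt hY hUY).1
        have hiY : i ≠ Y := by
          intro h2
          obtain ⟨x, hx⟩ := hUY
          obtain ⟨hx1, hx2⟩ := Finset.mem_inter.1 hx
          exact Finset.disjoint_left.1 hUi hx1 (h2.symm ▸ hx2)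
        have h2 : U ∪ Y ≠ W := by
          intro h3
          obtain ⟨x, hx⟩ := hit.ne
          have h4 : x ∈ U ∪ Y := h3.symm ▸ hit.sub hx
          rcases Finset.mem_union.1 h4 with h5 | h5
          · exact Finset.disjoint_left.1 hUi h5 hx
          · exact Finset.disjoint_left.1 (hdisj i hi Y hYI hiY) hx h5
        have h3 := hmax _ h1 h2 Finset.subset_union_right
        exact ⟨Y, hYI, hiY.symm, h3 ▸ Finset.subset_union_left⟩
      · have hUR : U ⊆ R := by
          intro x hx
          refine Finset.mem_sdiff.2 ⟨hUt.sub hx, fun hxY => ?_⟩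
          exact hUY ⟨x, Finset.mem_inter.2 ⟨hx, hxY⟩⟩
        refine ⟨V u, hVI u (hUR hu), ?_, mxT_max hUt hUR hu⟩
        intro h1
        exact Finset.disjoint_left.1 hUi hu (h1 ▸ mxT_mem h hRW (hUR hu))
    obtain ⟨j, hjI, hji, hUj⟩ := hj
    refine ⟨j, hjI, hji, ?_⟩
    have hes : e ⊆ NN N i ∩ NN N j := Finset.subset_inter heN (heU.trans (NN_mono hUj))
    have hJs : ({i, j} : Finset (Finset ι)) ⊆ I := by
      intro Z hZ
      rcases Finset.mem_insert.1 hZ with h4 | h4
      · rw [h4]; exact hi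
      · rw [Finset.mem_singleton.1 h4]; exact hjI
    have hJc : ({i, j} : Finset (Finset ι)).card = 2 := Finset.card_pair hji.symm
    have hJu : ({i, j} : Finset (Finset ι)).biUnion id = i ∪ j := by
      rw [Finset.biUnion_insert, Finset.singleton_biUnion]
      rfl
    have h4 := hge4 {i, j} hJs hJc.ge (by rw [hJc]; omega)
    rw [hJu] at h4
    have h5 := card_NN_add (N := N) i j
    have h6 := Finset.card_union_of_disjoint (hdisj i hi j hjI hji.symm)
    have h7 := hit.card
    have h8 := (htight j hjI).card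
    have h9 : (NN N i ∩ NN N j).card ≤ e.card := by
      rw [ha.2.1]
      omega
    exact (Finset.eq_of_subset_of_card_le hes h9).symm
  refine count_false I (NN N) hI3 ?_ ?_ hP
  · intro J hJ h2 hlt
    have h1 := hident J hJ
    have h3 := hge4 J hJ h2 hlt
    omega
  · have h1 := hident I subset_rfl
    rw [hcover, h.tot] at h1
    omega

end Pool.Agent.TOKST
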