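import Mathlib
import Pool.Agent.TOKST.Fold

/-!
# Fact 1d: the injection of the admissible pairs
-/

set_option autoImplicit false
set_option linter.unusedSectionVars false

namespace Pool.Agent.TOKST

variable {ι α : Type} [DecidableEq ι] [DecidableEq α] {W : Finset ι} {N : ι → Finset α}

theorem pair_subset {a b : α} {S : Finset α} : ({a, b} : Finset α) ⊆ S ↔ a ∈ S ∧ b ∈ S := by
  rw [Finset.insert_subset_iff, Finset.singleton_subset_iff]

/-- Basic transfer: if `w'` is a witness of `e'` after the fold, `Y` is tight in `W`, `Y ≠ {w}`, and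
the images of `e'` lie in the neighbourhood of `Y`, then `w' ∈ Y`. -/
theorem fold_wit (h : Rigid W N) {w : ι} {p q : α} (ha : Adm W N w {p, q}) {w' : ι}
    {e' : Finset α} (he : Adm (W.erase w) (fN p q N) w' e') {Y : Finset ι} (hY : Tight W N Y)
    (hne : Y ≠ {w}) (hs : e' ⊆ (NN N Y).image (rr p q)) : w' ∈ Y := by
  by_cases hw : w ∈ Y
  · obtain ⟨h1, h2⟩ := fold_tight_of_mem h ha hY hw hne
    exact Finset.mem_of_mem_erase (he.2.2.2 _ h1 (by rw [h2]; exact hs))
  · exact he.2.2.2 _ (fold_tight_of_not_mem ha hY hw) (by rw [NN_fN]; exact hs)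

theorem mem_image_rr_of_ne {p q a : α} {S : Finset α} (h : a ∈ S) (haq : a ≠ q) :
    a ∈ S.image (rr p q) := Finset.mem_image.2 ⟨a, h, rr_of_ne haq⟩

theorem of_mem_image_rr {p q a : α} {S : Finset α} (h : a ∈ S.image (rr p q)) (hap : a ≠ p) :
    a ∈ S ∧ a ≠ q := by
  obtain ⟨b, hb, hba⟩ := Finset.mem_image.1 h
  by_cases hbq : b = q
  · rw [hbq, rr_self] at hba
    exact absurd hba.symm hap
  · rw [rr_of_ne hbq] at hba
    rw [← hba]
    exact ⟨hb, hbq⟩

/-- pairs not containing the new vertex -/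
theorem fold_other (h : Rigid W N) {w : ι} {p q : α} (ha : Adm W N w {p, q}) {e : Finset α}
    (he : e ∈ PA (W.erase w) (fN p q N)) (hp : p ∉ e) (hne : ¬ e ⊆ N w) : e ∈ PA W N := by
  obtain ⟨w', he'⟩ := mem_PA.1 he
  have hsub : ∀ a ∈ e, a ∈ N w' ∧ a ≠ q := by
    intro a hae
    exact of_mem_image_rr (he'.2.2.1 hae) (fun h1 => hp (h1 ▸ hae))
  refine mem_PA.2 ⟨w', Finset.mem_of_mem_erase he'.1, he'.2.1, fun a hae => (hsub a hae).1, ?_⟩
  intro Y hY hs
  refine fold_wit h ha he' hY ?_ fun a hae => mem_image_rr_of_ne (hs hae) (hsub a hae).2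
  rintro rfl
  rw [NN_singleton] at hs
  exact hne hs

/-- pairs containing the new vertex -/
theorem fold_star (h : Rigid W N) {w : ι} {p q c : α} (ha : Adm W N w {p, q})
    (he : {p, c} ∈ PA (W.erase w) (fN p q N)) : {p, c} ∈ PA W N ∨ {q, c} ∈ PA W N := by
  obtain ⟨w', he'⟩ := mem_PA.1 he
  have hcp : c ≠ p := by
    rintro rfl
    have := he'.2.1
    simp at this
  have hpc := pair_subset.1 he'.2.2.1
  have hc : c ∈ N w' ∧ c ≠ q := of_mem_image_rr hpc.2 hcp
  have hw'W := Finset.mem_of_mem_erase he'.1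
  have hw'w : w' ≠ w := Finset.ne_of_mem_erase he'.1
  have hpq := ha.ne
  -- exactly one of `p`, `q` is a neighbour of `w'`
  have hor : p ∈ N w' ∨ q ∈ N w' := by
    obtain ⟨b, hb, hba⟩ := Finset.mem_image.1 hpc.1
    by_cases hbq : b = q
    · exact Or.inr (hbq ▸ hb)
    · rw [rr_of_ne hbq] at hba
      exact Or.inl (hba ▸ hb)
  by_cases hcw : c ∈ N w
  · -- the witness is `w`, the other vertex is used
    rcases hor with hp' | hq'
    · right
      refine mem_PA.2 ⟨w, ha.1, Finset.card_pair hc.2.symm, pair_subset.2 ⟨ha.right, hcw⟩, ?_⟩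
      intro Y hY hs
      obtain ⟨hqY, hcY⟩ := pair_subset.1 hs
      by_contra hw
      have hYw : Y ≠ {w} := by
        rintro rfl
        exact hw (Finset.mem_singleton_self w)
      have h1 := fold_wit h ha he' hY hYw (pair_subset.2
        ⟨Finset.mem_image.2 ⟨q, hqY, rr_self p q⟩, mem_image_rr_of_ne hcY hc.2⟩)
      exact ha.not_both hY hw ⟨N_subset_NN h1 hp', hqY⟩
    · left
      refine mem_PA.2 ⟨w, ha.1, Finset.card_pair hcp.symm, pair_subset.2 ⟨ha.left, hcw⟩, ?_⟩
      intro Y hY hs
      obtain ⟨hpY, hcY⟩ := pair_subset.1 hs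
      by_contra hw
      have hYw : Y ≠ {w} := by
        rintro rfl
        exact hw (Finset.mem_singleton_self w)
      have h1 := fold_wit h ha he' hY hYw (pair_subset.2
        ⟨Finset.mem_image.2 ⟨p, hpY, rr_of_ne hpq⟩, mem_image_rr_of_ne hcY hc.2⟩)
      exact ha.not_both hY hw ⟨hpY, N_subset_NN h1 hq'⟩
  · rcases hor with hp' | hq'
    · left
      refine mem_PA.2 ⟨w', hw'W, Finset.card_pair hcp.symm, pair_subset.2 ⟨hp', hc.1⟩, ?_⟩
      intro Y hY hs
      obtain ⟨hpY, hcY⟩ := pair_subset.1 hs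
      refine fold_wit h ha he' hY ?_ (pair_subset.2
        ⟨Finset.mem_image.2 ⟨p, hpY, rr_of_ne hpq⟩, mem_image_rr_of_ne hcY hc.2⟩)
      rintro rfl
      rw [NN_singleton] at hcY
      exact hcw hcY
    · right
      refine mem_PA.2 ⟨w', hw'W, Finset.card_pair hc.2.symm, pair_subset.2 ⟨hq', hc.1⟩, ?_⟩
      intro Y hY hs
      obtain ⟨hqY, hcY⟩ := pair_subset.1 hs
      refine fold_wit h ha he' hY ?_ (pair_subset.2
        ⟨Finset.mem_image.2 ⟨q, hqY, rr_self p q⟩, mem_image_rr_of_ne hcY hc.2⟩)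
      rintro rfl
      rw [NN_singleton] at hcY
      exact hcw hcY

/-- The injection: the image contains, for every `c`, at most one of `{p, c}` and `{q, c}`. -/
theorem fold_inj (h : Rigid W N) {w : ι} {p q : α} (ha : Adm W N w {p, q}) :
    ∃ φ : Finset α → Finset α, (∀ e ∈ PA (W.erase w) (fN p q N), φ e ∈ PA W N) ∧
      Set.InjOn φ (PA (W.erase w) (fN p q N) : Finset (Finset α)) ∧
      ∀ c, c ≠ p → c ≠ q → ∀ e ∈ PA (W.erase w) (fN p q N), ∀ e' ∈ PA (W.erase w) (fN p q N),
        φ e = {p, c} → φ e' ≠ {q, c} := by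
  classical
  have hpq := ha.ne
  have hch : ∀ c : α, ∃ t : α, (t = p ∨ t = q) ∧
      ({p, c} ∈ PA (W.erase w) (fN p q N) → {t, c} ∈ PA W N) := by
    intro c
    by_cases h1 : {p, c} ∈ PA (W.erase w) (fN p q N)
    · rcases fold_star h ha h1 with h2 | h2
      · exact ⟨p, Or.inl rfl, fun _ => h2⟩
      · exact ⟨q, Or.inr rfl, fun _ => h2⟩
    · exact ⟨p, Or.inl rfl, fun h2 => absurd h2 h1⟩
  choose t ht1 ht2 using hch
  -- the form of the pairs
  have hq : ∀ e ∈ PA (W.erase w) (fN p q N), q ∉ e := by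
    intro e he hqe
    obtain ⟨w', he'⟩ := mem_PA.1 he
    obtain ⟨b, _, hb⟩ := Finset.mem_image.1 (he'.2.2.1 hqe)
    exact rr_ne hpq b hb
  have hcard : ∀ e ∈ PA (W.erase w) (fN p q N), e.card = 2 := by
    intro e he
    obtain ⟨w', he'⟩ := mem_PA.1 he
    exact he'.2.1
  have hform : ∀ e ∈ PA (W.erase w) (fN p q N), p ∈ e → ∃ c, c ≠ p ∧ c ≠ q ∧ e = {p, c} := by
    intro e he hpe
    obtain ⟨x, y, hxy, rfl⟩ := Finset.card_eq_two.1 (hcard e he)
    have hqe := hq _ he
    rcases Finset.mem_insert.1 hpe with h1 | h1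
    · subst h1
      refine ⟨y, hxy.symm, ?_, rfl⟩
      rintro rfl
      exact hqe (Finset.mem_insert_of_mem (Finset.mem_singleton_self _))
    · rw [Finset.mem_singleton] at h1
      subst h1
      refine ⟨x, hxy, ?_, Finset.pair_comm _ _⟩
      rintro rfl
      exact hqe (Finset.mem_insert_self _ _)
  -- the pair inside `N w`
  have hcN : (N w \ {p, q}).card = 2 := by
    have h1 := Finset.card_sdiff_add_card_eq_card ha.2.2.1
    rw [ha.2.1, h.four w ha.1] at h1
    omega
  have hrs : ∀ e ∈ PA (W.erase w) (fN p q N), p ∉ e → e ⊆ N w → e = N w \ {p, q} := by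
    intro e he hpe hs
    apply Finset.eq_of_subset_of_card_le
    · intro a hae
      refine Finset.mem_sdiff.2 ⟨hs hae, fun h1 => ?_⟩
      rcases Finset.mem_insert.1 h1 with h2 | h2
      · exact hpe (h2 ▸ hae)
      · exact hq e he (Finset.mem_singleton.1 h2 ▸ hae)
    · rw [hcN, hcard e he]
  let φ : Finset α → Finset α := fun e =>
    if p ∈ e then (e.erase p).biUnion (fun c => {t c, c}) else
      if e ⊆ N w then {p, q} else e
  have hφ1 : ∀ c, c ≠ p → φ {p, c} = {t c, c} := by
    intro c hc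
    have h1 : ({p, c} : Finset α).erase p = {c} := by
      rw [Finset.erase_insert (by rw [Finset.mem_singleton]; exact hc.symm)]
    simp only [φ]
    rw [if_pos (Finset.mem_insert_self _ _), h1, Finset.singleton_biUnion]
  have hφ2 : ∀ e : Finset α, p ∉ e → e ⊆ N w → φ e = {p, q} := by
    intro e h1 h2
    simp only [φ]
    rw [if_neg h1, if_pos h2]
  have hφ3 : ∀ e : Finset α, p ∉ e → ¬ e ⊆ N w → φ e = e := by
    intro e h1 h2
    simp only [φ]
    rw [if_neg h1, if_neg h2]
  have htc : ∀ c, c ≠ p → c ≠ q → t c ≠ c := by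
    intro c h1 h2
    rcases ht1 c with h3 | h3 <;> rw [h3]
    · exact h1.symm
    · exact h2.symm
  -- equal images `{t c, c} = {t c', c'}` imply `c = c'`
  have hcc : ∀ c c', c ≠ p → c ≠ q → c' ≠ p → c' ≠ q →
      ({t c, c} : Finset α) = {t c', c'} → c = c' := by
    intro c c' h1 h2 h3 h4 h5
    have h6 : c ∈ ({t c', c'} : Finset α) :=
      h5 ▸ Finset.mem_insert_of_mem (Finset.mem_singleton_self _)
    rcases Finset.mem_insert.1 h6 with h7 | h7
    · rcases ht1 c' with h8 | h8
      · exact absurd (h7.trans h8) h1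
      · exact absurd (h7.trans h8) h2
    · exact Finset.mem_singleton.1 h7
  refine ⟨φ, ?_, ?_, ?_⟩
  · intro e he
    by_cases hpe : p ∈ e
    · obtain ⟨c, hc1, hc2, rfl⟩ := hform e he hpe
      rw [hφ1 c hc1]
      exact ht2 c he
    · by_cases hs : e ⊆ N w
      · rw [hφ2 e hpe hs]
        exact ha.mem_PA
      · rw [hφ3 e hpe hs]
        exact fold_other h ha he hpe hs
  · intro e he e' he' hee
    rw [Finset.mem_coe] at he he'
    by_cases hpe : p ∈ e
    · obtain ⟨c, hc1, hc2, rfl⟩ := hform e he hpe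
      rw [hφ1 c hc1] at hee
      by_cases hpe' : p ∈ e'
      · obtain ⟨c', hc1', hc2', rfl⟩ := hform e' he' hpe'
        rw [hφ1 c' hc1'] at hee
        rw [hcc c c' hc1 hc2 hc1' hc2' hee]
      · by_cases hs' : e' ⊆ N w
        · rw [hφ2 e' hpe' hs'] at hee
          have h6 : c ∈ ({p, q} : Finset α) :=
            hee ▸ Finset.mem_insert_of_mem (Finset.mem_singleton_self _)
          rcases Finset.mem_insert.1 h6 with h7 | h7
          · exact absurd h7 hc1
          · exact absurd (Finset.mem_singleton.1 h7) hc2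
        · rw [hφ3 e' hpe' hs'] at hee
          have h6 : t c ∈ e' := hee ▸ Finset.mem_insert_self _ _
          rcases ht1 c with h8 | h8
          · exact absurd (h8 ▸ h6) hpe'
          · exact absurd (h8 ▸ h6) (hq e' he')
    · by_cases hs : e ⊆ N w
      · rw [hφ2 e hpe hs] at hee
        by_cases hpe' : p ∈ e'
        · obtain ⟨c', hc1', hc2', rfl⟩ := hform e' he' hpe'
          rw [hφ1 c' hc1'] at hee
          have h6 : c' ∈ ({p, q} : Finset α) :=
            hee ▸ Finset.mem_insert_of_mem (Finset.mem_singleton_self _)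
          rcases Finset.mem_insert.1 h6 with h7 | h7
          · exact absurd h7 hc1'
          · exact absurd (Finset.mem_singleton.1 h7) hc2'
        · by_cases hs' : e' ⊆ N w
          · rw [hrs e he hpe hs, hrs e' he' hpe' hs']
          · rw [hφ3 e' hpe' hs'] at hee
            exact absurd (hee ▸ Finset.mem_insert_self _ _) hpe'
      · rw [hφ3 e hpe hs] at hee
        by_cases hpe' : p ∈ e'
        · obtain ⟨c', hc1', hc2', rfl⟩ := hform e' he' hpe'
          rw [hφ1 c' hc1'] at hee
          have h6 : t c' ∈ e := hee ▸ Finset.mem_insert_self _ _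
          rcases ht1 c' with h8 | h8
          · exact absurd (h8 ▸ h6) hpe
          · exact absurd (h8 ▸ h6) (hq e he)
        · by_cases hs' : e' ⊆ N w
          · rw [hφ2 e' hpe' hs'] at hee
            exact absurd (hee ▸ Finset.mem_insert_self _ _) hpe
          · rwa [hφ3 e' hpe' hs'] at hee
  · intro c hcp hcq e he e' he' hee hee'
    -- both images come from `{p, c}`
    have key : ∀ s : α, (s = p ∨ s = q) → ∀ e ∈ PA (W.erase w) (fN p q N), φ e = {s, c} →
        t c = s := by
      intro s hs e he hee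
      by_cases hpe : p ∈ e
      · obtain ⟨c', hc1', hc2', rfl⟩ := hform e he hpe
        rw [hφ1 c' hc1'] at hee
        have h6 : c ∈ ({t c', c'} : Finset α) :=
          hee ▸ Finset.mem_insert_of_mem (Finset.mem_singleton_self _)
        have h9 : c = c' := by
          rcases Finset.mem_insert.1 h6 with h7 | h7
          · rcases ht1 c' with h8 | h8
            · exact absurd (h7.trans h8) hcp
            · exact absurd (h7.trans h8) hcq
          · exact Finset.mem_singleton.1 h7
        subst h9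
        have h10 : s ∈ ({t c, c} : Finset α) := hee ▸ Finset.mem_insert_self _ _
        rcases Finset.mem_insert.1 h10 with h7 | h7
        · exact h7.symm
        · rw [Finset.mem_singleton] at h7
          rcases hs with h8 | h8
          · exact absurd (h7.symm.trans h8) hcp
          · exact absurd (h7.symm.trans h8) hcq
      · by_cases hs' : e ⊆ N w
        · rw [hφ2 e hpe hs'] at hee
          have h6 : c ∈ ({p, q} : Finset α) :=
            hee ▸ Finset.mem_insert_of_mem (Finset.mem_singleton_self _)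
          rcases Finset.mem_insert.1 h6 with h7 | h7
          · exact absurd h7 hcp
          · exact absurd (Finset.mem_singleton.1 h7) hcq
        · rw [hφ3 e hpe hs'] at hee
          have h6 : s ∈ e := hee ▸ Finset.mem_insert_self _ _
          rcases hs with h8 | h8
          · exact absurd (h8 ▸ h6) hpe
          · exact absurd (h8 ▸ h6) (hq e he)
    have h1 := key p (Or.inl rfl) e he hee
    have h2 := key q (Or.inr rfl) e' he' hee'
    exact hpq (h1.symm.trans h2)

theorem card_PA_fold (h : Rigid W N) {w : ι} {p q : α} (ha : Adm W N w {p, q}) :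
    (PA (W.erase w) (fN p q N)).card ≤ (PA W N).card := by
  obtain ⟨φ, h1, h2, _⟩ := fold_inj h ha
  exact Finset.card_le_card_of_injOn φ h1 h2

end Pool.Agent.TOKST
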