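import Mathlib
import Pool.Agent.TOKST.FoldInj
import Pool.Agent.TOKST.EXa
import Pool.Agent.TOKST.EXb

/-!
# Lemma EX: there are at least six admissible pairs; Lemma ADM
-/

set_option autoImplicit false
set_option linter.unusedSectionVars false

namespace Pool.Agent.TOKST

variable {ι α : Type} [DecidableEq ι] [DecidableEq α]

theorem six_aux (n : ℕ) : ∀ (W : Finset ι) (N : ι → Finset α), W.card = n → Rigid W N →
    W.Nonempty → 6 ≤ (PA W N).card := by
  induction n using Nat.strong_induction_on with
  | _ n ih =>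
    intro W N hn h hne
    by_cases h1 : W.card = 1
    · obtain ⟨w, rfl⟩ := Finset.card_eq_one.1 h1
      have hw : w ∈ ({w} : Finset ι) := Finset.mem_singleton_self w
      have h2 : (N w).powersetCard 2 ⊆ PA {w} N := by
        intro e he
        obtain ⟨he1, he2⟩ := Finset.mem_powersetCard.1 he
        refine mem_PA.2 ⟨w, hw, he2, he1, fun Y hY _ => ?_⟩
        obtain ⟨y, hy⟩ := hY.ne
        have h3 := Finset.mem_singleton.1 (hY.sub hy)
        exact h3 ▸ hy
      have h3 := Finset.card_le_card h2
      rw [Finset.card_powersetCard, h.four w hw] at h3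
      exact h3
    · have h2 : 2 ≤ W.card := by
        have := Finset.card_pos.2 hne
        omega
      have hrec : ∀ Z, Tight W N Z → Z ≠ W → 6 ≤ (PA Z N).card := by
        intro Z hZ hZW
        have h3 : Z ⊂ W := Finset.ssubset_iff_subset_ne.2 ⟨hZ.sub, hZW⟩
        exact ih Z.card (hn ▸ Finset.card_lt_card h3) Z N rfl (h.restrict hZ) hZ.ne
      have hPA : (PA W N).Nonempty := by
        -- a maximal tight set different from `W`
        obtain ⟨w, hw⟩ := hne
        have hs : Tight W N {w} := h.single hw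
        have hs' : ({w} : Finset ι) ≠ W := by
          intro h3
          rw [← h3, Finset.card_singleton] at h2
          omega
        classical
        let F := W.powerset.filter (fun Y => Tight W N Y ∧ Y ≠ W)
        have hF : F.Nonempty := ⟨{w}, Finset.mem_filter.2
          ⟨Finset.mem_powerset.2 hs.sub, hs, hs'⟩⟩
        obtain ⟨Y, hYF, hYmax⟩ := Finset.exists_max_image F Finset.card hF
        obtain ⟨_, hY, hYW⟩ := Finset.mem_filter.1 hYF
        have hmax : ∀ Z, Tight W N Z → Z ≠ W → Y ⊆ Z → Z = Y := by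
          intro Z hZ hZW hYZ
          have h3 := hYmax Z (Finset.mem_filter.2 ⟨Finset.mem_powerset.2 hZ.sub, hZ, hZW⟩)
          exact (Finset.eq_of_subset_of_card_le hYZ h3).symm
        by_cases hR : Tight W N (W \ Y)
        · refine ex_of_tight_compl h hY hYW hmax hR (hrec _ hR ?_)
          intro h3
          obtain ⟨y, hy⟩ := hY.ne
          have h4 : y ∈ W \ Y := h3.symm ▸ hY.sub hy
          exact (Finset.mem_sdiff.1 h4).2 hy
        · exact ex_of_not_tight h hY hYW hmax hR hrec
      obtain ⟨e, he⟩ := hPA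
      obtain ⟨w, ha⟩ := mem_PA.1 he
      obtain ⟨p, q, hpq, rfl⟩ := Finset.card_eq_two.1 ha.2.1
      have hr := fold_rigid h ha h2
      have hc : (W.erase w).card < n := by
        rw [← hn]
        exact Finset.card_erase_lt_of_mem ha.1
      have hne' : (W.erase w).Nonempty := by
        rw [← Finset.card_pos, Finset.card_erase_of_mem ha.1]
        omega
      exact (ih _ hc (W.erase w) (fN p q N) rfl hr hne').trans (card_PA_fold h ha)

/-- Lemma EX -/
theorem six_le {W : Finset ι} {N : ι → Finset α} (h : Rigid W N) (hne : W.Nonempty) :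
    6 ≤ (PA W N).card := six_aux _ W N rfl h hne

/-- Lemma ADM -/
theorem exists_adm_not_subset {W : Finset ι} {N : ι → Finset α} (h : Rigid W N)
    (hW : 2 ≤ W.card) (X : Finset α) (hX : X.card ≤ 4) :
    ∃ w p q, Adm W N w {p, q} ∧ ¬ ({p, q} : Finset α) ⊆ X := by
  by_contra hcon
  push Not at hcon
  have hne : W.Nonempty := by
    rw [← Finset.card_pos]
    omega
  have h6 := six_le h hne
  have hsub : PA W N ⊆ X.powersetCard 2 := by
    intro e he
    obtain ⟨w, ha⟩ := mem_PA.1 he
    obtain ⟨p, q, hpq, rfl⟩ := Finset.card_eq_two.1 ha.2.1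
    exact Finset.mem_powersetCard.2 ⟨hcon w p q ha, ha.2.1⟩
  have hc := Finset.card_le_card hsub
  rw [Finset.card_powersetCard] at hc
  have hX4 : X.card = 4 := by
    by_contra h4
    have h5 : X.card ≤ 3 := by omega
    have h7 : X.card.choose 2 ≤ (3 : ℕ).choose 2 := Nat.choose_le_choose 2 h5
    have h8 : (3 : ℕ).choose 2 = 3 := rfl
    omega
  have h46 : X.card.choose 2 = 6 := by
    rw [hX4]
    rfl
  have heq : PA W N = X.powersetCard 2 := Finset.eq_of_subset_of_card_le hsub (by
    rw [Finset.card_powersetCard]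
    omega)
  obtain ⟨e, he⟩ : (PA W N).Nonempty := by
    rw [← Finset.card_pos]
    omega
  obtain ⟨w, ha⟩ := mem_PA.1 he
  obtain ⟨p, q, hpq, rfl⟩ := Finset.card_eq_two.1 ha.2.1
  have hpX := hcon w p q ha
  rw [pair_subset] at hpX
  -- a third vertex of `X`
  obtain ⟨c, hc1⟩ : (X \ {p, q}).Nonempty := by
    rw [← Finset.card_pos]
    have h1 := Finset.le_card_sdiff ({p, q} : Finset α) X
    rw [ha.2.1] at h1
    omega
  obtain ⟨hcX, hc2⟩ := Finset.mem_sdiff.1 hc1
  have hcp : c ≠ p := fun h1 => hc2 (h1 ▸ Finset.mem_insert_self _ _)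
  have hcq : c ≠ q := fun h1 =>
    hc2 (h1 ▸ Finset.mem_insert_of_mem (Finset.mem_singleton_self _))
  obtain ⟨φ, h1, h2, h3⟩ := fold_inj h ha
  have hr := fold_rigid h ha hW
  have hne' : (W.erase w).Nonempty := by
    rw [← Finset.card_pos, Finset.card_erase_of_mem ha.1]
    omega
  have h6' := six_le hr hne'
  have himg : (PA (W.erase w) (fN p q N)).image φ = PA W N := by
    apply Finset.eq_of_subset_of_card_le
    · intro e he
      obtain ⟨e', he', rfl⟩ := Finset.mem_image.1 he
      exact h1 e' he'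
    · rw [Finset.card_image_of_injOn h2]
      omega
  have hpc : ({p, c} : Finset α) ∈ PA W N := by
    rw [heq]
    exact Finset.mem_powersetCard.2 ⟨pair_subset.2 ⟨hpX.1, hcX⟩, Finset.card_pair hcp.symm⟩
  have hqc : ({q, c} : Finset α) ∈ PA W N := by
    rw [heq]
    exact Finset.mem_powersetCard.2 ⟨pair_subset.2 ⟨hpX.2, hcX⟩, Finset.card_pair hcq.symm⟩
  rw [← himg] at hpc hqc
  obtain ⟨e1, he1, h4⟩ := Finset.mem_image.1 hpc
  obtain ⟨e2, he2, h5⟩ := Finset.mem_image.1 hqc
  exact h3 c hcp hcq e1 he1 e2 he2 h4 h5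

end Pool.Agent.TOKST
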