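import Mathlib
import Pool.Agent.TOKST.TKPerm

/-!
# Module TBASE: the smallest case of Theorem T

`K4four`: branch vertices `w, w0, a, b`: `L = []` except `L 0 1 = [d, c]` for the pair `(w, w0)` (`w d c w0`), `L 1 0 = [c, d]`.
`T_base`: `N w0` misses exactly one of the four vertices.  If it contains `a, b, c` (misses `d`): paths `w a, w b, w0 a, w0 b, a b` and `w d c w0`.  Misses `c`: the same with `c, d` exchanged (`JG` is symmetric).
Misses `a` or `b`: exchange the roles of the links.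
-/

set_option autoImplicit false
set_option linter.unusedSectionVars false

namespace Pool.Agent.TOKST

variable {V : Type} [DecidableEq V]

/-- the list of the inner vertices -/
private def LL (c d : V) : Fin 4 → Fin 4 → List V := fun i j =>
  if i = 0 ∧ j = 1 then [d, c] else if i = 1 ∧ j = 0 then [c, d] else []

private lemma LL_mem {c d : V} {i j : Fin 4} {x : V} (hx : x ∈ LL c d i j) :
    (x = c ∨ x = d) ∧ s(i, j) = s(0, 1) := by
  unfold LL at hx
  split_ifs at hx with h1 h2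
  · obtain ⟨rfl, rfl⟩ := h1
    refine ⟨?_, rfl⟩
    rcases List.mem_cons.1 hx with h | h
    · exact Or.inr h
    · exact Or.inl (List.mem_singleton.1 h)
  · obtain ⟨rfl, rfl⟩ := h2
    refine ⟨?_, Sym2.eq_swap⟩
    rcases List.mem_cons.1 hx with h | h
    · exact Or.inl h
    · exact Or.inr (List.mem_singleton.1 h)
  · exact absurd hx List.not_mem_nil

theorem K4four {G : SimpleGraph V} {w w0 a b c d : V} (hnd : [w, w0, a, b, c, d].Nodup)
    (h1 : G.Adj w a) (h2 : G.Adj w b) (h3 : G.Adj w0 a) (h4 : G.Adj w0 b) (h5 : G.Adj a b)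
    (h6 : G.Adj w d) (h7 : G.Adj d c) (h8 : G.Adj c w0) : TK G := by
  simp only [List.nodup_cons, List.mem_cons, not_or, List.not_mem_nil, not_false_eq_true,
    List.nodup_nil, and_true] at hnd
  obtain ⟨⟨n1, n2, n3, n4, n5⟩, ⟨n6, n7, n8, n9⟩, ⟨n10, n11, n12⟩, ⟨n13, n14⟩, n15⟩ := hnd
  refine ⟨![w, w0, a, b], LL c d, ?_, ?_, ?_, ?_, ?_, ?_, ?_⟩
  · intro i j hij
    fin_cases i <;> fin_cases j <;>
      first | rfl | (exfalso; simp at hij; simp_all)
  · intro i j
    fin_cases i <;> fin_cases j <;> simp [LL]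
  · intro i j hij
    fin_cases i <;> fin_cases j <;>
      first | exact absurd rfl hij | simp [LL, h1, h2, h3, h4, h5, h6, h7, h8, h1.symm, h2.symm,
        h3.symm, h4.symm, h5.symm, h6.symm, h7.symm, h8.symm]
  · intro i j _
    unfold LL
    split_ifs <;> simp
  · intro i j _
    unfold LL
    split_ifs <;> simp [n15, Ne.symm n15]
  · intro i j m _ hm
    rcases (LL_mem hm).1 with h | h
    · fin_cases m <;> simp at h <;> simp_all
    · fin_cases m <;> simp at h <;> simp_all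
  · intro i j k l _ _ hne x hx hx'
    exact hne ((LL_mem hx).2.trans (LL_mem hx').2.symm)

theorem T_base {N : V → Finset V} {w w0 a b c d : V} (hnd : [w, w0, a, b, c, d].Nodup)
    (hw : N w = {a, b, c, d}) (hw0 : N w0 ⊆ {a, b, c, d}) (h3 : (N w0).card = 3) :
    TK (JG {w0, w} N a b c d) := by
  have hnd' := hnd
  simp only [List.nodup_cons, List.mem_cons, not_or, List.not_mem_nil, not_false_eq_true,
    List.nodup_nil, and_true] at hnd
  obtain ⟨⟨n1, n2, n3, n4, n5⟩, ⟨n6, n7, n8, n9⟩, ⟨n10, n11, n12⟩, ⟨n13, n14⟩, n15⟩ := hnd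
  have hc4 : ({a, b, c, d} : Finset V).card = 4 := by
    rw [Finset.card_insert_of_notMem, Finset.card_insert_of_notMem, Finset.card_insert_of_notMem,
      Finset.card_singleton]
    · simpa using n15
    · simpa using ⟨n13, n14⟩
    · simpa using ⟨n10, n11, n12⟩
  obtain ⟨x, hx⟩ : ∃ x, ({a, b, c, d} : Finset V) \ N w0 = {x} := by
    rw [← Finset.card_eq_one, Finset.card_sdiff_of_subset hw0, hc4, h3]
  have hx4 : x ∈ ({a, b, c, d} : Finset V) := by
    have : x ∈ ({a, b, c, d} : Finset V) \ N w0 := by rw [hx]; exact Finset.mem_singleton_self x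
    exact (Finset.mem_sdiff.1 this).1
  have hin : ∀ y ∈ ({a, b, c, d} : Finset V), y ≠ x → y ∈ N w0 := by
    intro y hy hyx
    by_contra hno
    have : y ∈ ({a, b, c, d} : Finset V) \ N w0 := Finset.mem_sdiff.2 ⟨hy, hno⟩
    rw [hx, Finset.mem_singleton] at this
    exact hyx this
  have ea : a ∈ ({a, b, c, d} : Finset V) := by simp
  have eb : b ∈ ({a, b, c, d} : Finset V) := by simp
  have ec : c ∈ ({a, b, c, d} : Finset V) := by simp
  have ed : d ∈ ({a, b, c, d} : Finset V) := by simp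
  -- adjacencies
  have hA : ∀ y ∈ ({a, b, c, d} : Finset V), w ≠ y → (JG {w0, w} N a b c d).Adj w y := by
    intro y hy hne
    refine ⟨hne, Or.inl (Or.inl ⟨by simp, ?_⟩)⟩
    rw [hw]; exact hy
  have hB : ∀ y ∈ ({a, b, c, d} : Finset V), y ≠ x → w0 ≠ y →
      (JG {w0, w} N a b c d).Adj w0 y := by
    intro y hy hyx hne
    exact ⟨hne, Or.inl (Or.inl ⟨by simp, hin y hy hyx⟩)⟩
  have hab : (JG {w0, w} N a b c d).Adj a b := ⟨n10, Or.inl (Or.inr (Or.inl ⟨rfl, rfl⟩))⟩
  have hcd : (JG {w0, w} N a b c d).Adj c d := ⟨n15, Or.inl (Or.inr (Or.inr ⟨rfl, rfl⟩))⟩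
  simp only [Finset.mem_insert, Finset.mem_singleton] at hx4
  rcases hx4 with rfl | rfl | rfl | rfl
  · -- misses `a`
    refine K4four (w := w) (w0 := w0) (a := c) (b := d) (c := b) (d := x) ?_ (hA c ec n4)
      (hA d ed n5) (hB c ec (Ne.symm n11) n8) (hB d ed (Ne.symm n12) n9) hcd (hA x ea n2) hab
      (hB b eb (Ne.symm n10) n7).symm
    simp only [List.nodup_cons, List.mem_cons, not_or, List.not_mem_nil, not_false_eq_true,
      List.nodup_nil, and_true]
    exact ⟨⟨n1, n4, n5, n3, n2⟩, ⟨n8, n9, n7, n6⟩, ⟨n15, Ne.symm n13, Ne.symm n11⟩,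
      ⟨Ne.symm n14, Ne.symm n12⟩, Ne.symm n10⟩
  · -- misses `b`
    refine K4four (w := w) (w0 := w0) (a := c) (b := d) (c := a) (d := x) ?_ (hA c ec n4)
      (hA d ed n5) (hB c ec (Ne.symm n13) n8) (hB d ed (Ne.symm n14) n9) hcd (hA x eb n3) hab.symm
      (hB a ea n10 n6).symm
    simp only [List.nodup_cons, List.mem_cons, not_or, List.not_mem_nil, not_false_eq_true,
      List.nodup_nil, and_true]
    exact ⟨⟨n1, n4, n5, n2, n3⟩, ⟨n8, n9, n6, n7⟩, ⟨n15, Ne.symm n11, Ne.symm n13⟩,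
      ⟨Ne.symm n12, Ne.symm n14⟩, n10⟩
  · -- misses `c`
    refine K4four (w := w) (w0 := w0) (a := a) (b := b) (c := d) (d := x) ?_ (hA a ea n2)
      (hA b eb n3) (hB a ea n11 n6) (hB b eb n13 n7) hab (hA x ec n4) hcd
      (hB d ed (Ne.symm n15) n9).symm
    simp only [List.nodup_cons, List.mem_cons, not_or, List.not_mem_nil, not_false_eq_true,
      List.nodup_nil, and_true]
    exact ⟨⟨n1, n2, n3, n5, n4⟩, ⟨n6, n7, n9, n8⟩, ⟨n10, n12, n11⟩, ⟨n14, n13⟩, Ne.symm n15⟩
  · -- misses `d`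
    exact K4four (w := w) (w0 := w0) (a := a) (b := b) (c := c) (d := x) hnd' (hA a ea n2)
      (hA b eb n3) (hB a ea n12 n6) (hB b eb n14 n7) hab (hA x ed n5) hcd.symm
      (hB c ec n15 n8).symm

end Pool.Agent.TOKST
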