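import Mathlib
import Pool.Agent.TOKST.Six
import Pool.Agent.TOKST.JFold
import Pool.Agent.TOKST.TBase

/-!
# Module MAIN: Theorem T (induction over the admissible folds)

`theoremT_aux`: induction on `n = W.card`.  `n = 1`: `W = {w}`, `N w = NN N W ⊇ {a,b,c,d}`, `|N w| = 4`: `T_base`.
`n ≥ 2`: `exists_adm_not_subset h hW {a,b,c,d}` gives `Adm W N w {p, q}` with `p` or `q` not in `{a,b,c,d}`, so `rr p q` is injective on `{a,b,c,d}`: the four new ends are distinct and lie in
`NN (fN p q N) (W.erase w) = (NN N W).image (rr p q)` (`fold_tight_of_mem` with `Y = W`).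
 (i) `N w0` does not contain both `p` and `q`: fold at `w`: `Rigid (W.erase w) (fN p q N)` (`fold_rigid`), `|fN p q N w0| = 3` (`card_image_rr`), induction; then `TK_fold` via `JG_fold` (`(insert w0 W).erase w = insert w0 (W.erase w)`).
 (ii) `p, q ∈ N w0`: fold at `w0`: the new whites are `W = insert w (W.erase w)`, `w` plays the role of `w0`: `|fN p q N w| = 3` by `card_image_rr` (`|N w| = 4`, `p, q ∈ N w`); induction for `W.erase w`, `fN p q N`, `w`; then `JG_fold` with `w0` in the role of `w`
 (`(insert w0 W).erase w0 = W = insert w (W.erase w)`).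
-/

set_option autoImplicit false
set_option linter.unusedSectionVars false

namespace Pool.Agent.TOKST

variable {V : Type} [DecidableEq V]

theorem theoremT_aux (n : ℕ) : ∀ (W : Finset V) (N : V → Finset V) (w0 a b c d : V),
    W.card = n → Rigid W N → W.Nonempty → w0 ∉ W → (N w0).card = 3 → N w0 ⊆ NN N W →
    (∀ x ∈ insert w0 W, x ∉ NN N W) → a ∈ NN N W → b ∈ NN N W → c ∈ NN N W → d ∈ NN N W →
    [a, b, c, d].Nodup → TK (JG (insert w0 W) N a b c d) := by
  induction n with
  | zero =>
    intro W N w0 a b c d hn _ hne
    rw [Finset.card_eq_zero] at hn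
    exact absurd hn hne.ne_empty
  | succ n ih =>
    intro W N w0 a b c d hn h hne hw0 h3 hsub hWN ha hb hc hd hnd
    -- the whites and the blacks
    have hNNins : NN N (insert w0 W) = NN N W := by
      rw [NN_insert]
      exact Finset.union_eq_right.2 hsub
    by_cases h1 : W.card = 1
    · obtain ⟨w, rfl⟩ := Finset.card_eq_one.1 h1
      have hw : w ∈ ({w} : Finset V) := Finset.mem_singleton_self w
      rw [NN_singleton] at ha hb hc hd hsub
      have hsubX : ({a, b, c, d} : Finset V) ⊆ N w := by
        intro x hx
        simp only [Finset.mem_insert, Finset.mem_singleton] at hx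
        rcases hx with rfl | rfl | rfl | rfl
        · exact ha
        · exact hb
        · exact hc
        · exact hd
      have hX4 : ({a, b, c, d} : Finset V).card = 4 := by
        have h2 := List.toFinset_card_of_nodup hnd
        simpa using h2
      have hNw : N w = {a, b, c, d} := by
        refine (Finset.eq_of_subset_of_card_le hsubX ?_).symm
        rw [h.four w hw, hX4]
      have hw_not : ∀ x ∈ N w, w ≠ x ∧ w0 ≠ x := by
        intro x hx
        constructor
        · rintro rfl
          exact hWN w (Finset.mem_insert_of_mem hw) (by rw [NN_singleton]; exact hx)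
        · rintro rfl
          exact hWN w0 (Finset.mem_insert_self _ _) (by rw [NN_singleton]; exact hx)
      have hww0 : w ≠ w0 := by
        rintro rfl
        exact hw0 hw
      have hnd6 : [w, w0, a, b, c, d].Nodup := by
        rw [List.nodup_cons, List.nodup_cons]
        refine ⟨?_, ?_, hnd⟩
        · simp only [List.mem_cons, List.not_mem_nil, or_false, not_or]
          exact ⟨hww0, (hw_not a ha).1, (hw_not b hb).1, (hw_not c hc).1, (hw_not d hd).1⟩
        · simp only [List.mem_cons, List.not_mem_nil, or_false, not_or]
          exact ⟨(hw_not a ha).2, (hw_not b hb).2, (hw_not c hc).2, (hw_not d hd).2⟩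
      exact T_base hnd6 hNw (hNw ▸ hsub) h3
    · have h2 : 2 ≤ W.card := by
        have := Finset.card_pos.2 hne
        omega
      obtain ⟨w, p, q, hadm, hX⟩ := exists_adm_not_subset h h2 ({a, b, c, d} : Finset V)
        (Finset.card_le_four)
      have hpq := hadm.ne
      have hpw := hadm.left
      have hqw := hadm.right
      have hwW := hadm.1
      have hWne : W ≠ {w} := by
        intro h4
        rw [h4, Finset.card_singleton] at h2
        omega
      obtain ⟨hT', hNN'⟩ := fold_tight_of_mem h hadm (h.all hne) hwW hWne
      have hpNN : p ∈ NN N W := N_subset_NN hwW hpw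
      have hinj : ∀ x ∈ ({a, b, c, d} : Finset V), ∀ y ∈ ({a, b, c, d} : Finset V),
          rr p q x = rr p q y → x = y := by
        intro x hx y hy hxy
        by_cases hxq : x = q
        · by_cases hyq : y = q
          · rw [hxq, hyq]
          · rw [hxq, rr_self, rr_of_ne hyq] at hxy
            exact absurd (pair_subset.2 ⟨hxy ▸ hy, hxq ▸ hx⟩) hX
        · by_cases hyq : y = q
          · rw [hyq, rr_self, rr_of_ne hxq] at hxy
            exact absurd (pair_subset.2 ⟨hxy ▸ hx, hyq ▸ hy⟩) hX
          · rwa [rr_of_ne hxq, rr_of_ne hyq] at hxy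
      have hnd' : [rr p q a, rr p q b, rr p q c, rr p q d].Nodup := by
        have h4 : ([a, b, c, d].map (rr p q)).Nodup := by
          refine List.Nodup.map_on ?_ hnd
          intro x hx y hy hxy
          refine hinj x ?_ y ?_ hxy
          · simpa using hx
          · simpa using hy
        exact h4
      have hmem : ∀ x ∈ NN N W, rr p q x ∈ NN (fN p q N) (W.erase w) := by
        intro x hx
        rw [hNN']
        exact Finset.mem_image_of_mem _ hx
      have hnot : ∀ x ∈ insert w0 W, x ∉ NN (fN p q N) (W.erase w) := by
        intro x hx hxN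
        rw [hNN'] at hxN
        obtain ⟨y, hy, hyx⟩ := Finset.mem_image.1 hxN
        by_cases hyq : y = q
        · rw [hyq, rr_self] at hyx
          exact hWN x hx (hyx ▸ hpNN)
        · rw [rr_of_ne hyq] at hyx
          exact hWN x hx (hyx ▸ hy)
      have hcard : (W.erase w).card = n := by
        rw [Finset.card_erase_of_mem hwW, hn]
        rfl
      have hne' : (W.erase w).Nonempty := by
        rw [← Finset.card_pos, Finset.card_erase_of_mem hwW]
        omega
      have hr := fold_rigid h hadm h2
      have hww0 : w ≠ w0 := by
        rintro rfl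
        exact hw0 hwW
      have hWN' : ∀ x ∈ insert w0 W, x ∉ NN N (insert w0 W) := by
        rw [hNNins]
        exact hWN
      by_cases hboth : p ∈ N w0 ∧ q ∈ N w0
      · -- fold at `w0`
        have hc3 : (fN p q N w).card = 3 := by
          have h4 := card_image_rr hpq (N w)
          rw [if_pos ⟨hpw, hqw⟩, h.four w hwW] at h4
          have h5 : ((N w).image (rr p q)).card = 3 := by omega
          exact h5
        have hs' : fN p q N w ⊆ NN (fN p q N) (W.erase w) := by
          rw [hNN']
          exact Finset.image_subset_image (N_subset_NN hwW)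
        have hTK := ih (W.erase w) (fN p q N) w (rr p q a) (rr p q b) (rr p q c) (rr p q d)
          hcard hr hne' (Finset.notMem_erase _ _) hc3 hs'
          (by
            intro x hx
            rw [Finset.insert_erase hwW] at hx
            exact hnot x (Finset.mem_insert_of_mem hx))
          (hmem a ha) (hmem b hb) (hmem c hc) (hmem d hd) hnd'
        rw [Finset.insert_erase hwW] at hTK
        refine JG_fold (w := w0) hpq (Finset.mem_insert_self _ _) hboth.1 hboth.2 hWN'
          (hNNins ▸ ha) (hNNins ▸ hb) (hNNins ▸ hc) (hNNins ▸ hd) ?_
        rw [Finset.erase_insert hw0]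
        exact hTK
      · -- fold at `w`
        have hc3 : (fN p q N w0).card = 3 := by
          have h4 := card_image_rr hpq (N w0)
          rw [if_neg hboth, h3] at h4
          exact h4
        have hs' : fN p q N w0 ⊆ NN (fN p q N) (W.erase w) := by
          rw [hNN']
          exact Finset.image_subset_image hsub
        have hTK := ih (W.erase w) (fN p q N) w0 (rr p q a) (rr p q b) (rr p q c) (rr p q d)
          hcard hr hne' (fun h4 => hw0 (Finset.mem_of_mem_erase h4)) hc3 hs'
          (by
            intro x hx
            refine hnot x ?_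
            rcases Finset.mem_insert.1 hx with h4 | h4
            · rw [h4]
              exact Finset.mem_insert_self _ _
            · exact Finset.mem_insert_of_mem (Finset.mem_of_mem_erase h4))
          (hmem a ha) (hmem b hb) (hmem c hc) (hmem d hd) hnd'
        refine JG_fold (w := w) hpq (Finset.mem_insert_of_mem hwW) hpw hqw hWN'
          (hNNins ▸ ha) (hNNins ▸ hb) (hNNins ▸ hc) (hNNins ▸ hd) ?_
        rw [Finset.erase_insert_of_ne hww0.symm]
        exact hTK

end Pool.Agent.TOKST
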