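import Mathlib
import Pool.Agent.TOKST.Base

/-!
# Module SHRINK (Lovasz 1970): neighbourhoods can be shrunk to size four

Paper proof.  Choose `N1` with `N1 w ⊆ N w` (all `w`), `N1 w = N w` for `w ∉ W`, `Sur W N1` and `∑_{w ∈ W} |N1 w|` minimal (well-founded minimum over `ℕ`; `N` itself is a candidate).
Each `|N1 w| ≥ 4` (`Sur` for `{w}`).  Suppose `w ∈ W`, `|N1 w| ≥ 5`.  For `a ∈ N1 w`, replacing `N1 w` by `(N1 w).erase a` (`Function.update`) destroys `Sur` (minimality): some nonempty `Y ⊆ W` has new neighbourhood of size `< |Y| + 3`;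
`w ∈ Y`, and the new neighbourhood of `Y` contains `NN N1 Y \ {a}`, so `Y` is tight and `a ∉ NN N1 (Y.erase w)`.  Call it `Y_a`.
Take a tight set `Y*` containing `w` of minimal cardinality: by `uncross` it is contained in every tight set containing `w`.  So no `a ∈ N1 w` is in `NN N1 (Y*.erase w)`:
`|NN N1 Y*| = |N1 w| + |NN N1 (Y*.erase w)|`; if `Y*.erase w` is nonempty, this is `≥ 5 + (|Y*| - 1 + 3) > |Y*| + 3`; if `Y* = {w}` it is `≥ 5 > 4`.  Contradiction.
-/

set_option autoImplicit false
set_option linter.unusedSectionVars false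

namespace Pool.Agent.TOKST

variable {ι α : Type} [DecidableEq ι] [DecidableEq α]

namespace ShrinkAux

/-- one removal destroys the surplus only through a tight set -/
theorem bad_set {W : Finset ι} {N : ι → Finset α} (hS : Sur W N) {w : ι} {a : α}
    (hn : ¬ Sur W (Function.update N w ((N w).erase a))) :
    ∃ Y, Tight W N Y ∧ w ∈ Y ∧ a ∉ NN N (Y.erase w) := by
  unfold Sur at hn
  push Not at hn
  obtain ⟨Y, hYW, hYne, hlt⟩ := hn
  have hoff : ∀ v, v ≠ w → Function.update N w ((N w).erase a) v = N v :=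
    fun v hv => Function.update_of_ne hv _ _
  have hat : Function.update N w ((N w).erase a) w = (N w).erase a := Function.update_self _ _ _
  have hSY := hS Y hYW hYne
  have hwY : w ∈ Y := by
    by_contra hwY
    have h1 : NN (Function.update N w ((N w).erase a)) Y = NN N Y := by
      unfold NN
      refine Finset.biUnion_congr rfl ?_
      intro v hv
      exact hoff v (fun h => hwY (h ▸ hv))
    rw [h1] at hlt
    omega
  -- the new neighbourhood contains the old one without `a`
  have hsub : (NN N Y).erase a ⊆ NN (Function.update N w ((N w).erase a)) Y := by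
    intro b hb
    obtain ⟨hba, hb⟩ := Finset.mem_erase.1 hb
    obtain ⟨v, hv, hbv⟩ := mem_NN.1 hb
    refine mem_NN.2 ⟨v, hv, ?_⟩
    by_cases hvw : v = w
    · subst hvw
      rw [hat]
      exact Finset.mem_erase.2 ⟨hba, hbv⟩
    · rw [hoff v hvw]
      exact hbv
  have hrest : NN N (Y.erase w) ⊆ NN (Function.update N w ((N w).erase a)) Y := by
    intro b hb
    obtain ⟨v, hv, hbv⟩ := mem_NN.1 hb
    obtain ⟨hvw, hvY⟩ := Finset.mem_erase.1 hv
    refine mem_NN.2 ⟨v, hvY, ?_⟩
    rw [hoff v hvw]
    exact hbv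
  have h2 := Finset.card_le_card hsub
  have h3 : (NN N Y).card - 1 ≤ ((NN N Y).erase a).card := Finset.pred_card_le_card_erase
  refine ⟨Y, ⟨hYW, hYne, by omega⟩, hwY, ?_⟩
  intro ha
  have h4 : NN N Y ⊆ NN (Function.update N w ((N w).erase a)) Y := by
    intro b hb
    by_cases hba : b = a
    · rw [hba]
      exact hrest ha
    · exact hsub (Finset.mem_erase.2 ⟨hba, hb⟩)
  have h5 := Finset.card_le_card h4
  omega

/-- if `|N w| ≥ 5`, some neighbour of `w` can be removed -/
theorem step {W : Finset ι} {N : ι → Finset α} (hS : Sur W N) {w : ι}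
    (h5 : 5 ≤ (N w).card) : ∃ a ∈ N w, Sur W (Function.update N w ((N w).erase a)) := by
  classical
  by_contra hcon
  push Not at hcon
  have hbad : ∀ a ∈ N w, ∃ Y, Tight W N Y ∧ w ∈ Y ∧ a ∉ NN N (Y.erase w) :=
    fun a ha => bad_set hS (hcon a ha)
  have hne : (W.powerset.filter fun Y => Tight W N Y ∧ w ∈ Y).Nonempty := by
    obtain ⟨a, ha⟩ := Finset.card_pos.1 (show 0 < (N w).card by omega)
    obtain ⟨Y, hY, hwY, _⟩ := hbad a ha
    exact ⟨Y, Finset.mem_filter.2 ⟨Finset.mem_powerset.2 hY.sub, hY, hwY⟩⟩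
  obtain ⟨Z, hZ, hmin⟩ := Finset.exists_min_image _ Finset.card hne
  obtain ⟨_, hZt, hwZ⟩ := Finset.mem_filter.1 hZ
  have hleast : ∀ Y, Tight W N Y → w ∈ Y → Z ⊆ Y := by
    intro Y hY hwY
    have hne' : (Z ∩ Y).Nonempty := ⟨w, Finset.mem_inter.2 ⟨hwZ, hwY⟩⟩
    have ht := (uncross hS hZt hY hne').2.1
    have h1 := hmin (Z ∩ Y) (Finset.mem_filter.2
      ⟨Finset.mem_powerset.2 ht.sub, ht, Finset.mem_inter.2 ⟨hwZ, hwY⟩⟩)
    have h2 : Z ∩ Y = Z := Finset.eq_of_subset_of_card_le Finset.inter_subset_left h1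
    exact Finset.inter_eq_left.1 h2
  have hdisj : Disjoint (N w) (NN N (Z.erase w)) := by
    rw [Finset.disjoint_left]
    intro a ha haZ
    obtain ⟨Y, hY, hwY, haY⟩ := hbad a ha
    exact haY (NN_mono (Finset.erase_subset_erase w (hleast Y hY hwY)) haZ)
  have hcard : (NN N Z).card = (N w).card + (NN N (Z.erase w)).card := by
    rw [← Finset.card_union_of_disjoint hdisj, ← NN_insert, Finset.insert_erase hwZ]
  have hZc := hZt.card
  have hec := Finset.card_erase_add_one hwZ
  rcases Finset.eq_empty_or_nonempty (Z.erase w) with he | he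
  · rw [he, NN_empty, Finset.card_empty] at hcard
    rw [he, Finset.card_empty] at hec
    omega
  · have h6 := hS _ ((Finset.erase_subset _ _).trans hZt.sub) he
    omega

end ShrinkAux

theorem shrink (W : Finset ι) (N : ι → Finset α) (h : Sur W N) :
    ∃ N1 : ι → Finset α, (∀ w, N1 w ⊆ N w) ∧ (∀ w, w ∉ W → N1 w = N w) ∧
      (∀ w ∈ W, (N1 w).card = 4) ∧ Sur W N1 := by
  classical
  induction hn : ∑ w ∈ W, (N w).card using Nat.strong_induction_on generalizing N with
  | _ n ih =>
    by_cases hall : ∀ w ∈ W, (N w).card = 4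
    · exact ⟨N, fun _ => subset_rfl, fun _ _ => rfl, hall, h⟩
    · push Not at hall
      obtain ⟨w, hw, hw4⟩ := hall
      have h4 := h {w} (Finset.singleton_subset_iff.2 hw) (Finset.singleton_nonempty w)
      rw [NN_singleton, Finset.card_singleton] at h4
      obtain ⟨a, ha, hSa⟩ := ShrinkAux.step h (w := w) (by omega)
      have hsubN : ∀ v, Function.update N w ((N w).erase a) v ⊆ N v := by
        intro v
        by_cases hvw : v = w
        · subst hvw
          rw [Function.update_self]
          exact Finset.erase_subset _ _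
        · rw [Function.update_of_ne hvw]
      have hlt : ∑ v ∈ W, (Function.update N w ((N w).erase a) v).card < n := by
        rw [← hn]
        refine Finset.sum_lt_sum (fun v _ => Finset.card_le_card (hsubN v)) ⟨w, hw, ?_⟩
        rw [Function.update_self]
        exact Finset.card_erase_lt_of_mem ha
      obtain ⟨N1, h1, h2, h3, h5⟩ := ih _ hlt _ hSa rfl
      refine ⟨N1, fun v => (h1 v).trans (hsubN v), ?_, h3, h5⟩
      intro v hv
      rw [h2 v hv, Function.update_of_ne]
      rintro rfl
      exact hv hw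

end Pool.Agent.TOKST
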