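import Mathlib
import Pool.Agent.TOKST.Main
import Pool.Agent.TOKST.Shrink

/-!
# Module COR: the corollary (5')

`cor5`: take `w0 ∈ W`, `W' = W.erase w0` (nonempty).  `Sur W' N` (proper subsets of `W`).  `|NN N W'| ≥ |W'| + 3 = |W| + 2 = |NN N W|`, so `NN N W' = NN N W`.  `shrink W' N` gives `N1`; `NN N1 W' ⊆ NN N W'` and `|NN N1 W'| ≥ |W'| + 3`, so they are equal
and `Rigid W' N1`.  `|N w0| ≥ 4` (`Sur` for `{w0} ≠ W`): choose `τ ⊆ N w0` with `|τ| = 3`, `N2 = Function.update N1 w0 τ`.  `theoremT_aux` for `W', N2, w0`; `JG (insert w0 W') N2 a b c d ≤ JG W N a b c d` (`TK.mono`).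
-/

set_option autoImplicit false
set_option linter.unusedSectionVars false

namespace Pool.Agent.TOKST

variable {V : Type} [DecidableEq V]

/-- a change outside `Y` does not change the neighbourhood of `Y` -/
theorem NN_update_of_notMem (N : V → Finset V) (w0 : V) (τ : Finset V) {Y : Finset V}
    (h : w0 ∉ Y) : NN (Function.update N w0 τ) Y = NN N Y := by
  ext x
  rw [mem_NN, mem_NN]
  constructor
  · rintro ⟨w, hw, hx⟩
    have hne : w ≠ w0 := fun h' => h (h' ▸ hw)
    rw [Function.update_of_ne hne] at hx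
    exact ⟨w, hw, hx⟩
  · rintro ⟨w, hw, hx⟩
    have hne : w ≠ w0 := fun h' => h (h' ▸ hw)
    refine ⟨w, hw, ?_⟩
    rw [Function.update_of_ne hne]
    exact hx

theorem cor5 {W : Finset V} {N : V → Finset V} (hW : 2 ≤ W.card)
    (hs : ∀ Y, Y ⊆ W → Y.Nonempty → Y ≠ W → Y.card + 3 ≤ (NN N Y).card)
    (ht : (NN N W).card = W.card + 2) (hWN : ∀ w ∈ W, w ∉ NN N W) {a b c d : V}
    (ha : a ∈ NN N W) (hb : b ∈ NN N W) (hc : c ∈ NN N W) (hd : d ∈ NN N W)
    (hnd : [a, b, c, d].Nodup) : TK (JG W N a b c d) := by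
  obtain ⟨w0, hw0⟩ : W.Nonempty := Finset.card_pos.1 (by omega)
  have hcard : (W.erase w0).card + 1 = W.card := Finset.card_erase_add_one hw0
  have hne : (W.erase w0).Nonempty := Finset.card_pos.1 (by omega)
  have hnot : w0 ∉ W.erase w0 := Finset.notMem_erase w0 W
  have hsub : W.erase w0 ⊆ W := Finset.erase_subset w0 W
  have hins : insert w0 (W.erase w0) = W := Finset.insert_erase hw0
  have hSur : Sur (W.erase w0) N := by
    intro Y hY hYne
    refine hs Y (hY.trans hsub) hYne ?_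
    intro h'
    exact hnot (hY (h' ▸ hw0))
  have hEq : NN N (W.erase w0) = NN N W := by
    refine Finset.eq_of_subset_of_card_le (NN_mono hsub) ?_
    have := hSur _ subset_rfl hne
    omega
  obtain ⟨N1, hN1sub, -, hfour, hSur1⟩ := shrink (W.erase w0) N hSur
  have hsub1 : NN N1 (W.erase w0) ⊆ NN N (W.erase w0) := by
    intro x hx
    obtain ⟨w, hw, hxw⟩ := mem_NN.1 hx
    exact mem_NN.2 ⟨w, hw, hN1sub w hxw⟩
  have hEq1 : NN N1 (W.erase w0) = NN N (W.erase w0) := by
    refine Finset.eq_of_subset_of_card_le hsub1 ?_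
    have := hSur1 _ subset_rfl hne
    rw [hEq]
    omega
  have h4 : 3 ≤ (N w0).card := by
    have h := hs {w0} (Finset.singleton_subset_iff.2 hw0) (Finset.singleton_nonempty _) (by
      intro h'
      rw [← h', Finset.card_singleton] at hW
      omega)
    rw [NN_singleton, Finset.card_singleton] at h
    omega
  obtain ⟨τ, hτ, hτ3⟩ := Finset.exists_subset_card_eq h4
  have hupd : ∀ Y : Finset V, Y ⊆ W.erase w0 → NN (Function.update N1 w0 τ) Y = NN N1 Y :=
    fun Y hY => NN_update_of_notMem N1 w0 τ (fun h' => hnot (hY h'))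
  have hNN2 : NN (Function.update N1 w0 τ) (W.erase w0) = NN N W := by
    rw [hupd _ subset_rfl, hEq1, hEq]
  have hRig : Rigid (W.erase w0) (Function.update N1 w0 τ) := by
    refine ⟨?_, ?_, ?_⟩
    · intro w hw
      have hwne : w ≠ w0 := fun h' => hnot (h' ▸ hw)
      rw [Function.update_of_ne hwne]
      exact hfour w hw
    · intro Y hY hYne
      rw [hupd Y hY]
      exact hSur1 Y hY hYne
    · rw [hNN2]
      omega
  have hτN : Function.update N1 w0 τ w0 = τ := Function.update_self ..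
  have hT := theoremT_aux (W.erase w0).card (W.erase w0) (Function.update N1 w0 τ) w0 a b c d
    rfl hRig hne hnot (by rw [hτN]; exact hτ3)
    (by rw [hτN, hNN2]; exact hτ.trans (N_subset_NN hw0))
    (by rw [hins, hNN2]; exact hWN)
    (by rw [hNN2]; exact ha) (by rw [hNN2]; exact hb) (by rw [hNN2]; exact hc)
    (by rw [hNN2]; exact hd) hnd
  rw [hins] at hT
  refine hT.mono ?_
  have key : ∀ u v, v ∈ Function.update N1 w0 τ u → v ∈ N u := by
    intro u v h
    by_cases hu : u = w0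
    · subst hu
      rw [Function.update_self] at h
      exact hτ h
    · rw [Function.update_of_ne hu] at h
      exact hN1sub u h
  intro u v huv
  unfold JG at huv ⊢
  rw [SimpleGraph.fromRel_adj] at huv ⊢
  obtain ⟨hne', h⟩ := huv
  refine ⟨hne', ?_⟩
  rcases h with (⟨h1, h2⟩ | h) | (⟨h1, h2⟩ | h)
  · exact Or.inl (Or.inl ⟨h1, key _ _ h2⟩)
  · exact Or.inl (Or.inr h)
  · exact Or.inr (Or.inl ⟨h1, key _ _ h2⟩)
  · exact Or.inr (Or.inr h)

end Pool.Agent.TOKST
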