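import Mathlib
import Pool.Agent.TOKST.Defs

/-!
# Module TKSUBST: edges may be replaced by odd paths

`S u v` is the list of the inner vertices of the path of `G` which replaces the edge `u v` of `J`.
Paper proof.  For a list `l` and a vertex `u` put `ex u [] = []`-style expansion: `E u (x :: l) = S u x ++ x :: E x l` and `E u [] = []`; for the pair `(i, j)` take `L' i j` with
`L' i j ++ [a j] = E (a i) (L i j ++ [a j])` (e.g. `L' i j = (E (a i) (L i j ++ [a j])).dropLast`, or define `F u v l` by `F u v [] = S u v`, `F u v (x :: l) = S u x ++ x :: F x v l`, and `L' i j = F (a i) (a j) (L i j)`).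
`F` is compatible with `reverse` (`F u v (l ++ [x]) = F u x l ++ x :: S x v` first), it is a `G`-chain, its length is `|l|` plus the even numbers `|S ..|`, hence even.
The elements of `F u v l` are the elements of `l` and those of the `S x y` for the consecutive pairs `(x, y)` of `u :: l ++ [v]`.  `nodup`, `out`, `disj`: by `hout`, `hnodup`, `hdisj`; the consecutive pairs of one path are pairwise different as unordered pairs
and different from those of the other paths, because the vertices of the paths are different except for common ends (`u :: l ++ [v]` is nodup; two paths `(i,j) ≠ (k,l)` have at most one common vertex, an edge has two).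
-/

set_option autoImplicit false
set_option linter.unusedSectionVars false

namespace Pool.Agent.TOKST

variable {V : Type} {J G : SimpleGraph V}

/-- the list `l` of the inner vertices of a path from `u` to `v`, with the edges expanded -/
def FF (S : V → V → List V) (v : V) : V → List V → List V
  | u, [] => S u v
  | u, x :: l => S u x ++ x :: FF S v x l

/-- the consecutive pairs of `u :: (l ++ [v])` -/
def pr (v : V) : V → List V → List (V × V)
  | u, [] => [(u, v)]
  | u, x :: l => (u, x) :: pr v x l

theorem pr_adj {v : V} {l : List V} : ∀ {u : V}, List.IsChain J.Adj (u :: (l ++ [v])) →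
    ∀ p ∈ pr v u l, J.Adj p.1 p.2 := by
  induction l with
  | nil =>
    intro u h p hp
    have hp' : p = (u, v) := List.mem_singleton.1 hp
    rw [hp']
    exact (List.isChain_cons_cons.1 h).1
  | cons x l ih =>
    intro u h p hp
    have h1 := List.isChain_cons_cons.1 (show List.IsChain J.Adj (u :: x :: (l ++ [v])) from h)
    rcases List.mem_cons.1 (show p ∈ (u, x) :: pr v x l from hp) with rfl | hp
    · exact h1.1
    · exact ih h1.2 p hp

theorem pr_mem {v : V} {l : List V} : ∀ {u : V}, ∀ p ∈ pr v u l,
    p.1 ∈ u :: (l ++ [v]) ∧ p.2 ∈ l ++ [v] := by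
  induction l with
  | nil =>
    intro u p hp
    have hp' : p = (u, v) := List.mem_singleton.1 hp
    rw [hp']
    exact ⟨List.mem_cons_self, List.mem_singleton.2 rfl⟩
  | cons x l ih =>
    intro u p hp
    rcases List.mem_cons.1 (show p ∈ (u, x) :: pr v x l from hp) with rfl | hp
    · exact ⟨List.mem_cons_self, List.mem_cons_self⟩
    · obtain ⟨h1, h2⟩ := ih p hp
      exact ⟨List.mem_cons_of_mem _ h1, List.mem_cons_of_mem _ h2⟩

theorem exists_adj {v : V} {l : List V} : ∀ {u : V}, List.IsChain J.Adj (u :: (l ++ [v])) →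
    ∀ x ∈ u :: l, ∃ y, J.Adj x y := by
  induction l with
  | nil =>
    intro u h x hx
    rw [List.mem_singleton.1 hx]
    exact ⟨v, (List.isChain_cons_cons.1 h).1⟩
  | cons z l ih =>
    intro u h x hx
    have h1 := List.isChain_cons_cons.1 (show List.IsChain J.Adj (u :: z :: (l ++ [v])) from h)
    rcases List.mem_cons.1 hx with rfl | hx
    · exact ⟨z, h1.1⟩
    · exact ih h1.2 x hx

theorem mem_FF {S : V → V → List V} {v : V} {l : List V} : ∀ {u z : V}, z ∈ FF S v u l →
    z ∈ l ∨ ∃ p ∈ pr v u l, z ∈ S p.1 p.2 := by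
  induction l with
  | nil =>
    intro u z hz
    exact Or.inr ⟨(u, v), List.mem_singleton.2 rfl, hz⟩
  | cons x l ih =>
    intro u z hz
    rcases List.mem_append.1 (show z ∈ S u x ++ x :: FF S v x l from hz) with hz | hz
    · exact Or.inr ⟨(u, x), List.mem_cons_self, hz⟩
    · rcases List.mem_cons.1 hz with rfl | hz
      · exact Or.inl List.mem_cons_self
      · rcases ih hz with h1 | ⟨p, hp, h1⟩
        · exact Or.inl (List.mem_cons_of_mem _ h1)
        · exact Or.inr ⟨p, List.mem_cons_of_mem _ hp, h1⟩

theorem FF_append {S : V → V → List V} {v x : V} {l : List V} : ∀ {u : V},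
    FF S v u (l ++ [x]) = FF S x u l ++ x :: S x v := by
  induction l with
  | nil => intro u; rfl
  | cons z l ih =>
    intro u
    show S u z ++ z :: FF S v z (l ++ [x]) = (S u z ++ z :: FF S x z l) ++ x :: S x v
    rw [ih]
    simp

theorem FF_reverse {S : V → V → List V} (hsymm : ∀ u v, J.Adj u v → S v u = (S u v).reverse)
    {v : V} {l : List V} : ∀ {u : V}, List.IsChain J.Adj (u :: (l ++ [v])) →
    FF S u v l.reverse = (FF S v u l).reverse := by
  induction l with
  | nil =>
    intro u h
    exact hsymm u v (List.isChain_cons_cons.1 h).1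
  | cons x l ih =>
    intro u h
    have h1 := List.isChain_cons_cons.1 (show List.IsChain J.Adj (u :: x :: (l ++ [v])) from h)
    rw [List.reverse_cons, FF_append, ih h1.2, hsymm u x h1.1]
    show _ = (S u x ++ x :: FF S v x l).reverse
    simp

theorem FF_chain {S : V → V → List V}
    (hchain : ∀ u v, J.Adj u v → List.IsChain G.Adj (u :: (S u v ++ [v])))
    {v : V} {l : List V} : ∀ {u : V}, List.IsChain J.Adj (u :: (l ++ [v])) →
    List.IsChain G.Adj (u :: (FF S v u l ++ [v])) := by
  induction l with
  | nil =>
    intro u h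
    exact hchain u v (List.isChain_cons_cons.1 h).1
  | cons x l ih =>
    intro u h
    have h1 := List.isChain_cons_cons.1 (show List.IsChain J.Adj (u :: x :: (l ++ [v])) from h)
    have h2 : u :: (FF S v u (x :: l) ++ [v]) =
        (u :: S u x) ++ x :: (FF S v x l ++ [v]) := by
      show u :: ((S u x ++ x :: FF S v x l) ++ [v]) = _
      simp
    rw [h2, List.isChain_split]
    exact ⟨hchain u x h1.1, ih h1.2⟩

theorem FF_even {S : V → V → List V} (heven : ∀ u v, J.Adj u v → Even (S u v).length)
    {v : V} {l : List V} : ∀ {u : V}, List.IsChain J.Adj (u :: (l ++ [v])) →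
    Even ((FF S v u l).length + l.length) := by
  induction l with
  | nil =>
    intro u h
    exact heven u v (List.isChain_cons_cons.1 h).1
  | cons x l ih =>
    intro u h
    have h1 := List.isChain_cons_cons.1 (show List.IsChain J.Adj (u :: x :: (l ++ [v])) from h)
    have h2 : (FF S v u (x :: l)).length + (x :: l).length =
        (S u x).length + ((FF S v x l).length + l.length) + 2 := by
      show (S u x ++ x :: FF S v x l).length + (l.length + 1) = _
      rw [List.length_append, List.length_cons]
      omega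
    rw [h2]
    exact ((heven u x h1.1).add (ih h1.2)).add even_two

theorem FF_nodup {S : V → V → List V} (hnodup : ∀ u v, J.Adj u v → (S u v).Nodup)
    (hout : ∀ u v x y, J.Adj u v → J.Adj x y → x ∉ S u v)
    (hdisj : ∀ u v x y, J.Adj u v → J.Adj x y → s(u, v) ≠ s(x, y) → ∀ z ∈ S u v, z ∉ S x y)
    {v : V} {l : List V} : ∀ {u : V}, List.IsChain J.Adj (u :: (l ++ [v])) →
    (u :: (l ++ [v])).Nodup → (FF S v u l).Nodup := by
  induction l with
  | nil =>
    intro u h _
    exact hnodup u v (List.isChain_cons_cons.1 h).1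
  | cons x l ih =>
    intro u h hn
    have h1 := List.isChain_cons_cons.1 (show List.IsChain J.Adj (u :: x :: (l ++ [v])) from h)
    have hn1 := List.nodup_cons.1 (show (u :: x :: (l ++ [v])).Nodup from hn)
    have hn2 := List.nodup_cons.1 hn1.2
    obtain ⟨y, hy⟩ := exists_adj h1.2 x List.mem_cons_self
    have hS : ∀ z ∈ l, ∀ p ∈ pr v x l, z ∉ S p.1 p.2 := by
      intro z hz p hp
      obtain ⟨y, hy⟩ := exists_adj h1.2 z (List.mem_cons_of_mem _ hz)
      exact hout _ _ z y (pr_adj h1.2 p hp) hy
    show (S u x ++ x :: FF S v x l).Nodup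
    rw [List.nodup_append, List.nodup_cons]
    refine ⟨hnodup u x h1.1, ⟨?_, ih h1.2 hn1.2⟩, ?_⟩
    · intro hx
      rcases mem_FF hx with h2 | ⟨p, hp, h2⟩
      · exact hn2.1 (List.mem_append_left _ h2)
      · exact hout _ _ x y (pr_adj h1.2 p hp) hy h2
    · intro z hz w hw hzw
      subst hzw
      rcases List.mem_cons.1 hw with rfl | hw
      · exact hout _ _ _ y h1.1 hy hz
      · rcases mem_FF hw with h2 | ⟨p, hp, h2⟩
        · obtain ⟨y', hy'⟩ := exists_adj h1.2 z (List.mem_cons_of_mem _ h2)
          exact hout _ _ z y' h1.1 hy' hz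
        · refine hdisj u x p.1 p.2 h1.1 (pr_adj h1.2 p hp) ?_ z hz h2
          intro h3
          obtain ⟨h4, h5⟩ := pr_mem p hp
          rw [Sym2.eq_iff] at h3
          rcases h3 with ⟨h3, -⟩ | ⟨h3, -⟩
          · rw [← h3] at h4
            exact hn1.1 h4
          · rw [← h3] at h5
            exact hn1.1 (List.mem_cons_of_mem _ h5)

theorem TK_subst (S : V → V → List V)
    (hsymm : ∀ u v, J.Adj u v → S v u = (S u v).reverse)
    (hchain : ∀ u v, J.Adj u v → List.IsChain G.Adj (u :: (S u v ++ [v])))
    (heven : ∀ u v, J.Adj u v → Even (S u v).length)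
    (hnodup : ∀ u v, J.Adj u v → (S u v).Nodup)
    (hout : ∀ u v x y, J.Adj u v → J.Adj x y → x ∉ S u v)
    (hdisj : ∀ u v x y, J.Adj u v → J.Adj x y → s(u, v) ≠ s(x, y) → ∀ z ∈ S u v, z ∉ S x y)
    (h : TK J) : TK G := by
  classical
  obtain ⟨a, L, hL⟩ := h
  -- every branch vertex has a neighbour
  have hadja : ∀ m, ∃ y, J.Adj (a m) y := by
    intro m
    obtain ⟨k, hk⟩ := exists_ne m
    exact exists_adj (hL.chain m k hk.symm) (a m) List.mem_cons_self
  have hadjL : ∀ i j, i ≠ j → ∀ x ∈ L i j, ∃ y, J.Adj x y := fun i j hij x hx =>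
    exists_adj (hL.chain i j hij) x (List.mem_cons_of_mem _ hx)
  refine ⟨a, fun i j => if i = j then [] else FF S (a j) (a i) (L i j), hL.inj, ?_, ?_, ?_, ?_,
    ?_, ?_⟩
  · intro i j
    by_cases hij : i = j
    · subst hij
      simp
    · rw [if_neg hij, if_neg (fun h => hij h.symm), hL.symm i j]
      exact FF_reverse hsymm (hL.chain i j hij)
  · intro i j hij
    rw [if_neg hij]
    exact FF_chain hchain (hL.chain i j hij)
  · intro i j hij
    rw [if_neg hij]
    have h1 := FF_even heven (hL.chain i j hij)
    exact (Nat.even_add.1 h1).2 (hL.even i j hij)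
  · intro i j hij
    rw [if_neg hij]
    refine FF_nodup hnodup hout hdisj (hL.chain i j hij) ?_
    rw [List.nodup_cons, List.nodup_append]
    refine ⟨?_, hL.nodup i j hij, List.nodup_singleton _, ?_⟩
    · intro h1
      rcases List.mem_append.1 h1 with h1 | h1
      · exact hL.out i j i hij h1
      · exact hij (hL.inj (List.mem_singleton.1 h1))
    · intro x hx y hy hxy
      rw [List.mem_singleton.1 hy] at hxy
      rw [hxy] at hx
      exact hL.out i j j hij hx
  · intro i j m hij hm
    rw [if_neg hij] at hm
    rcases mem_FF hm with h1 | ⟨p, hp, h1⟩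
    · exact hL.out i j m hij h1
    · obtain ⟨y, hy⟩ := hadja m
      exact hout _ _ _ y (pr_adj (hL.chain i j hij) p hp) hy h1
  · intro i j k l hij hkl hne x hx hx'
    rw [if_neg hij] at hx
    rw [if_neg hkl] at hx'
    rcases mem_FF hx with h1 | ⟨p, hp, h1⟩ <;> rcases mem_FF hx' with h2 | ⟨p', hp', h2⟩
    · exact hL.disj i j k l hij hkl hne x h1 h2
    · obtain ⟨y, hy⟩ := hadjL i j hij x h1
      exact hout _ _ _ y (pr_adj (hL.chain k l hkl) p' hp') hy h2
    · obtain ⟨y, hy⟩ := hadjL k l hkl x h2
      exact hout _ _ _ y (pr_adj (hL.chain i j hij) p hp) hy h1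
    · have ad := pr_adj (hL.chain i j hij) p hp
      have ad' := pr_adj (hL.chain k l hkl) p' hp'
      refine hdisj _ _ _ _ ad ad' ?_ x h1 h2
      intro he
      -- both ends of the edge are common vertices of the two paths
      have hmem : ∀ z, z ∈ s(p.1, p.2) → z = a i ∨ z = a j ∨ z ∈ L i j := by
        intro z hz
        obtain ⟨h3, h4⟩ := pr_mem p hp
        have key : ∀ z, z ∈ a i :: (L i j ++ [a j]) → z = a i ∨ z = a j ∨ z ∈ L i j := by
          intro z hz
          rcases List.mem_cons.1 hz with hz | hz
          · exact Or.inl hz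
          · rcases List.mem_append.1 hz with hz | hz
            · exact Or.inr (Or.inr hz)
            · exact Or.inr (Or.inl (List.mem_singleton.1 hz))
        rcases Sym2.mem_iff.1 hz with rfl | rfl
        · exact key _ h3
        · exact key _ (List.mem_cons_of_mem _ h4)
      have hmem' : ∀ z, z ∈ s(p.1, p.2) → z = a k ∨ z = a l ∨ z ∈ L k l := by
        intro z hz
        rw [he] at hz
        obtain ⟨h3, h4⟩ := pr_mem p' hp'
        have key : ∀ z, z ∈ a k :: (L k l ++ [a l]) → z = a k ∨ z = a l ∨ z ∈ L k l := by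
          intro z hz
          rcases List.mem_cons.1 hz with hz | hz
          · exact Or.inl hz
          · rcases List.mem_append.1 hz with hz | hz
            · exact Or.inr (Or.inr hz)
            · exact Or.inr (Or.inl (List.mem_singleton.1 hz))
        rcases Sym2.mem_iff.1 hz with rfl | rfl
        · exact key _ h3
        · exact key _ (List.mem_cons_of_mem _ h4)
      have hind : ∀ z, z ∈ s(p.1, p.2) → ∃ m, z = a m ∧ (m = i ∨ m = j) ∧ (m = k ∨ m = l) := by
        intro z hz
        rcases hmem z hz with rfl | rfl | h3 <;> rcases hmem' _ hz with h4 | h4 | h4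
        · exact ⟨i, rfl, Or.inl rfl, Or.inl (hL.inj h4)⟩
        · exact ⟨i, rfl, Or.inl rfl, Or.inr (hL.inj h4)⟩
        · exact absurd h4 (hL.out k l i hkl)
        · exact ⟨j, rfl, Or.inr rfl, Or.inl (hL.inj h4)⟩
        · exact ⟨j, rfl, Or.inr rfl, Or.inr (hL.inj h4)⟩
        · exact absurd h4 (hL.out k l j hkl)
        · rw [h4] at h3
          exact absurd h3 (hL.out i j k hij)
        · rw [h4] at h3
          exact absurd h3 (hL.out i j l hij)
        · exact absurd h4 (hL.disj i j k l hij hkl hne z h3)
      obtain ⟨m, hm, hm1, hm2⟩ := hind p.1 (Sym2.mem_mk_left _ _)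
      obtain ⟨m', hm', hm1', hm2'⟩ := hind p.2 (Sym2.mem_mk_right _ _)
      have hmm : m ≠ m' := by
        rintro rfl
        exact ad.ne (hm.trans hm'.symm)
      apply hne
      rw [Sym2.eq_iff]
      rcases hm1 with rfl | rfl <;> rcases hm1' with rfl | rfl
      · exact absurd rfl hmm
      · rcases hm2 with rfl | rfl <;> rcases hm2' with rfl | rfl
        · exact absurd rfl hmm
        · exact Or.inl ⟨rfl, rfl⟩
        · exact Or.inr ⟨rfl, rfl⟩
        · exact absurd rfl hmm
      · rcases hm2 with rfl | rfl <;> rcases hm2' with rfl | rfl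
        · exact absurd rfl hmm
        · exact Or.inr ⟨rfl, rfl⟩
        · exact Or.inl ⟨rfl, rfl⟩
        · exact absurd rfl hmm
      · exact absurd rfl hmm

end Pool.Agent.TOKST
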