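import Mathlib
import Pool.Agent.TOKST.Defs

/-!
# Module TKWALK: from the list form to walks

`walk_of_chain`: induction on the list.  `hasTOKS_of_TK`: `P i j` for `i ≠ j` is the walk of `walk_of_chain` for `a i :: (L i j ++ [a j])` (for `i = j` take `Walk.nil`, with a cast `hij ▸`, or choose the
family `P` by `if h : i = j then ... else ...`); its support is `a i :: (L i j ++ [a j])`, its length `|L i j| + 1` is odd; it is a path since the support is nodup (`inj`, `nodup`, `out`).
`a m ∈ support` gives `m = i ∨ m = j` (`out`, `inj`).  A common vertex of the supports of `P i j` and `P k l` is some `a m` or lies in `L i j` and `L k l`, excluded by `disj` (`s(i,j) ≠ s(k,l)` because `i < j`, `k < l`, `(i,j) ≠ (k,l)`).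
-/

set_option autoImplicit false
set_option linter.unusedSectionVars false

namespace Pool.Agent.TOKST

variable {V : Type} {G : SimpleGraph V}

theorem walk_of_chain (u v : V) (L : List V) (h : List.IsChain G.Adj (u :: (L ++ [v]))) :
    ∃ p : G.Walk u v, p.support = u :: (L ++ [v]) ∧ p.length = L.length + 1 := by
  induction L generalizing u with
  | nil =>
    rw [List.nil_append, List.isChain_cons_cons] at h
    exact ⟨SimpleGraph.Walk.cons h.1 SimpleGraph.Walk.nil, by simp, by simp⟩
  | cons x L ih =>
    rw [List.cons_append, List.isChain_cons_cons] at h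
    obtain ⟨p, hp, hl⟩ := ih x h.2
    refine ⟨SimpleGraph.Walk.cons h.1 p, ?_, ?_⟩
    · rw [SimpleGraph.Walk.support_cons, hp, List.cons_append]
    · rw [SimpleGraph.Walk.length_cons, hl, List.length_cons]

theorem hasTOKS_of_TK (h : TK G) : HasTOKS G := by
  obtain ⟨a, L, h⟩ := h
  have h0 : ∀ i j : Fin 4, ∃ p : G.Walk (a i) (a j), i ≠ j →
      p.support = a i :: (L i j ++ [a j]) ∧ p.length = (L i j).length + 1 := by
    intro i j
    by_cases hij : i = j
    · subst hij
      exact ⟨SimpleGraph.Walk.nil, fun h => absurd rfl h⟩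
    · obtain ⟨p, hp⟩ := walk_of_chain (a i) (a j) (L i j) (h.chain i j hij)
      exact ⟨p, fun _ => hp⟩
  choose P hP using h0
  have hmem : ∀ i j : Fin 4, i ≠ j → ∀ x, x ∈ (P i j).support →
      x = a i ∨ x ∈ L i j ∨ x = a j := by
    intro i j hij x hx
    rw [(hP i j hij).1, List.mem_cons, List.mem_append, List.mem_singleton] at hx
    exact hx
  refine ⟨a, P, h.inj, ?_, ?_, ?_⟩
  · intro i j hij
    have hne := ne_of_lt hij
    refine ⟨?_, ?_⟩
    · rw [SimpleGraph.Walk.isPath_def, (hP i j hne).1, List.nodup_cons, List.nodup_append]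
      refine ⟨?_, h.nodup i j hne, List.nodup_singleton _, ?_⟩
      · intro hmem
        rw [List.mem_append, List.mem_singleton] at hmem
        rcases hmem with h1 | h1
        · exact h.out i j i hne h1
        · exact hne (h.inj h1)
      · intro x hx y hy hxy
        rw [List.mem_singleton] at hy
        rw [hxy, hy] at hx
        exact h.out i j j hne hx
    · rw [(hP i j hne).2]
      exact (h.even i j hne).add_one
  · intro i j m hij hm
    have hne := ne_of_lt hij
    rcases hmem i j hne _ hm with h1 | h1 | h1
    · exact Or.inl (h.inj h1)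
    · exact absurd h1 (h.out i j m hne)
    · exact Or.inr (h.inj h1)
  · intro i j k l hij hkl hne x hx hx'
    have h1 := ne_of_lt hij
    have h2 := ne_of_lt hkl
    rcases hmem i j h1 x hx with h3 | h3 | h3
    · exact ⟨i, h3⟩
    · rcases hmem k l h2 x hx' with h4 | h4 | h4
      · exact ⟨k, h4⟩
      · exfalso
        refine h.disj i j k l h1 h2 ?_ x h3 h4
        intro hs
        rw [Sym2.eq_iff] at hs
        rcases hs with ⟨h5, h6⟩ | ⟨h5, h6⟩
        · exact hne (by rw [h5, h6])
        · rw [h5, h6] at hij
          exact absurd hij (not_lt.2 hkl.le)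
      · exact ⟨l, h4⟩
    · exact ⟨j, h3⟩

end Pool.Agent.TOKST
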