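import Mathlib
import Pool.Agent.TOKST.Base
import Pool.Agent.TOKST.Cor
import Pool.Agent.TOKST.TKWalk
import Pool.Agent.TOKST.TKSubst

/-!
# Module FINAL: (5') in a graph

`J = JG W N a b c d` with `N w` = the finset of the neighbours of `w` in `A` (`A.filter (G.Adj w)`, classical).  `cor5` gives `TK J` (`hs` with `S = NN N Y`; `NN N W = A` by `hAN`; the four ends are distinct: `p`, `q` are odd paths and disjoint).
Apply `TK_subst` with `S a b` = the inner vertices of `p` (`p.support.tail.dropLast`), `S b a` = its reverse, `S c d`, `S d c` the same for `q`, and `[]` otherwise; then `hasTOKS_of_TK`.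
-/

set_option autoImplicit false
set_option linter.unusedSectionVars false

namespace Pool.Agent.TOKST

variable {V : Type} [DecidableEq V]

/-- the inner vertices of an odd path -/
theorem exists_inner {G : SimpleGraph V} {a b : V} (p : G.Walk a b) (hp : p.IsPath)
    (hpo : Odd p.length) :
    a ≠ b ∧ ∃ L : List V, p.support = a :: (L ++ [b]) ∧ Even L.length ∧ L.Nodup ∧ a ∉ L ∧ b ∉ L ∧
      List.IsChain G.Adj (a :: (L ++ [b])) := by
  have hab : a ≠ b := by
    rintro rfl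
    have h0 := SimpleGraph.Walk.isPath_iff_nil.1 hp
    rw [SimpleGraph.Walk.length_eq_zero_iff.2 h0] at hpo
    simp at hpo
  refine ⟨hab, ?_⟩
  have hs : p.support = a :: p.support.tail := (SimpleGraph.Walk.cons_tail_support p).symm
  have hne : p.support.tail ≠ [] := by
    intro h0
    have h1 : p.support.length = 1 := by rw [hs, h0]; rfl
    rw [SimpleGraph.Walk.length_support] at h1
    have h2 : p.length = 0 := by omega
    rw [h2] at hpo
    simp at hpo
  have hlast : p.support.tail.getLast hne = b := by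
    have h1 : p.support.getLast (by rw [hs]; simp) = b := SimpleGraph.Walk.getLast_support p
    rw [List.getLast_tail]
    exact h1
  have hL : p.support.tail = p.support.tail.dropLast ++ [b] := by
    conv_lhs => rw [← List.dropLast_append_getLast hne, hlast]
  have hs2 : p.support = a :: (p.support.tail.dropLast ++ [b]) := by
    rw [← hL]
    exact hs
  refine ⟨p.support.tail.dropLast, hs2, ?_, ?_, ?_, ?_, ?_⟩
  · have h1 : p.support.length = p.length + 1 := SimpleGraph.Walk.length_support p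
    rw [hs2] at h1
    simp only [List.length_cons, List.length_append, List.length_nil] at h1
    rcases hpo with ⟨k, hk⟩
    exact ⟨k, by omega⟩
  · have h1 := hp.support_nodup
    rw [hs2, List.nodup_cons, List.nodup_append] at h1
    exact h1.2.1
  · have h1 := hp.support_nodup
    rw [hs2, List.nodup_cons] at h1
    exact fun h => h1.1 (List.mem_append_left _ h)
  · have h1 := hp.support_nodup
    rw [hs2, List.nodup_cons, List.nodup_append] at h1
    exact fun h => h1.2.2.2 b h b (List.mem_singleton_self b) rfl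
  · rw [← hs2]
    exact SimpleGraph.Walk.isChain_adj_support p

/-- (5'): two disjoint odd `A`-paths outside `W` -/
theorem final5 (G : SimpleGraph V) {W A : Finset V} (hWA : Disjoint W A)
    (hN : ∀ w ∈ W, ∀ v, G.Adj w v → v ∈ A) (hW : 2 ≤ W.card) (hA : A.card = W.card + 2)
    (hAN : ∀ v ∈ A, ∃ w ∈ W, G.Adj w v)
    (hs : ∀ Y, Y ⊆ W → Y.Nonempty → Y ≠ W →
      ∀ S : Finset V, (∀ w ∈ Y, ∀ v, G.Adj w v → v ∈ S) → Y.card + 3 ≤ S.card)
    {a b c d : V} (ha : a ∈ A) (hb : b ∈ A) (hc : c ∈ A) (hd : d ∈ A)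
    (p : G.Walk a b) (q : G.Walk c d) (hp : p.IsPath) (hq : q.IsPath) (hpo : Odd p.length)
    (hqo : Odd q.length) (hpq : ∀ x ∈ p.support, x ∉ q.support)
    (hpW : ∀ x ∈ p.support, x ∉ W) (hqW : ∀ x ∈ q.support, x ∉ W)
    (hpA : ∀ x ∈ p.support, x ∈ A → x = a ∨ x = b)
    (hqA : ∀ x ∈ q.support, x ∈ A → x = c ∨ x = d) : HasTOKS G := by
  classical
  obtain ⟨hab, Lp, hps, hpe, hpn, hap, hbp, hpc⟩ := exists_inner p hp hpo
  obtain ⟨hcd, Lq, hqs, hqe, hqn, hcq, hdq, hqc⟩ := exists_inner q hq hqo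
  have hmp : ∀ x, x ∈ p.support ↔ x = a ∨ x ∈ Lp ∨ x = b := by
    intro x
    rw [hps]
    simp
  have hmq : ∀ x, x ∈ q.support ↔ x = c ∨ x ∈ Lq ∨ x = d := by
    intro x
    rw [hqs]
    simp
  have hap' : a ∈ p.support := (hmp a).2 (Or.inl rfl)
  have hbp' : b ∈ p.support := (hmp b).2 (Or.inr (Or.inr rfl))
  have hcq' : c ∈ q.support := (hmq c).2 (Or.inl rfl)
  have hdq' : d ∈ q.support := (hmq d).2 (Or.inr (Or.inr rfl))
  have hac : a ≠ c := fun h => hpq a hap' (h ▸ hcq')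
  have had : a ≠ d := fun h => hpq a hap' (h ▸ hdq')
  have hbc : b ≠ c := fun h => hpq b hbp' (h ▸ hcq')
  have hbd : b ≠ d := fun h => hpq b hbp' (h ▸ hdq')
  -- the neighbourhoods
  let N : V → Finset V := fun w => A.filter (G.Adj w)
  have hNm : ∀ w v, v ∈ N w ↔ v ∈ A ∧ G.Adj w v := fun w v => Finset.mem_filter
  have hNNW : NN N W = A := by
    ext v
    rw [mem_NN]
    constructor
    · rintro ⟨w, -, hv⟩
      exact ((hNm w v).1 hv).1
    · intro hv
      obtain ⟨w, hw, hwv⟩ := hAN v hv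
      exact ⟨w, hw, (hNm w v).2 ⟨hv, hwv⟩⟩
  have hTK : TK (JG W N a b c d) := by
    refine cor5 hW ?_ ?_ ?_ (hNNW ▸ ha) (hNNW ▸ hb) (hNNW ▸ hc) (hNNW ▸ hd) ?_
    · intro Y hY hne hYW
      refine hs Y hY hne hYW _ ?_
      intro w hw v hwv
      exact mem_NN.2 ⟨w, hw, (hNm w v).2 ⟨hN w (hY hw) v hwv, hwv⟩⟩
    · rw [hNNW, hA]
    · intro w hw
      rw [hNNW]
      exact Finset.disjoint_left.1 hWA hw
    · simp [hab, hac, had, hbc, hbd, hcd]
  -- the substitution
  let S : V → V → List V := fun u v =>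
    if u = a ∧ v = b then Lp
    else if u = b ∧ v = a then Lp.reverse
    else if u = c ∧ v = d then Lq
    else if u = d ∧ v = c then Lq.reverse
    else []
  have Sab : S a b = Lp := by simp [S]
  have Sba : S b a = Lp.reverse := by simp [S, hab, hab.symm]
  have Scd : S c d = Lq := by simp [S, hac.symm, hbc.symm]
  have Sdc : S d c = Lq.reverse := by simp [S, had.symm, hbd.symm, hcd, hcd.symm]
  have hcases : ∀ u v, (u = a ∧ v = b) ∨ (u = b ∧ v = a) ∨ (u = c ∧ v = d) ∨ (u = d ∧ v = c) ∨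
      (S u v = [] ∧ S v u = [] ∧ ¬ (u = a ∧ v = b) ∧ ¬ (u = b ∧ v = a) ∧ ¬ (u = c ∧ v = d) ∧
        ¬ (u = d ∧ v = c)) := by
    intro u v
    by_cases h1 : u = a ∧ v = b
    · exact Or.inl h1
    by_cases h2 : u = b ∧ v = a
    · exact Or.inr (Or.inl h2)
    by_cases h3 : u = c ∧ v = d
    · exact Or.inr (Or.inr (Or.inl h3))
    by_cases h4 : u = d ∧ v = c
    · exact Or.inr (Or.inr (Or.inr (Or.inl h4)))
    refine Or.inr (Or.inr (Or.inr (Or.inr ⟨?_, ?_, h1, h2, h3, h4⟩)))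
    · simp only [S, if_neg h1, if_neg h2, if_neg h3, if_neg h4]
    · have h1' : ¬ (v = b ∧ u = a) := fun h => h1 ⟨h.2, h.1⟩
      have h2' : ¬ (v = a ∧ u = b) := fun h => h2 ⟨h.2, h.1⟩
      have h3' : ¬ (v = d ∧ u = c) := fun h => h3 ⟨h.2, h.1⟩
      have h4' : ¬ (v = c ∧ u = d) := fun h => h4 ⟨h.2, h.1⟩
      simp only [S, if_neg h1', if_neg h2', if_neg h3', if_neg h4']
  have hJ : ∀ u v, (JG W N a b c d).Adj u v →
      (u ∈ W ∧ v ∈ N u) ∨ (v ∈ W ∧ u ∈ N v) ∨ (u = a ∧ v = b) ∨ (u = b ∧ v = a) ∨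
        (u = c ∧ v = d) ∨ (u = d ∧ v = c) := by
    intro u v h
    have h' : u ≠ v ∧ (((u ∈ W ∧ v ∈ N u) ∨ (u = a ∧ v = b) ∨ (u = c ∧ v = d)) ∨
      ((v ∈ W ∧ u ∈ N v) ∨ (v = a ∧ u = b) ∨ (v = c ∧ u = d))) := by
      have h2 := h
      unfold JG at h2
      rwa [SimpleGraph.fromRel_adj] at h2
    rcases h'.2 with (h | h | h) | (h | h | h)
    · exact Or.inl h
    · exact Or.inr (Or.inr (Or.inl h))
    · exact Or.inr (Or.inr (Or.inr (Or.inr (Or.inl h))))
    · exact Or.inr (Or.inl h)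
    · exact Or.inr (Or.inr (Or.inr (Or.inl ⟨h.2, h.1⟩)))
    · exact Or.inr (Or.inr (Or.inr (Or.inr (Or.inr ⟨h.2, h.1⟩))))
  have hJWA : ∀ u v, (JG W N a b c d).Adj u v → u ∈ W ∨ u ∈ A := by
    intro u v h
    rcases hJ u v h with h | h | h | h | h | h
    · exact Or.inl h.1
    · exact Or.inr ((hNm v u).1 h.2).1
    · rw [h.1]; exact Or.inr ha
    · rw [h.1]; exact Or.inr hb
    · rw [h.1]; exact Or.inr hc
    · rw [h.1]; exact Or.inr hd
  have hSmem : ∀ u v z, z ∈ S u v → (s(u, v) = s(a, b) ∧ z ∈ Lp) ∨ (s(u, v) = s(c, d) ∧ z ∈ Lq) := by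
    intro u v z hz
    rcases hcases u v with ⟨rfl, rfl⟩ | ⟨rfl, rfl⟩ | ⟨rfl, rfl⟩ | ⟨rfl, rfl⟩ | h
    · rw [Sab] at hz
      exact Or.inl ⟨rfl, hz⟩
    · rw [Sba, List.mem_reverse] at hz
      exact Or.inl ⟨Sym2.eq_swap, hz⟩
    · rw [Scd] at hz
      exact Or.inr ⟨rfl, hz⟩
    · rw [Sdc, List.mem_reverse] at hz
      exact Or.inr ⟨Sym2.eq_swap, hz⟩
    · rw [h.1] at hz
      simp at hz
  have hrev : ∀ {x y : V} {L : List V}, List.IsChain G.Adj (x :: (L ++ [y])) →
      List.IsChain G.Adj (y :: (L.reverse ++ [x])) := by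
    intro x y L h
    have e : y :: (L.reverse ++ [x]) = (x :: (L ++ [y])).reverse := by simp
    rw [e, List.isChain_reverse]
    refine h.imp ?_
    intro u v huv
    exact huv.symm
  refine hasTOKS_of_TK (TK_subst (J := JG W N a b c d) S ?_ ?_ ?_ ?_ ?_ ?_ hTK)
  · intro u v _
    rcases hcases u v with ⟨rfl, rfl⟩ | ⟨rfl, rfl⟩ | ⟨rfl, rfl⟩ | ⟨rfl, rfl⟩ | h
    · rw [Sab, Sba]
    · rw [Sab, Sba, List.reverse_reverse]
    · rw [Scd, Sdc]
    · rw [Scd, Sdc, List.reverse_reverse]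
    · rw [h.1, h.2.1, List.reverse_nil]
  · intro u v huv
    rcases hcases u v with ⟨rfl, rfl⟩ | ⟨rfl, rfl⟩ | ⟨rfl, rfl⟩ | ⟨rfl, rfl⟩ | h
    · rw [Sab]; exact hpc
    · rw [Sba]; exact hrev hpc
    · rw [Scd]; exact hqc
    · rw [Sdc]; exact hrev hqc
    · rw [h.1]
      have hG : G.Adj u v := by
        rcases hJ u v huv with h' | h' | h' | h' | h' | h'
        · exact ((hNm u v).1 h'.2).2
        · exact ((hNm v u).1 h'.2).2.symm
        · exact absurd h' h.2.2.1
        · exact absurd h' h.2.2.2.1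
        · exact absurd h' h.2.2.2.2.1
        · exact absurd h' h.2.2.2.2.2
      simpa using hG
  · intro u v _
    rcases hcases u v with ⟨rfl, rfl⟩ | ⟨rfl, rfl⟩ | ⟨rfl, rfl⟩ | ⟨rfl, rfl⟩ | h
    · rw [Sab]; exact hpe
    · rw [Sba, List.length_reverse]; exact hpe
    · rw [Scd]; exact hqe
    · rw [Sdc, List.length_reverse]; exact hqe
    · rw [h.1]; simp
  · intro u v _
    rcases hcases u v with ⟨rfl, rfl⟩ | ⟨rfl, rfl⟩ | ⟨rfl, rfl⟩ | ⟨rfl, rfl⟩ | h
    · rw [Sab]; exact hpn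
    · rw [Sba, List.nodup_reverse]; exact hpn
    · rw [Scd]; exact hqn
    · rw [Sdc, List.nodup_reverse]; exact hqn
    · rw [h.1]; exact List.nodup_nil
  · intro u v x y _ hxy hx
    have hxWA := hJWA x y hxy
    rcases hSmem u v x hx with ⟨-, h⟩ | ⟨-, h⟩
    · have hxp : x ∈ p.support := (hmp x).2 (Or.inr (Or.inl h))
      rcases hxWA with h1 | h1
      · exact hpW x hxp h1
      · rcases hpA x hxp h1 with rfl | rfl
        · exact hap h
        · exact hbp h
    · have hxq : x ∈ q.support := (hmq x).2 (Or.inr (Or.inl h))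
      rcases hxWA with h1 | h1
      · exact hqW x hxq h1
      · rcases hqA x hxq h1 with rfl | rfl
        · exact hcq h
        · exact hdq h
  · intro u v x y _ _ hne z hz hz'
    rcases hSmem u v z hz with ⟨h1, h2⟩ | ⟨h1, h2⟩
    · rcases hSmem x y z hz' with ⟨h3, h4⟩ | ⟨h3, h4⟩
      · exact hne (h1.trans h3.symm)
      · exact hpq z ((hmp z).2 (Or.inr (Or.inl h2))) ((hmq z).2 (Or.inr (Or.inl h4)))
    · rcases hSmem x y z hz' with ⟨h3, h4⟩ | ⟨h3, h4⟩
      · exact hpq z ((hmp z).2 (Or.inr (Or.inl h4))) ((hmq z).2 (Or.inr (Or.inl h2)))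
      · exact hne (h1.trans h3.symm)

end Pool.Agent.TOKST
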